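import Pool.Agent.NH16.CD.Stm
import Pool.Agent.NH16.SM.FP

set_option autoImplicit false

/-!
# Project CD, CD5: prime tuples and averages along the residue classes; the majorant (helper6)
-/

namespace Pool.Agent.NH16.CD.CTD

open Finset Filter
open scoped BigOperators
open Pool.Agent.NH16.DL Pool.Agent.NH16.SM Pool.Agent.NH16.BT

theorem sum_classes (W A T : ℕ) (f : ℕ → ℝ) :
    ∑ c ∈ range W, ∑ t ∈ range T, f (c + W * (A + t)) = ∑ n ∈ Ico (W * A) (W * (A + T)), f n := by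
  rw [sum_comm]
  induction T with
  | zero => simp
  | succ T ih =>
    have h1 : W * A ≤ W * (A + T) := Nat.mul_le_mul_left _ (Nat.le_add_right _ _)
    have h2 : W * (A + T) ≤ W * (A + (T + 1)) := Nat.mul_le_mul_left _ (by omega)
    rw [sum_range_succ, ih, ← sum_Ico_consecutive _ h1 h2]
    congr 1
    rw [sum_Ico_eq_sum_range]
    have h3 : W * (A + (T + 1)) - W * (A + T) = W := by
      rw [← Nat.mul_sub]
      have : A + (T + 1) - (A + T) = 1 := by omega
      rw [this, mul_one]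
    rw [h3]
    exact sum_congr rfl fun c _ => by rw [add_comm]

theorem part1 (w x r : ℕ) (h : Fin (r + 1) → ℕ) (hx : 1 ≤ x) :
    |∑ c ∈ range (Wn w), ∑ t ∈ range (x / Wn w), ∏ i, Fd w x (h i) (c + Wn w * (x / Wn w + t)) -
      (Vv w * Real.log x) ^ (r + 1) * NV x h| ≤
    (Vv w * Real.log x) ^ (r + 1) * (3 * Wn w) := by
  classical
  obtain ⟨c, hc⟩ : ∃ c : ℝ, c = Vv w * Real.log x := ⟨_, rfl⟩
  have hc0 : 0 ≤ c := by
    rw [hc]
    exact mul_nonneg (Vv_pos w).le (Real.log_nonneg (by exact_mod_cast hx))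
  rw [← hc]
  have hW0 : 0 < Wn w := Wn_pos w
  obtain ⟨W, hW⟩ : ∃ W : ℕ, W = Wn w := ⟨_, rfl⟩
  rw [← hW] at hW0 ⊢
  obtain ⟨T, hT⟩ : ∃ T : ℕ, T = x / W := ⟨_, rfl⟩
  rw [← hT]
  rw [sum_classes W T T (fun n => ∏ i, Fd w x (h i) n)]
  obtain ⟨S1, hS1⟩ : ∃ S1 : Finset ℕ, S1 = (Ico (W * T) (W * (T + T))).filter
    (fun q => ∀ i, (q * h i + 1).Prime) := ⟨_, rfl⟩
  obtain ⟨S2, hS2⟩ : ∃ S2 : Finset ℕ, S2 = (Ico x (2 * x)).filter
    (fun q => ∀ i, (q * h i + 1).Prime) := ⟨_, rfl⟩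
  have e1 : ∑ n ∈ Ico (W * T) (W * (T + T)), ∏ i, Fd w x (h i) n = c ^ (r + 1) * S1.card := by
    have h1 : ∀ q, ∏ i, Fd w x (h i) q =
        if ∀ i, (q * h i + 1).Prime then c ^ (r + 1) else 0 := by
      intro q
      split_ifs with h'
      · have h2 : ∀ i, Fd w x (h i) q = c := by
          intro i
          unfold Fd
          have h3 := h' i
          rw [mul_comm] at h3
          rw [if_pos h3, hc]
        rw [Finset.prod_congr rfl fun i _ => h2 i, prod_const, card_univ, Fintype.card_fin]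
      · push Not at h'
        obtain ⟨i, hi⟩ := h'
        refine prod_eq_zero (mem_univ i) ?_
        unfold Fd
        rw [mul_comm] at hi
        rw [if_neg hi]
    rw [Finset.sum_congr rfl fun q _ => h1 q, ← sum_filter, sum_const, ← hS1, nsmul_eq_mul]
    ring
  have e2 : NV x h = S2.card := by
    unfold NV
    rw [hS2]
  have hWN : W * T ≤ x := by rw [hT]; exact Nat.mul_div_le x W
  have hWN2 : x < W * T + W := by
    have h1 := Nat.div_add_mod x W
    have h2 := Nat.mod_lt x hW0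
    rw [hT]
    omega
  have hWT : W * (T + T) = 2 * (W * T) := by ring
  have hs1 : S1 ⊆ S2 ∪ Ico (W * T) x := by
    intro n hn
    rw [hS1, mem_filter, mem_Ico] at hn
    rw [hS2, mem_union, mem_filter, mem_Ico, mem_Ico]
    by_cases h1 : n < x
    · exact Or.inr ⟨hn.1.1, h1⟩
    · exact Or.inl ⟨⟨by omega, by omega⟩, hn.2⟩
  have hs2 : S2 ⊆ S1 ∪ Ico (2 * (W * T)) (2 * x) := by
    intro n hn
    rw [hS2, mem_filter, mem_Ico] at hn
    rw [hS1, mem_union, mem_filter, mem_Ico, mem_Ico]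
    by_cases h1 : n < 2 * (W * T)
    · exact Or.inl ⟨⟨by omega, by omega⟩, hn.2⟩
    · exact Or.inr ⟨by omega, hn.1.2⟩
  have h1 := (card_le_card hs1).trans (card_union_le _ _)
  have h2 := (card_le_card hs2).trans (card_union_le _ _)
  rw [Nat.card_Ico] at h1 h2
  have h3 : S1.card ≤ S2.card + 3 * W := by omega
  have h4 : S2.card ≤ S1.card + 3 * W := by omega
  have h3' : (S1.card : ℝ) ≤ S2.card + 3 * W := by exact_mod_cast h3
  have h4' : (S2.card : ℝ) ≤ S1.card + 3 * W := by exact_mod_cast h4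
  rw [e1, e2, ← mul_sub, abs_mul, abs_of_nonneg (pow_nonneg hc0 _)]
  refine mul_le_mul_of_nonneg_left ?_ (pow_nonneg hc0 _)
  rw [abs_le]
  constructor <;> linarith

theorem part2 (C b : ℕ) (hC : 1 ≤ C) (hb : 1 ≤ b) (w : ℕ) : ∀ᶠ x : ℕ in atTop, ∀ r q : ℕ,
    1 ≤ r → x ≤ 2 * q → Fd w x r q ≤ 2 / ke C b * gy w (yx C b x) (r * q + 1) := by
  filter_upwards [(yx_tendsto C b).eventually Vv_bounds, yx_log C b, eventually_ge_atTop 2] with
    N hV hl hN2 r q hr hq
  have hk := ke_pos C b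
  have hVw := Vv_pos w
  unfold Fd gy
  split_ifs with h1 h2 h2
  · calc Vv w * Real.log N = 2 / ke C b * (Vv w * (ke C b / 2 * Real.log N)) := by field_simp
      _ ≤ 2 / ke C b * (Vv w * (Vv (yx C b N))⁻¹) :=
          mul_le_mul_of_nonneg_left (mul_le_mul_of_nonneg_left (hl.1.trans hV.1) hVw.le)
            (by positivity)
      _ = 2 / ke C b * (Vv w / Vv (yx C b N)) := by rw [div_eq_mul_inv (Vv w)]
  · exfalso
    apply h2
    intro p hp hd
    rw [mem_filter, mem_PP] at hp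
    have hpe : p = r * q + 1 := (Nat.prime_dvd_prime_iff_eq hp.1.1 h1).1 hd
    have h3 := Pool.Agent.NH16.SM.FP.sq_le hC hb (by omega : 1 ≤ N) (hpe ▸ hp.1.2)
    have h4 : q + 1 ≤ r * q + 1 := by nlinarith
    have h5 : (q + 1) * (q + 1) ≤ (r * q + 1) * (r * q + 1) := Nat.mul_le_mul h4 h4
    nlinarith
  · exact mul_nonneg (by positivity) (div_pos hVw (Vv_pos _)).le
  · rw [mul_zero]

theorem main : S_CTD :=
  ⟨fun w x r h hx => part1 w x r h hx, fun C b hC hb w => part2 C b hC hb w⟩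

end Pool.Agent.NH16.CD.CTD
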