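import Pool.Agent.NH16.CD.Stm
import Pool.Agent.NH16.BT.E5

set_option autoImplicit false
set_option linter.unusedSectionVars false
set_option linter.unusedVariables false

/-!
# The majorant at the forms `r q + 1` along residue classes
-/

namespace Pool.Agent.NH16.CD

open Finset Filter Topology
open scoped BigOperators
open Pool.Agent.NH16.DL Pool.Agent.NH16.SM Pool.Agent.NH16.BT

/-- properties of one level of the majorant -/
structure LD (M C b w x : ℕ) (η : ℝ) : Prop where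
  fl : ∀ m ≤ M, ∀ (a : Fin m → Bool) (u : Fin m → ℕ) (D c : ℕ), D ≠ 0 → (∀ i, 1 ≤ u i) →
    (∀ p : ℕ, p.Prime → w < p → ∀ i, p ∣ u i → p ∣ D) →
    (∀ p : ℕ, p.Prime → w < p → ∀ i j, i ≠ j → p ∣ Nat.dist (u i) (u j) → p ∣ D) →
    (1 - 4 * (1 / 2 : ℝ) ^ b) * (1 - (m : ℝ) ^ 2 / w) - η ≤
      𝔼 t : Fin (x / Wn w), ∏ i, (if a i = true then gy w (yx C b x) (u i * (c + Wn w * t) + 1) else 1) ∧
    𝔼 t : Fin (x / Wn w), ∏ i, (if a i = true then gy w (yx C b x) (u i * (c + Wn w * t) + 1) else 1) ≤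
      (1 + 4 * (1 / 2 : ℝ) ^ b) * sg w (3 ^ m) D + η
  fp : ∀ r q : ℕ, 1 ≤ r → x ≤ 2 * q → Fd w x r q ≤ 2 / ke C b * gy w (yx C b x) (r * q + 1)
  l1 : 1 ≤ Vv w / Vv (yx C b x)
  l2 : Vv w / Vv (yx C b x) ≤ 4 * Real.log x
  wn : Wn w ≤ x

theorem LD_ev (h1 : S_FLD) (h2 : S_CTD) (M : ℕ) : ∃ C : ℕ, 1 ≤ C ∧ ∀ b : ℕ, C ≤ b → ∀ η : ℝ, 0 < η →
    ∀ w : ℕ, 1 ≤ w → ∀ᶠ x : ℕ in atTop, LD M C b w x η := by
  obtain ⟨C, hC1, hC⟩ := h1 M
  refine ⟨C, hC1, fun b hb η hη w hw => ?_⟩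
  have e1 := hC b hb η hη w hw
  have e2 := h2.2 C b hC1 (hC1.trans hb) w
  have e3 := (yx_tendsto C b).eventually Vv_bounds
  have e4 := (yx_tendsto C b).eventually_ge_atTop w
  have e5 := yx_log C b
  filter_upwards [e1, e2, e3, e4, e5, eventually_ge_atTop 1, eventually_ge_atTop (Wn w)] with N g1 g2 g3 g4 g5 g6 g7
  refine ⟨fun m hm => g1 m hm, g2, ?_, ?_, g7⟩
  · rw [one_le_div (Vv_pos _)]
    exact Vv_anti g4
  · rw [div_eq_mul_inv]
    have hlog : 0 ≤ Real.log N := Real.log_natCast_nonneg N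
    have hke : ke C b ≤ 1 := ke_le_one' C b
    have h6 : ke C b * Real.log N ≤ Real.log N := mul_le_of_le_one_left hlog hke
    calc Vv w * (Vv (yx C b N))⁻¹ ≤ 1 * (Vv (yx C b N))⁻¹ :=
          mul_le_mul_of_nonneg_right (Vv_le_one w) (inv_nonneg.2 (Vv_pos _).le)
      _ ≤ 4 * Real.log N := by linarith [g3.2, g5.2]

/-- the value of the variable -/
def qq (w x c t : ℕ) : ℕ := c + Wn w * (x / Wn w + t)

lemma two_qq {w x : ℕ} (h : Wn w ≤ x) (c t : ℕ) : x ≤ 2 * qq w x c t := by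
  unfold qq
  have hW := Wn_pos w
  have h2 : 1 ≤ x / Wn w := Nat.div_pos h hW
  have h3 := Nat.div_add_mod x (Wn w)
  have h4 := Nat.mod_lt x hW
  have h5 : Wn w * 1 ≤ Wn w * (x / Wn w) := Nat.mul_le_mul_left _ h2
  have h6 : Wn w * (x / Wn w + t) = Wn w * (x / Wn w) + Wn w * t := by ring
  omega

lemma Fd_nonneg (w x r q : ℕ) : 0 ≤ Fd w x r q := by
  unfold Fd
  split_ifs
  · exact mul_nonneg (Vv_pos w).le (Real.log_natCast_nonneg x)
  · exact le_rfl

lemma Fd_le (w x r q : ℕ) : Fd w x r q ≤ Real.log x := by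
  unfold Fd
  split_ifs
  · exact mul_le_of_le_one_left (Real.log_natCast_nonneg x) (Vv_le_one w)
  · exact Real.log_natCast_nonneg x

/-- the majorant -/
noncomputable def nuD (w y x c : ℕ) {R : ℕ} (s : psn w R c) (t : Fin (x / Wn w)) : ℝ := gy w y (vl s.1 * qq w x c t + 1)

/-- the primes, for slopes without small prime factors of large weight -/
noncomputable def Fg (w x r q : ℕ) : ℝ := if sg w 3 r ≤ 2 then Fd w x r q else 0

/-- the primes -/
noncomputable def fD (w x c : ℕ) {R : ℕ} (s : psn w R c) (t : Fin (x / Wn w)) : ℝ := Fg w x (vl s.1) (qq w x c t)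

lemma Fg_nonneg (w x r q : ℕ) : 0 ≤ Fg w x r q := by
  unfold Fg
  split_ifs
  · exact Fd_nonneg _ _ _ _
  · exact le_rfl

lemma Fg_le_Fd (w x r q : ℕ) : Fg w x r q ≤ Fd w x r q := by
  unfold Fg
  split_ifs
  · exact le_rfl
  · exact Fd_nonneg _ _ _ _

lemma Fg_le (w x r q : ℕ) : Fg w x r q ≤ Real.log x := (Fg_le_Fd w x r q).trans (Fd_le w x r q)

section
variable {M C b w x : ℕ} {η : ℝ}

lemma LD.fDle (h : LD M C b w x η) {R c : ℕ} (s : psn w R c) (t : Fin (x / Wn w)) :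
    fD w x c s t ≤ 2 / ke C b * nuD w (yx C b x) x c s t :=
  (Fg_le_Fd _ _ _ _).trans (h.fp _ _ (vl_pos _) (two_qq h.wn _ _))

lemma LD.flc (h : LD M C b w x η) {m : ℕ} (hm : m ≤ M) (a : Fin m → Bool) {R c : ℕ} (r : Fin m → psn w R c) (D : ℕ)
    (hD : D ≠ 0) (h1 : ∀ p : ℕ, p.Prime → w < p → ∀ i, p ∣ vl (r i).1 → p ∣ D)
    (h2 : ∀ p : ℕ, p.Prime → w < p → ∀ i j, i ≠ j → p ∣ Nat.dist (vl (r i).1) (vl (r j).1) → p ∣ D) :
    (1 - 4 * (1 / 2 : ℝ) ^ b) * (1 - (m : ℝ) ^ 2 / w) - η ≤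
      𝔼 t, pp (nuD w (yx C b x) x c) (fun _ _ => 1) a r t ∧
    𝔼 t, pp (nuD w (yx C b x) x c) (fun _ _ => 1) a r t ≤ (1 + 4 * (1 / 2 : ℝ) ^ b) * sg w (3 ^ m) D + η := by
  have e : 𝔼 t, pp (nuD w (yx C b x) x c) (fun _ _ => 1) a r t =
      𝔼 t : Fin (x / Wn w), ∏ i, (if a i = true then
        gy w (yx C b x) (vl (r i).1 * ((c + Wn w * (x / Wn w)) + Wn w * t) + 1) else 1) := by
    refine expect_congr rfl fun t _ => ?_
    unfold pp pt nuD qq
    refine prod_congr rfl fun i _ => ?_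
    have e2 : c + Wn w * (x / Wn w + t) = (c + Wn w * (x / Wn w)) + Wn w * t := by ring
    cases a i
    · rfl
    · show gy w (yx C b x) (vl (r i).1 * (c + Wn w * (x / Wn w + t)) + 1) = _
      rw [e2]
      rfl
  rw [e]
  exact h.fl m hm a (fun i => vl (r i).1) D (c + Wn w * (x / Wn w)) hD (fun i => vl_pos _) h1 h2

lemma dvd_disc {m : ℕ} (r : Fin m → ℕ) (i : Fin m) : r i ∣ disc r :=
  (dvd_prod_of_mem r (mem_univ i)).trans (dvd_mul_right _ _)

lemma ed_dvd_disc {m : ℕ} (r : Fin m → ℕ) (i j : Fin m) : ed (r i) (r j) ∣ disc r :=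
  ((dvd_prod_of_mem (fun j => ed (r i) (r j)) (mem_univ j)).trans
    (dvd_prod_of_mem (fun i => ∏ j, ed (r i) (r j)) (mem_univ i))).trans (dvd_mul_left _ _)

lemma LD.fli (h : LD M C b w x η) {m : ℕ} (hm : m ≤ M) (a : Fin m → Bool) {R c : ℕ} (r : Fin m → psn w R c)
    (hr : Function.Injective r) :
    (1 - 4 * (1 / 2 : ℝ) ^ b) * (1 - (m : ℝ) ^ 2 / w) - η ≤
      𝔼 t, pp (nuD w (yx C b x) x c) (fun _ _ => 1) a r t ∧
    𝔼 t, pp (nuD w (yx C b x) x c) (fun _ _ => 1) a r t ≤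
      (1 + 4 * (1 / 2 : ℝ) ^ b) * sg w (3 ^ m) (disc (fun i => vl (r i).1)) + η := by
  refine h.flc hm a r _ (disc_ne fun i => by have := vl_pos (r i).1; omega) ?_ ?_
  · intro p _ _ i hd
    exact hd.trans (dvd_disc (fun i => vl (r i).1) i)
  · intro p _ _ i j hij hd
    have h3 : vl (r i).1 ≠ vl (r j).1 := fun h4 => hij (hr (Subtype.ext (vl_inj h4)))
    have h4 : ed (vl (r i).1) (vl (r j).1) = Nat.dist (vl (r i).1) (vl (r j).1) := by
      unfold ed
      rw [if_neg h3]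
    rw [← h4] at hd
    exact hd.trans (ed_dvd_disc (fun i => vl (r i).1) i j)

/-- pseudorandomness along the positions of a class -/
theorem LD.psr (h : LD M C b w x η) (hPS : S_PSg) (hPD : S_PD) (hw : 1 ≤ w)
    (hb : 4 * (1 / 2 : ℝ) ^ b ≤ 1) (hη0 : 0 ≤ η) (hη : η ≤ 1) {X lam : ℝ} (hX0 : 0 ≤ X) (hX1 : X ≤ 1)
    (hX : ∀ m ≤ M, (2 * (Vv w)⁻¹) ^ m * XA m w ≤ X) {R c : ℕ} (hR : 1 ≤ R)
    (hcard : Vv w * R / 2 ≤ ((psn w R c).card : ℝ)) (hlam : 8 * Real.log x ≤ lam * (Vv w * R))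
    (hl1 : lam ≤ 1) (hne : Nonempty (psn w R c)) :
    (∀ m ≤ M, MB (nuD (R := R) w (yx C b x) x c) (fun _ _ => 1) (BX m) m) ∧
    (∀ m ≤ M, 1 ≤ m → PR (nuD (R := R) w (yx C b x) x c) (fun _ _ => 1)
      (X + 2 * (4 * (1 / 2 : ℝ) ^ b) + η + (m : ℝ) ^ 2 / w + (m : ℝ) ^ 2 * lam * (BX (m - 1) + 1)) m) ∧
    (∀ m ≤ M, 1 ≤ m → 4 * (1 / 2 : ℝ) ^ b + η ≤ 1 →
      𝔼 r : Fin m → psn w R c, max 0 (𝔼 t, ∏ i, nuD w (yx C b x) x c (r i) t - 2) ≤
        2 * X + (m : ℝ) ^ 2 * lam * BX (m - 1)) := by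
  classical
  have hT := Wn_le_nonempty h.wn
  have hRp : (0 : ℝ) < R := by exact_mod_cast hR
  have hV := Vv_pos w
  have hcp : (0 : ℝ) < ((psn w R c).card : ℝ) := lt_of_lt_of_le (by positivity) hcard
  have hwp : (1 : ℝ) ≤ w := by exact_mod_cast hw
  have hcc : (Fintype.card (psn w R c) : ℝ) = ((psn w R c).card : ℝ) := by rw [Fintype.card_coe]
  have hlog : 0 ≤ Real.log x := Real.log_natCast_nonneg x
  have hlam0 : 0 ≤ lam := by
    by_contra hcon
    push Not at hcon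
    have : 0 < Vv w * R := by positivity
    nlinarith
  exact hPS (psn w R c) (Fin (x / Wn w)) (nuD w (yx C b x) x c)
    (fun m r => sg w (3 ^ m) (disc (fun i => vl (r i).1)))
    (Vv w / Vv (yx C b x)) lam (4 * (1 / 2 : ℝ) ^ b) η X w M hwp h.l1 (fun s q => gy_nonneg _ _ _)
    (fun s q => gy_le _ _ _) (by
      rw [hcc, div_le_iff₀ hcp]
      refine h.l2.trans ?_
      have := mul_le_mul_of_nonneg_left hcard hlam0
      linarith) hl1 (by positivity) hb hη0 hη hX0 hX1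
    (fun m _ r => sg_one_le (by positivity) _)
    (fun m hm => (hPD.2.2.1 w R c m hw hR hcard).trans (hX m hm))
    (fun m hm a r hr => h.fli hm a r hr)

/-- pair correlations and mean squares -/
theorem LD.cor (h : LD M C b w x η) (hM : 2 ≤ M) (hη0 : 0 ≤ η) (hbη : 4 * (1 / 2 : ℝ) ^ b + η ≤ 1) {R c : ℕ} :
    (∀ s s' : psn w R c, s ≠ s' → 𝔼 t, fD w x c s t * fD w x c s' t ≤
      2 * (2 / ke C b) ^ 2 + 2 * (2 / ke C b) ^ 2 * (sg w 9 (disc ![vl s.1, vl s'.1]) - 1)) ∧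
    (∀ s : psn w R c, 𝔼 t, fD w x c s t ^ 2 ≤ 16 * (2 / ke C b) ^ 2 * Real.log x) := by
  have hT := Wn_le_nonempty h.wn
  have hK : 0 < 2 / ke C b := div_pos two_pos (ke_pos C b)
  have hlog : 0 ≤ Real.log x := Real.log_natCast_nonneg x
  have hth : 0 ≤ 4 * (1 / 2 : ℝ) ^ b := by positivity
  constructor
  · intro s s' hne
    have hinj : Function.Injective ![s, s'] := by
      intro i j hij
      fin_cases i <;> fin_cases j
      · rfl
      · exact absurd hij hne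
      · exact absurd hij.symm hne
      · rfl
    have h1 := (h.fli hM (fun _ => true) ![s, s'] hinj).2
    have e1 : (fun i => vl ((![s, s'] : Fin 2 → psn w R c) i).1) = ![vl s.1, vl s'.1] := by
      funext i
      fin_cases i <;> rfl
    rw [e1] at h1
    have e2 : 𝔼 t, pp (nuD w (yx C b x) x c) (fun _ _ => 1) (fun _ => true) ![s, s'] t =
        𝔼 t, nuD w (yx C b x) x c s t * nuD w (yx C b x) x c s' t := by
      refine expect_congr rfl fun t _ => ?_
      unfold pp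
      rw [Fin.prod_univ_two]
      rfl
    rw [e2] at h1
    set S : ℝ := sg w 9 (disc ![vl s.1, vl s'.1]) with hS
    have e9 : (3 : ℝ) ^ 2 = 9 := by norm_num
    rw [e9] at h1
    have hS1 : 1 ≤ S := sg_one_le (by norm_num) _
    have h2 : 𝔼 t, fD w x c s t * fD w x c s' t ≤
        (2 / ke C b) ^ 2 * 𝔼 t, nuD w (yx C b x) x c s t * nuD w (yx C b x) x c s' t := by
      rw [mul_expect]
      refine expect_le_expect fun t _ => ?_
      calc fD w x c s t * fD w x c s' t ≤ (2 / ke C b * nuD w (yx C b x) x c s t) * (2 / ke C b * nuD w (yx C b x) x c s' t) :=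
            mul_le_mul (h.fDle s t) (h.fDle s' t) (Fg_nonneg _ _ _ _)
              (mul_nonneg hK.le (gy_nonneg _ _ _))
        _ = _ := by ring
    have h3 : 𝔼 t, nuD w (yx C b x) x c s t * nuD w (yx C b x) x c s' t ≤ 2 * S := by nlinarith
    calc _ ≤ (2 / ke C b) ^ 2 * (2 * S) := h2.trans (mul_le_mul_of_nonneg_left h3 (by positivity))
      _ = _ := by ring
  · intro s
    by_cases hs : sg w 3 (vl s.1) ≤ 2
    · have h1 := (h.flc (by omega : 1 ≤ M) (fun _ => true) (fun _ => s) (vl s.1) (by have := vl_pos s.1; omega)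
        (fun p _ _ _ hd => hd) (fun p _ _ i j hij _ => absurd (Subsingleton.elim i j) hij)).2
      have e2 : 𝔼 t, pp (nuD w (yx C b x) x c) (fun _ _ => 1) (fun _ => true) (fun _ : Fin 1 => s) t =
          𝔼 t, nuD w (yx C b x) x c s t := by
        refine expect_congr rfl fun t _ => ?_
        unfold pp
        rw [Fin.prod_univ_one]
        rfl
      rw [e2, pow_one] at h1
      have h3 : 𝔼 t, nuD w (yx C b x) x c s t ≤ 4 := by nlinarith
      have h4 : ∀ t, fD w x c s t ^ 2 ≤ ((2 / ke C b) ^ 2 * (4 * Real.log x)) * nuD w (yx C b x) x c s t := by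
        intro t
        have a1 := h.fDle s t
        have a2 : 0 ≤ fD w x c s t := Fg_nonneg _ _ _ _
        have a3 : nuD w (yx C b x) x c s t ≤ 4 * Real.log x := (gy_le _ _ _).trans h.l2
        have a4 : 0 ≤ nuD w (yx C b x) x c s t := gy_nonneg _ _ _
        calc fD w x c s t ^ 2 ≤ (2 / ke C b * nuD w (yx C b x) x c s t) ^ 2 := pow_le_pow_left₀ a2 a1 2
          _ = (2 / ke C b) ^ 2 * nuD w (yx C b x) x c s t * nuD w (yx C b x) x c s t := by ring
          _ ≤ (2 / ke C b) ^ 2 * (4 * Real.log x) * nuD w (yx C b x) x c s t :=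
              mul_le_mul_of_nonneg_right (mul_le_mul_of_nonneg_left a3 (by positivity)) a4
          _ = _ := by ring
      refine (expect_le_expect fun t _ => h4 t).trans ?_
      rw [← mul_expect]
      calc (2 / ke C b) ^ 2 * (4 * Real.log x) * 𝔼 t, nuD w (yx C b x) x c s t ≤
            (2 / ke C b) ^ 2 * (4 * Real.log x) * 4 := mul_le_mul_of_nonneg_left h3 (by positivity)
        _ = _ := by ring
    · have e : ∀ t, fD w x c s t = 0 := fun t => by
        unfold fD Fg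
        rw [if_neg hs]
      simp only [e]
      simp only [ne_eq, OfNat.ofNat_ne_zero, not_false_eq_true, zero_pow, expect_const_zero]
      positivity

end

end Pool.Agent.NH16.CD
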