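import Pool.Agent.NH16.CD.E1

set_option autoImplicit false
set_option linter.unusedSectionVars false
set_option linter.unusedVariables false

/-!
# The model of a class
-/

namespace Pool.Agent.NH16.CD

open Finset Filter Topology
open scoped BigOperators
open Pool.Agent.NH16.DL Pool.Agent.NH16.SM Pool.Agent.NH16.BT

/-! ### moments with respect to spread out weights -/

lemma spreadF {ρ : Type} [Fintype ρ] [Nonempty ρ] [DecidableEq ρ] {m : ℕ} {T : Type} [Fintype T] [Nonempty T]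
    (ν : ρ → T → ℝ) (κ : ρ → ℝ)
    (h0 : ∀ v, 0 ≤ κ v) (h1 : ∑ v, κ v = 1) {β : ℝ} (hβ : 0 < β) (h2 : ∀ v, κ v ≤ 1 / (β * Fintype.card ρ)) {E : ℝ}
    (hE : 𝔼 r : Fin m → ρ, max 0 (𝔼 t, ∏ i, ν (r i) t - 2) ≤ E) :
    𝔼 t, (∑ v, κ v * ν v t) ^ m ≤ 2 + (1 / β) ^ m * E := by
  have hRp : (0 : ℝ) < (Fintype.card ρ : ℝ) := by exact_mod_cast Fintype.card_pos
  set Rr : ℝ := (Fintype.card ρ : ℝ) with hRr
  have hcard : (Fintype.card (Fin m → ρ) : ℝ) = Rr ^ m := by
    rw [Fintype.card_fun, Fintype.card_fin]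
    push_cast
    rfl
  have e1 : ∀ t, (∑ v, κ v * ν v t) ^ m = ∑ r : Fin m → ρ, (∏ i, κ (r i)) * ∏ i, ν (r i) t := by
    intro t
    rw [Finset.sum_pow', Fintype.piFinset_univ]
    exact sum_congr rfl fun r _ => prod_mul_distrib
  simp only [e1]
  rw [expect_sum_comm]
  have e2 : ∀ r : Fin m → ρ, 𝔼 t, (∏ i, κ (r i)) * ∏ i, ν (r i) t ≤
      2 * ∏ i, κ (r i) + (1 / (β * Rr)) ^ m * max 0 (𝔼 t, ∏ i, ν (r i) t - 2) := by
    intro r
    rw [← mul_expect]
    have a0 : 0 ≤ ∏ i, κ (r i) := prod_nonneg fun i _ => h0 _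
    have a1 : ∏ i, κ (r i) ≤ (1 / (β * Rr)) ^ m := by
      calc ∏ i, κ (r i) ≤ ∏ _i : Fin m, 1 / (β * Rr) := prod_le_prod (fun i _ => h0 _) fun i _ => h2 _
        _ = _ := by rw [prod_const, card_univ, Fintype.card_fin]
    have a2 : 𝔼 t, ∏ i, ν (r i) t ≤ 2 + max 0 (𝔼 t, ∏ i, ν (r i) t - 2) := by
      have := le_max_right 0 (𝔼 t, ∏ i, ν (r i) t - 2)
      linarith
    have a3 := le_max_left 0 (𝔼 t, ∏ i, ν (r i) t - 2)
    nlinarith
  refine (sum_le_sum fun r _ => e2 r).trans ?_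
  rw [sum_add_distrib, ← mul_sum, ← mul_sum]
  have e3 : ∑ r : Fin m → ρ, ∏ i, κ (r i) = 1 := by
    have := Finset.sum_pow' (s := (univ : Finset ρ)) κ m
    rw [Fintype.piFinset_univ, h1, one_pow] at this
    exact this.symm
  rw [e3, mul_one]
  have e4 : ∑ r : Fin m → ρ, max 0 (𝔼 t, ∏ i, ν (r i) t - 2) ≤ Rr ^ m * E := by
    rw [Fintype.expect_eq_sum_div_card, hcard, div_le_iff₀ (by positivity)] at hE
    linarith
  have e5 : (1 / (β * Rr)) ^ m * (Rr ^ m * E) = (1 / β) ^ m * E := by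
    rw [← mul_assoc, ← mul_pow]
    congr 2
    field_simp
  have := mul_le_mul_of_nonneg_left e4 (show 0 ≤ (1 / (β * Rr)) ^ m by positivity)
  linarith

section
variable {ρ κ γ : Type} [Fintype ρ] [Nonempty ρ] [DecidableEq ρ] [Fintype κ] [Nonempty κ] [DecidableEq γ]

/-- the model: the average over the colour class, if it is large, otherwise one -/
noncomputable def Psi (σ : ℝ) (π : ρ → γ) (f : ρ → κ → ℝ) (s : ρ) (q : κ) : ℝ :=
  if σ * (Fintype.card ρ : ℝ) ≤ cell π s then av π f s q else 1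

lemma cell_pos (π : ρ → γ) (s : ρ) : (0 : ℝ) < cell π s := by
  unfold cell
  have h : s ∈ univ.filter (fun t => π t = π s) := mem_filter.2 ⟨mem_univ s, rfl⟩
  exact_mod_cast card_pos.2 ⟨s, h⟩

lemma av_eq (π : ρ → γ) (f : ρ → κ → ℝ) {s s' : ρ} (h : π s = π s') (q : κ) : av π f s q = av π f s' q := by
  unfold av cell
  rw [h]

lemma Psi_eq (σ : ℝ) (π : ρ → γ) (f : ρ → κ → ℝ) {s s' : ρ} (h : π s = π s') (q : κ) : Psi σ π f s q = Psi σ π f s' q := by
  unfold Psi
  rw [av_eq π f h]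
  unfold cell
  rw [h]

lemma av_nonneg {π : ρ → γ} {f : ρ → κ → ℝ} (hf : ∀ s q, 0 ≤ f s q) (s : ρ) (q : κ) : 0 ≤ av π f s q :=
  div_nonneg (sum_nonneg fun t _ => hf _ _) (Nat.cast_nonneg _)

lemma Psi_nonneg {σ : ℝ} {π : ρ → γ} {f : ρ → κ → ℝ} (hf : ∀ s q, 0 ≤ f s q) (s : ρ) (q : κ) : 0 ≤ Psi σ π f s q := by
  unfold Psi
  split_ifs
  · exact av_nonneg hf s q
  · exact zero_le_one

/-- the moments of the model -/
lemma Psi_mom {σ K E : ℝ} {m : ℕ} {π : ρ → γ} {f ν : ρ → κ → ℝ} (hσ : 0 < σ) (hK : 1 ≤ K) (hE0 : 0 ≤ E)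
    (hf0 : ∀ s q, 0 ≤ f s q) (hf : ∀ s q, f s q ≤ K * ν s q)
    (hE : 𝔼 r : Fin m → ρ, max 0 (𝔼 t, ∏ i, ν (r i) t - 2) ≤ E) (s : ρ) :
    𝔼 q, Psi σ π f s q ^ m ≤ K ^ m * (2 + (1 / σ) ^ m * E) := by
  unfold Psi
  split_ifs with h
  · have hcp := cell_pos π s
    have hRp : (0 : ℝ) < (Fintype.card ρ : ℝ) := by exact_mod_cast Fintype.card_pos
    have h1 := spreadF (m := m) ν (fun v => if π v = π s then 1 / (cell π s : ℝ) else 0)
      (fun v => by split_ifs; exacts [by positivity, le_rfl])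
      (by
        rw [← sum_filter, sum_const, nsmul_eq_mul]
        show (cell π s : ℝ) * (1 / cell π s) = 1
        field_simp) hσ
      (fun v => by
        split_ifs
        · exact one_div_le_one_div_of_le (by positivity) h
        · positivity) hE
    have h2 : ∀ q, av π f s q ^ m ≤ K ^ m * (∑ v, (if π v = π s then 1 / (cell π s : ℝ) else 0) * ν v q) ^ m := by
      intro q
      rw [← mul_pow]
      refine pow_le_pow_left₀ (av_nonneg hf0 s q) ?_ m
      unfold av
      rw [div_eq_mul_one_div, sum_mul, mul_sum, sum_filter]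
      refine sum_le_sum fun v _ => ?_
      split_ifs
      · have := mul_le_mul_of_nonneg_right (hf v q) (show 0 ≤ 1 / (cell π s : ℝ) by positivity)
        calc _ ≤ _ := this
          _ = _ := by ring
      · simp
    refine (expect_le_expect fun q _ => h2 q).trans ?_
    rw [← mul_expect]
    exact mul_le_mul_of_nonneg_left h1 (by positivity)
  · simp only [one_pow, Fintype.expect_const]
    have h1 : 1 ≤ K ^ m := one_le_pow₀ hK
    have h2 : 0 ≤ (1 / σ) ^ m * E := by positivity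
    nlinarith

/-- the mean value of the average over a colour class -/
lemma av_mean (π : ρ → γ) (f : ρ → κ → ℝ) (s : ρ) :
    𝔼 q, av π f s q = (∑ t ∈ univ.filter (fun t => π t = π s), 𝔼 q, f t q) / cell π s := by
  unfold av
  rw [← expect_div, expect_sum_comm]

end

/-! ### the slopes with small prime factors of large weight -/

lemma sum_sgR {w R : ℕ} (hw : 1 ≤ w) (c : ℕ) : ∑ s : psn w R c, (sg w 3 (vl s.1) - 1) ≤ R * (Real.exp (3 / w) - 1) := by
  have h1 : ∑ s : psn w R c, (sg w 3 (vl s.1) - 1) ≤ ∑ s : Fin R, (sg w 3 (vl s) - 1) := by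
    rw [Finset.sum_coe_sort (psn w R c) (fun s => sg w 3 (vl s) - 1)]
    exact sum_le_sum_of_subset_of_nonneg (subset_univ _) fun s _ _ => by
      have := sg_one_le (w := w) (c := 3) (by norm_num) (vl s)
      linarith
  refine h1.trans ?_
  rw [sum_vl (fun n => sg w 3 n - 1), sum_sub_distrib]
  have h2 := sum_sg hw (c := 3) (by norm_num) R
  have h3 : ∑ _n ∈ Icc 1 R, (1 : ℝ) = R := by simp
  rw [h3]
  linarith

/-- the mean value of the model of a class -/
lemma Psi_mean {w x R c : ℕ} {γ : Type} [DecidableEq γ] {π : psn w R c → γ} {σ δ : ℝ} (hw : 1 ≤ w) (hσ : 0 < σ)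
    (hR : 1 ≤ R) (hδ0 : 0 ≤ δ) (hδ1 : δ ≤ 1) (hne : Nonempty (psn w R c)) (hT : Nonempty (Fin (x / Wn w)))
    (hcard : Vv w * R / 2 ≤ ((psn w R c).card : ℝ))
    (hsw : ∀ s : psn w R c, 1 - δ ≤ 𝔼 t : Fin (x / Wn w), Fd w x (vl s.1) (qq w x c t) ∧
      𝔼 t : Fin (x / Wn w), Fd w x (vl s.1) (qq w x c t) ≤ (1 + δ) * sg w 3 (vl s.1))
    {e : ℝ} (he : 2 / (σ * Vv w) * (Real.exp (3 / w) - 1) ≤ e) (he1 : e ≤ 1) (s : psn w R c) :
    |𝔼 t, Psi σ π (fD w x c) s t - 1| ≤ δ + 2 * e := by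
  have he0 : 0 ≤ e := le_trans (by
    have : 0 ≤ Real.exp (3 / w) - 1 := by
      have := Real.add_one_le_exp ((3 : ℝ) / w)
      have h2 : (0 : ℝ) ≤ 3 / w := by positivity
      linarith
    have := Vv_pos w
    positivity) he
  unfold Psi
  split_ifs with h
  · rw [av_mean]
    set cl : Finset (psn w R c) := univ.filter (fun t => π t = π s) with hcl
    have hcp := cell_pos π s
    have hcell : (cell π s : ℝ) = (cl.card : ℝ) := rfl
    have hV := Vv_pos w
    have hRp : (0 : ℝ) < R := by exact_mod_cast hR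
    have hcc : (Fintype.card (psn w R c) : ℝ) = ((psn w R c).card : ℝ) := by rw [Fintype.card_coe]
    rw [hcc] at h
    have hce : σ * (Vv w * R / 2) ≤ cell π s := (mul_le_mul_of_nonneg_left hcard hσ.le).trans h
    -- the sum of the excesses
    have hexc : ∑ t ∈ cl, (sg w 3 (vl t.1) - 1) ≤ e * cell π s := by
      have h1 : ∑ t ∈ cl, (sg w 3 (vl t.1) - 1) ≤ ∑ t : psn w R c, (sg w 3 (vl t.1) - 1) :=
        sum_le_sum_of_subset_of_nonneg (subset_univ _) fun t _ _ => by
          have := sg_one_le (w := w) (c := 3) (by norm_num) (vl t.1)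
          linarith
      have h2 := h1.trans (sum_sgR hw c)
      refine h2.trans ?_
      have hx0 : 0 ≤ Real.exp (3 / w) - 1 := by
        have := Real.add_one_le_exp ((3 : ℝ) / w)
        have h2 : (0 : ℝ) ≤ 3 / w := by positivity
        linarith
      calc R * (Real.exp (3 / w) - 1) = (2 / (σ * Vv w) * (Real.exp (3 / w) - 1)) * (σ * (Vv w * R / 2)) := by
            field_simp
        _ ≤ e * cell π s := mul_le_mul he hce (by positivity) he0
    rw [abs_le, le_sub_iff_add_le, sub_le_iff_le_add, div_le_iff₀ hcp, le_div_iff₀ hcp]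
    have hup : ∀ t : psn w R c, 𝔼 q, fD w x c t q ≤ (1 + δ) * sg w 3 (vl t.1) := fun t =>
      (expect_le_expect fun q _ => Fg_le_Fd _ _ _ _).trans (hsw t).2
    have hlo : ∀ t : psn w R c, (1 - δ) - (1 - δ) * (sg w 3 (vl t.1) - 1) ≤ 𝔼 q, fD w x c t q := by
      intro t
      have hs1 := sg_one_le (w := w) (c := 3) (by norm_num) (vl t.1)
      by_cases hg : sg w 3 (vl t.1) ≤ 2
      · have e1 : 𝔼 q, fD w x c t q = 𝔼 q : Fin (x / Wn w), Fd w x (vl t.1) (qq w x c q) :=
          expect_congr rfl fun q _ => by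
            unfold fD Fg
            rw [if_pos hg]
        rw [e1]
        have := (hsw t).1
        nlinarith
      · have e1 : 0 ≤ 𝔼 q, fD w x c t q := expect_nonneg fun q _ => Fg_nonneg _ _ _ _
        push Not at hg
        nlinarith
    constructor
    · calc (-(δ + 2 * e) + 1) * cell π s ≤ ∑ t ∈ cl, ((1 - δ) - (1 - δ) * (sg w 3 (vl t.1) - 1)) := by
            rw [sum_sub_distrib, ← mul_sum, sum_const, nsmul_eq_mul, ← hcell]
            have := mul_le_mul_of_nonneg_left hexc (show 0 ≤ 1 - δ by linarith)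
            have h3 : 0 ≤ e * cell π s := by positivity
            nlinarith
        _ ≤ _ := sum_le_sum fun t _ => hlo t
    · calc ∑ t ∈ cl, 𝔼 q, fD w x c t q ≤ ∑ t ∈ cl, (1 + δ) * sg w 3 (vl t.1) := sum_le_sum fun t _ => hup t
        _ = (1 + δ) * (cell π s + ∑ t ∈ cl, (sg w 3 (vl t.1) - 1)) := by
            rw [sum_sub_distrib, sum_const, nsmul_eq_mul, mul_one, ← hcell, ← mul_sum]
            ring
        _ ≤ (1 + δ) * (cell π s + e * cell π s) := mul_le_mul_of_nonneg_left (by linarith) (by linarith)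
        _ ≤ (δ + 2 * e + 1) * cell π s := by
            have h3 : 0 ≤ e * cell π s := by positivity
            nlinarith
  · simp only [Fintype.expect_const, sub_self, abs_zero]
    positivity

end Pool.Agent.NH16.CD
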