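import Pool.Agent.NH16.CD.E2

set_option autoImplicit false
set_option linter.unusedSectionVars false
set_option linter.unusedVariables false

/-!
# The counting theorem for one class
-/

namespace Pool.Agent.NH16.CD

open Finset Filter Topology
open scoped BigOperators
open Pool.Agent.NH16.DL Pool.Agent.NH16.SM Pool.Agent.NH16.BT

/-- the output for one class -/
structure Cls (Lm C : ℕ) (δ Kc : ℝ) (w x R c T : ℕ) (σ : ℝ) (π : psn w R c → (Fin T → Bool)) : Prop where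
  mean : ∀ s, |𝔼 t, min (Psi σ π (fD w x c) s t) Kc - 1| ≤ δ
  mom : ∀ n ≤ Lm, ∀ s, 𝔼 t, min (Psi σ π (fD w x c) s t) Kc ^ (n + 1) ≤ 3 * K0c C ^ (n + 1)
  cnt : ∀ n ≤ Lm, 𝔼 r : Fin (n + 1) → psn w R c,
    |𝔼 t, ∏ i, fD w x c (r i) t - 𝔼 t, ∏ i, min (Psi σ π (fD w x c) (r i) t) Kc| ≤ δ

lemma exp3_nonneg (w : ℕ) : 0 ≤ Real.exp (3 / w) - 1 := by
  have := Real.add_one_le_exp ((3 : ℝ) / w)
  have h2 : (0 : ℝ) ≤ 3 / w := by positivity
  linarith

theorem coreD (hRG : S_RG) (hPSg : S_PSg) (hPD : S_PD) (hXV : S_XV) (hCN : S_CN) (hSWD : S_SWD)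
    {R C : ℕ} (hC : 1 ≤ C)
    (hLD : ∀ b : ℕ, C ≤ b → ∀ η : ℝ, 0 < η → ∀ w : ℕ, 1 ≤ w → ∀ᶠ x : ℕ in atTop, LD (2 * R + 6) C b w x η) :
    ∀ δ : ℝ, 0 < δ → ∃ (Kc σ : ℝ) (T : ℕ), 1 ≤ Kc ∧ ∃ w0 : ℕ, ∀ w : ℕ, w0 ≤ w → ∃ b0 : ℝ, 0 < b0 ∧
      ∀ A : ℝ, 0 ≤ A → ∀ᶠ x : ℕ in atTop, ∀ r : ℕ, b0 * Real.log x ≤ r → (r : ℝ) ≤ Real.log x ^ A →
        ∀ c : ℕ, c < Wn w → ∃ π : psn w r c → (Fin T → Bool), Cls R C δ Kc w x r c T σ π := by
  intro δ hδ
  set m : ℕ := 2 * R + 2 with hm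
  set M : ℕ := 2 * R + 6 with hM
  have hK02 : 2 ≤ K0c C := two_le_K C (C + 3)
  set Mj : ℝ := 3 * K0c C ^ (m + 2) with hMj
  have hMj0 : 0 < Mj := by positivity
  set B : ℝ := ∑ n ∈ range (R + 1), BX n + BX 2 with hB
  have hB2 : 1 ≤ BX 2 := one_le_BX 2
  have hBn : ∀ n ≤ R, BX n ≤ B := by
    intro n hn
    have : BX n ≤ ∑ n ∈ range (R + 1), BX n :=
      single_le_sum (f := BX) (fun i _ => by linarith [one_le_BX i]) (mem_range.2 (by omega))
    linarith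
  have hBB2 : BX 2 ≤ B := by
    have : 0 ≤ ∑ n ∈ range (R + 1), BX n := sum_nonneg fun i _ => by linarith [one_le_BX i]
    linarith
  have hB0 : 0 < B := by linarith
  set P : ℝ := (R + 1 : ℝ) with hP
  have hP1 : 1 ≤ P := by rw [hP]; have := Nat.cast_nonneg (α := ℝ) R; linarith
  -- choice of b
  have t1 : Tendsto (fun b : ℕ => (8 * P ^ 2 * B) ^ 2 * B * 4 * 4 * 1 * ((2 / ke C b) ^ (4 * R + 4) * (1 / 2 : ℝ) ^ b))
      atTop (𝓝 0) := by
    have h := (Kpow C (4 * R + 4) hC).const_mul ((8 * P ^ 2 * B) ^ 2 * B * 4 * 4 * 1)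
    rwa [mul_zero] at h
  have t2 : Tendsto (fun b : ℕ => (2 / ke C b)) atTop atTop :=
    tendsto_atTop_mono (fun b => K_ge_b C b hC) tendsto_natCast_atTop_atTop
  obtain ⟨b, hb1, hb2, hb3, hb4, hb5⟩ := ((le_of_ev t1 (t := δ ^ 4 / 9) (by positivity)).and
    ((t2.eventually_ge_atTop (6 * P ^ 2 * B * Mj / δ ^ 2)).and ((t2.eventually_ge_atTop (2 * Mj / δ)).and
    ((eventually_ge_atTop C).and (eventually_ge_atTop 3))))).exists
  set K : ℝ := 2 / ke C b with hK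
  have hK2 : 2 ≤ K := two_le_K C b
  set θ : ℝ := 4 * (1 / 2 : ℝ) ^ b with hθ
  have hθ0 : 0 < θ := by positivity
  have hθ1 : θ ≤ 1 / 2 := by
    have : (1 / 2 : ℝ) ^ b ≤ (1 / 2 : ℝ) ^ 3 := pow_le_pow_of_le_one (by norm_num) (by norm_num) hb5
    rw [hθ]
    norm_num at this ⊢
    linarith
  set εc : ℝ := δ ^ 2 / (6 * (P ^ 2 * K ^ (2 * R) * B)) with hεc
  have hεc0 : 0 < εc := by positivity
  -- regularity
  set Ca : ℝ := 2 * K0c C ^ 2 with hCa
  have hCa0 : 0 < Ca := by positivity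
  set ηc : ℝ := εc / 32 with hηc
  have hηc0 : 0 < ηc := by positivity
  set T : ℕ := ⌈(Ca + 1) / ηc⌉₊ with hT
  have hTle : Ca + 1 ≤ ηc * T := by
    have h1 := Nat.le_ceil ((Ca + 1) / ηc)
    rw [div_le_iff₀ hηc0] at h1
    linarith
  have hT1 : 1 ≤ T := Nat.one_le_ceil_iff.2 (by positivity)
  have h2T : (1 : ℝ) ≤ 2 ^ T := one_le_pow₀ (by norm_num)
  have h2Tp : (0 : ℝ) < 2 ^ T := by positivity
  set y : ℝ := min 1 (εc / (16 * (Ca + 1))) with hy
  have hy0 : 0 < y := lt_min one_pos (by positivity)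
  have hy1 : y ≤ 1 := min_le_left _ _
  have hy2 : (Ca + 1) * (16 * y) ≤ εc := by
    have : y ≤ εc / (16 * (Ca + 1)) := min_le_right _ _
    rw [le_div_iff₀ (by positivity)] at this
    linarith
  set σ : ℝ := y / 2 ^ T with hσ
  have hσ0 : 0 < σ := by positivity
  have hσy : 2 ^ T * σ = y := by rw [hσ]; field_simp
  set t0 : ℝ := min (1 / (2 * 2 ^ T)) (εc / 64) with ht0
  have ht0p : 0 < t0 := lt_min (by positivity) (by positivity)
  have ht01 : 2 ^ T * t0 ≤ 1 / 2 := by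
    have : t0 ≤ 1 / (2 * 2 ^ T) := min_le_left _ _
    rw [le_div_iff₀ (by positivity)] at this
    linarith
  have ht02 : t0 ≤ εc / 64 := min_le_right _ _
  set Bβ : ℝ := (1 + 1 / σ) ^ M with hBβ
  have hβi : 0 < 1 / σ := by positivity
  have hBβ1 : 1 ≤ Bβ := one_le_pow₀ (by linarith)
  have hβm : ∀ i ≤ M, (1 / σ) ^ i ≤ Bβ := fun i hi =>
    (pow_le_pow_left₀ hβi.le (by linarith) i).trans (pow_le_pow_right₀ (by linarith) hi)
  set SB : ℝ := ∑ i ∈ range (M + 1), BX i with hSB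
  have hSBi : ∀ i ≤ M, BX i ≤ SB := by
    intro i hi
    exact single_le_sum (f := fun i => BX i) (fun i _ => by
        have := one_le_BX i
        show (0 : ℝ) ≤ BX i
        linarith) (mem_range.2 (by omega))
  have hSB1 : 1 ≤ SB := (one_le_BX 0).trans (hSBi 0 (Nat.zero_le _))
  have hMp : (0 : ℝ) < M := by rw [hM]; positivity
  set lam0 : ℝ := min (min 1 (t0 / (4 * K0c C ^ 2)))
    (min (θ / (2 * ((M : ℝ) ^ 2 * (SB + 1)))) (1 / (2 * ((M : ℝ) ^ 2 * SB * Bβ)))) with hlam0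
  have hlam0p : 0 < lam0 := lt_min (lt_min one_pos (by positivity)) (lt_min (by positivity) (by positivity))
  have hl1 : (M : ℝ) ^ 2 * lam0 * (SB + 1) ≤ θ / 2 := by
    have : lam0 ≤ θ / (2 * ((M : ℝ) ^ 2 * (SB + 1))) := (min_le_right _ _).trans (min_le_left _ _)
    rw [le_div_iff₀ (by positivity)] at this
    linarith
  have hl2 : (M : ℝ) ^ 2 * lam0 * SB * Bβ ≤ 1 / 2 := by
    have : lam0 ≤ 1 / (2 * ((M : ℝ) ^ 2 * SB * Bβ)) := (min_le_right _ _).trans (min_le_right _ _)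
    rw [le_div_iff₀ (by positivity)] at this
    linarith
  have hlam1 : lam0 ≤ 1 := (min_le_left _ _).trans (min_le_left _ _)
  have hlam2 : 4 * K0c C ^ 2 * lam0 ≤ t0 := by
    have : lam0 ≤ t0 / (4 * K0c C ^ 2) := (min_le_left _ _).trans (min_le_right _ _)
    rw [le_div_iff₀ (by positivity)] at this
    linarith
  set X0 : ℝ := min (θ / 4) (1 / (4 * Bβ)) with hX0
  have hX0p : 0 < X0 := lt_min (by positivity) (by positivity)
  have hX0θ : X0 ≤ θ / 4 := min_le_left _ _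
  have hX0β : X0 * Bβ ≤ 1 / 4 := by
    have : X0 ≤ 1 / (4 * Bβ) := min_le_right _ _
    rw [le_div_iff₀ (by positivity)] at this
    linarith
  set e : ℝ := min (δ / 8) 1 with he
  have hep : 0 < e := lt_min (by positivity) one_pos
  have he1 : e ≤ 1 := min_le_right _ _
  have heδ : e ≤ δ / 8 := min_le_left _ _
  -- choice of w
  have e3 : ∀ᶠ w : ℕ in atTop, ∀ i ∈ range (M + 1), (2 * (Vv w)⁻¹) ^ i * XA i w ≤ X0 := by
    refine (eventually_all_finset _).2 fun i _ => le_of_ev ?_ hX0p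
    have h := ((hXV i).1).const_mul ((2 : ℝ) ^ i)
    rw [mul_zero] at h
    refine h.congr fun w => ?_
    rw [mul_pow]
    ring
  have e4 : ∀ᶠ w : ℕ in atTop, (M : ℝ) ^ 2 / w ≤ θ / 4 :=
    le_of_ev (tendsto_const_div_atTop_nhds_zero_nat _) (by positivity)
  have e5 : ∀ᶠ w : ℕ in atTop, (2 * K0c C ^ 2) ^ 2 * ((2 * (Vv w)⁻¹) ^ 2 * (10 * (Real.exp (101 ^ 6 / w) - 1))) ≤ t0 ^ 2 := by
    refine le_of_ev ?_ (by positivity)
    have h := (vpow_exp 2 (c := 101 ^ 6) (by norm_num)).const_mul ((2 * K0c C ^ 2) ^ 2 * 40)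
    rw [mul_zero] at h
    refine h.congr fun w => ?_
    rw [mul_pow]
    ring
  have e6 : ∀ᶠ w : ℕ in atTop, 2 / (σ * Vv w) * (Real.exp (3 / w) - 1) ≤ e := by
    refine le_of_ev ?_ hep
    have h := (vpow_exp 1 (c := 3) (by norm_num)).const_mul (2 / σ)
    rw [mul_zero] at h
    refine h.congr fun w => ?_
    have := (Vv_pos w).ne'
    rw [pow_one]
    field_simp
  obtain ⟨w0, hw0⟩ := eventually_atTop.1 (e3.and (e4.and (e5.and (e6.and (eventually_ge_atTop 1)))))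
  refine ⟨K, σ, T, by linarith, w0, fun w hw => ?_⟩
  obtain ⟨g3, g4, g5, g6, g7⟩ := hw0 w hw
  have hV := Vv_pos w
  set b0 : ℝ := 8 / (lam0 * Vv w) with hb0
  have hb0p : 0 < b0 := by positivity
  refine ⟨b0, hb0p, fun A hA => ?_⟩
  set η : ℝ := min (1 / 2) (θ / 4) with hη
  have hηp : 0 < η := lt_min (by norm_num) (by positivity)
  have hη1 : η ≤ 1 / 2 := min_le_left _ _
  have hη2 : η ≤ θ / 4 := min_le_right _ _
  obtain ⟨R1, hR1⟩ := eventually_atTop.1 (hPD.1 w)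
  have hlogR : ∀ᶠ x : ℕ in atTop, (max R1 1 : ℝ) ≤ b0 * Real.log x :=
    ((Real.tendsto_log_atTop.comp tendsto_natCast_atTop_atTop).const_mul_atTop hb0p).eventually_ge_atTop _
  filter_upwards [hLD (C + 3) (by omega) (1 / 2) (by norm_num) w g7, hLD b hb4 η hηp w g7,
    hSWD w A e hA hep, hlogR]
    with x hV0 hV1 hsw hlR r hr1 hr2 c hc
  have hrR1 : R1 ≤ r := by
    have h1 : (R1 : ℝ) ≤ r := (le_max_left _ _).trans (hlR.trans hr1)
    exact_mod_cast h1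
  have hr1' : 1 ≤ r := by
    have h1 : (1 : ℝ) ≤ r := (le_max_right _ _).trans (hlR.trans hr1)
    exact_mod_cast h1
  have hrp : (0 : ℝ) < r := by exact_mod_cast hr1'
  have hcard := hR1 r hrR1 c
  have hcp : (0 : ℝ) < ((psn w r c).card : ℝ) := lt_of_lt_of_le (by positivity) hcard
  have hne : Nonempty (psn w r c) := by
    obtain ⟨s, hs⟩ := card_pos.1 (by exact_mod_cast hcp : 0 < (psn w r c).card)
    exact ⟨⟨s, hs⟩⟩
  have hTn := Wn_le_nonempty hV0.wn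
  have hcc : (Fintype.card (psn w r c) : ℝ) = ((psn w r c).card : ℝ) := by rw [Fintype.card_coe]
  have hlam : 8 * Real.log x ≤ lam0 * (Vv w * r) := by
    rw [hb0, div_mul_eq_mul_div, div_le_iff₀ (by positivity)] at hr1
    linarith
  have hlogx : 0 ≤ Real.log x := Real.log_natCast_nonneg x
  have hth0 := theta0 C
  -- the partition
  obtain ⟨hc1, hc2⟩ := hV0.cor (R := r) (c := c) (by omega) (by norm_num) hth0
  obtain ⟨π, hcut⟩ := hRG (psn w r c) (Fin (x / Wn w)) (fD w x c)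
    (fun s s' => 2 * K0c C ^ 2 * (sg w 9 (disc ![vl s.1, vl s'.1]) - 1)) Ca t0 (4 * K0c C ^ 2 * lam0) ηc σ T hCa0.le
    ht0p.le hηc0 hσ0 hT1 (by positivity) (fun s q => Fg_nonneg _ _ _ _)
    (fun s s' => mul_nonneg (by positivity) (by
      have := sg_one_le (w := w) (c := 9) (by norm_num) (disc ![vl s.1, vl s'.1])
      linarith)) hc1
    (by
      simp only [mul_pow]
      have h1 := hPD.2.2.2 w r c g7 hr1' hcard
      simp only [← mul_expect]
      refine le_trans (mul_le_mul_of_nonneg_left h1 (by positivity)) (le_trans (le_of_eq ?_) g5)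
      ring)
    (fun s => (hc2 s).trans (by
      rw [hcc]
      have h1 : lam0 * (Vv w * r / 2) ≤ lam0 * ((psn w r c).card : ℝ) := mul_le_mul_of_nonneg_left hcard hlam0p.le
      have h2 : 0 ≤ K0c C ^ 2 := by positivity
      have h3 : 4 * Real.log x ≤ lam0 * ((psn w r c).card : ℝ) := by linarith
      have h4 := mul_le_mul_of_nonneg_left h3 (show 0 ≤ 4 * K0c C ^ 2 by positivity)
      have e9 : (2 / ke C (C + 3)) = K0c C := rfl
      rw [e9]
      linarith))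
    (by
      have h1 : Real.sqrt (2 ^ T) ≤ 2 ^ T := by
        rw [Real.sqrt_le_left h2Tp.le]
        exact le_self_pow₀ h2T two_ne_zero
      have h2 : Real.sqrt (2 ^ T) * t0 ≤ 2 ^ T * t0 := mul_le_mul_of_nonneg_right h1 ht0p.le
      have h3 : 2 ^ T * (4 * K0c C ^ 2 * lam0) ≤ 2 ^ T * t0 := mul_le_mul_of_nonneg_left hlam2 h2Tp.le
      linarith) hTle
  refine ⟨π, ?_⟩
  have hcutP : ∀ b : psn w r c → ℝ, (∀ s, |b s| ≤ 1) →
      𝔼 q, (𝔼 s, b s * (fD w x c s q - Psi σ π (fD w x c) s q)) ^ 2 ≤ εc := by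
    intro b' hb'
    refine (hcut b' hb').trans ?_
    rw [hσy]
    have hyy : y ^ 2 ≤ y := pow_le_of_le_one hy0.le hy1 two_ne_zero
    have h1 : (Ca + 1) * (16 * y ^ 2) ≤ εc := le_trans (mul_le_mul_of_nonneg_left (by linarith) (by positivity)) hy2
    have h2 : 8 * ηc = εc / 4 := by rw [hηc]; ring
    have h3 : 4 * K0c C ^ 2 * lam0 ≤ εc / 64 := hlam2.trans ht02
    have h4 : (Ca + 1) * (16 * y ^ 2) = 4 * (4 * (Ca * y ^ 2) + 4 * y ^ 2) := by ring
    rw [h4] at h1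
    linarith
  -- moments
  obtain ⟨-, -, p3⟩ := hV0.psr hPSg hPD g7 (by linarith) (by norm_num) (by norm_num) hX0p.le (by linarith)
    (fun i hi => g3 i (mem_range.2 (by omega))) hr1' hcard hlam hlam1 hne
  have hmomq : ∀ (s : psn w r c) (i : ℕ), 1 ≤ i → i ≤ M → 𝔼 t, Psi σ π (fD w x c) s t ^ i ≤ 3 * K0c C ^ i := by
    intro s i hi1 hiM
    have hE0 : 0 ≤ 2 * X0 + (i : ℝ) ^ 2 * lam0 * BX (i - 1) := by
      have := one_le_BX (i - 1)
      positivity
    refine (Psi_mom (m := i) (E := 2 * X0 + (i : ℝ) ^ 2 * lam0 * BX (i - 1)) hσ0 (by linarith : (1 : ℝ) ≤ K0c C) hE0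
      (fun s q => Fg_nonneg _ _ _ _) (fun s q => hV0.fDle s q) (p3 i hiM hi1 hth0) s).trans ?_
    rw [mul_comm]
    refine mul_le_mul_of_nonneg_right ?_ (by positivity)
    have b2 : (i : ℝ) ^ 2 * lam0 * BX (i - 1) ≤ (M : ℝ) ^ 2 * lam0 * SB := by
      have c1' : (i : ℝ) ^ 2 ≤ (M : ℝ) ^ 2 := pow_le_pow_left₀ (Nat.cast_nonneg _) (by exact_mod_cast hiM) 2
      have c2' := hSBi (i - 1) (by omega)
      have c3' := one_le_BX (i - 1)
      exact mul_le_mul (mul_le_mul_of_nonneg_right c1' hlam0p.le) c2' (by linarith) (by positivity)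
    have a2 : (1 / σ) ^ i * (2 * X0 + (i : ℝ) ^ 2 * lam0 * BX (i - 1)) ≤ Bβ * (2 * X0 + (M : ℝ) ^ 2 * lam0 * SB) :=
      mul_le_mul (hβm i hiM) (by linarith) hE0 (by linarith)
    have a3 : Bβ * (2 * X0 + (M : ℝ) ^ 2 * lam0 * SB) = 2 * (X0 * Bβ) + (M : ℝ) ^ 2 * lam0 * SB * Bβ := by ring
    linarith
  -- pseudorandomness
  obtain ⟨q1, q2, -⟩ := hV1.psr hPSg hPD g7 (by linarith) hηp.le (by linarith) hX0p.le (by linarith)
    (fun i hi => g3 i (mem_range.2 (by omega))) hr1' hcard hlam hlam1 hne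
  have hPsi0 : ∀ (s : psn w r c) t, 0 ≤ Psi σ π (fD w x c) s t := fun s t =>
    Psi_nonneg (fun s q => Fg_nonneg _ _ _ _) s t
  refine ⟨fun s => ?_, fun n' hn' s => ?_, fun n' hn' => ?_⟩
  · -- the mean value
    have hx : Mj / K ^ (m + 1) ≤ δ / 2 := by
      have h1 : K ≤ K ^ (m + 1) := le_self_pow₀ (by linarith) (by omega)
      have h2 : 2 * Mj / δ ≤ K ^ (m + 1) := hb3.trans h1
      rw [div_le_iff₀ hδ] at h2
      rw [div_le_div_iff₀ (by positivity) (by positivity)]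
      linarith
    have b1 := mean_min (x := fun t : Fin (x / Wn w) => Psi σ π (fD w x c) s t)
        (fun t => hPsi0 s t) (K := K) (by linarith) (j := m) (Mj := Mj) (hmomq s (m + 2) (by omega) (by omega))
    have b2 := abs_le.1 (Psi_mean (π := π) (σ := σ) (δ := e) g7 hσ0 hr1' hep.le he1 hne hTn hcard (fun s' => by
      have hs' := s'.2
      unfold psn at hs'
      rw [mem_filter] at hs'
      have hvr : ((vl s'.1 : ℕ) : ℝ) ≤ Real.log x ^ A := le_trans (by exact_mod_cast vl_le s'.1) hr2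
      exact hsw (vl s'.1) c (vl_pos _) hvr hc hs'.2) g6 he1 s)
    rw [abs_le]
    constructor <;> linarith [b1.1, b1.2, b2.1, b2.2]
  · refine (expect_le_expect fun t _ => ?_).trans (hmomq s (n' + 1) (by omega) (by omega))
    exact pow_le_pow_left₀ (le_min (hPsi0 s t) (by linarith)) (min_le_left _ _) _
  · have hmom : 𝔼 s : psn w r c, 𝔼 t, Psi σ π (fD w x c) s t ^ (m + 2) ≤ Mj :=
      expect_le univ_nonempty fun s _ => hmomq s (m + 2) (by omega) (by omega)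
    have hMBn : MB (nuD (R := r) w (yx C b x) x c) (fun _ _ => 1) B n' :=
      fun a => (q1 n' (by omega) a).trans (hBn n' hn')
    have hMB2 : MB (nuD (R := r) w (yx C b x) x c) (fun _ _ => 1) B 2 :=
      fun a => (q1 2 (by omega) a).trans hBB2
    have htau : X0 + 2 * (4 * (1 / 2 : ℝ) ^ b) + η + ((2 * n' + 2 : ℕ) : ℝ) ^ 2 / w +
        ((2 * n' + 2 : ℕ) : ℝ) ^ 2 * lam0 * (BX (2 * n' + 2 - 1) + 1) ≤ 4 * (θ * 1) := by
      have hcast : (((2 * n' + 2 : ℕ) : ℝ)) ≤ (M : ℝ) := by exact_mod_cast (by omega : 2 * n' + 2 ≤ M)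
      have a3 : (((2 * n' + 2 : ℕ) : ℝ)) ^ 2 ≤ (M : ℝ) ^ 2 := pow_le_pow_left₀ (Nat.cast_nonneg _) hcast 2
      have a4 : (((2 * n' + 2 : ℕ) : ℝ)) ^ 2 / w ≤ θ / 4 := (div_le_div_of_nonneg_right a3 (Nat.cast_nonneg _)).trans g4
      have a5 : (((2 * n' + 2 : ℕ) : ℝ)) ^ 2 * lam0 * (BX (2 * n' + 2 - 1) + 1) ≤ θ / 2 := by
        refine le_trans ?_ hl1
        have h1 := hSBi (2 * n' + 2 - 1) (by omega)
        have h2 := one_le_BX (2 * n' + 2 - 1)
        exact mul_le_mul (mul_le_mul_of_nonneg_right a3 hlam0p.le) (by linarith) (by linarith) (by positivity)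
      rw [← hθ]
      linarith
    have hPR : PR (nuD (R := r) w (yx C b x) x c) (fun _ _ => 1) (4 * (θ * 1)) (n' + n' + 1 + 1) := by
      have hmn : n' + n' + 1 + 1 = 2 * n' + 2 := by ring
      rw [hmn]
      exact fun a => (q2 (2 * n' + 2) (by omega) (by omega) a).trans htau
    have hcount := hCN (psn w r c) (Fin (x / Wn w)) n' m K B (4 * (θ * 1)) εc Mj (fD w x c)
      (nuD w (yx C b x) x c) (Psi σ π (fD w x c)) (by linarith) (fun s z => Fg_nonneg _ _ _ _)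
      (fun s z => hV1.fDle s z) (fun s z => gy_nonneg _ _ _) hPsi0 hmom hB0.le (by positivity) hMBn hMB2 hPR hcutP
    have hnum := num_est (R := R) hδ hP1 hK2 hB0 hMj0 (le_refl (1 : ℝ)) hθ hb1 hb2 hεc
    rw [← hm] at hnum
    refine le_trans hcount (le_trans ?_ hnum)
    have hn2 : (n' : ℝ) + 1 ≤ P := by
      rw [hP]
      have : (n' : ℝ) ≤ R := by exact_mod_cast hn'
      linarith
    exact mul_le_mul hn2 (mul_le_mul_of_nonneg_right (pow_le_pow_right₀ (by linarith) hn') (Real.sqrt_nonneg _))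
      (by positivity) (by linarith)

end Pool.Agent.NH16.CD
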