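import Pool.Agent.NH16.CD.E3
import Pool.Agent.NH16.BT.E9

set_option autoImplicit false
set_option linter.unusedSectionVars false
set_option linter.unusedVariables false

/-!
# The types of the slopes and the factor
-/

namespace Pool.Agent.NH16.CD

open Finset Filter Topology
open scoped BigOperators
open Pool.Agent.NH16.DL Pool.Agent.NH16.SM Pool.Agent.NH16.BT

lemma mem_admd {w r c : ℕ} {h : Fin r → ℕ} : c ∈ admd w h ↔ c < Wn w ∧ ∀ i, ∀ p ∈ PP w, ¬ p ∣ c * h i + 1 := by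
  unfold admd
  rw [mem_filter, mem_range]

lemma admd_zero (w : ℕ) {r : ℕ} (h : Fin r → ℕ) : 0 ∈ admd w h := by
  rw [mem_admd]
  refine ⟨Wn_pos w, fun i p hp hd => ?_⟩
  rw [zero_mul, zero_add] at hd
  exact (mem_PP.1 hp).1.one_lt.ne' (Nat.dvd_one.1 hd)

lemma admd_card_pos (w : ℕ) {r : ℕ} (h : Fin r → ℕ) : (0 : ℝ) < (admd w h).card := by
  exact_mod_cast card_pos.2 ⟨0, admd_zero w h⟩

lemma admd_congr {w r : ℕ} {h h' : Fin r → ℕ} (he : ∀ i, h i % Wn w = h' i % Wn w) : admd w h = admd w h' := by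
  unfold admd
  refine filter_congr fun c _ => forall_congr' fun i => forall₂_congr fun p hp => ?_
  rw [not_iff_not]
  have hd : p ∣ Wn w := (dvd_Wn (mem_PP.1 hp).1).2 (mem_PP.1 hp).2
  have h1 : h i ≡ h' i [MOD p] := (show h i ≡ h' i [MOD Wn w] from he i).of_dvd hd
  exact ((h1.mul_left c).add_right 1).dvd_iff dvd_rfl

lemma admd_const (w h r : ℕ) : admd w (fun _ : Fin (r + 1) => h) = admd w (fun _ : Fin 1 => h) := by
  unfold admd
  refine filter_congr fun a _ => ?_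
  constructor
  · intro h1 _
    exact h1 0
  · intro h1 _
    exact h1 0

lemma mem_psn {w R c : ℕ} {s : Fin R} : s ∈ psn w R c ↔ ∀ p ∈ PP w, ¬ p ∣ c * vl s + 1 := by
  unfold psn
  rw [mem_filter]
  exact ⟨fun h => h.2, fun h => ⟨mem_univ _, h⟩⟩

lemma exists_pos {w R r c : ℕ} (hr : r ∈ Icc 1 R) (hc : ∀ p ∈ PP w, ¬ p ∣ c * r + 1) : ∃ s : psn w R c, vl s.1 = r := by
  rw [mem_Icc] at hr
  have e : vl (⟨r - 1, by omega⟩ : Fin R) = r := by
    unfold vl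
    show r - 1 + 1 = r
    omega
  exact ⟨⟨⟨r - 1, by omega⟩, mem_psn.2 (by rw [e]; exact hc)⟩, e⟩

/-- the possible types -/
abbrev Ty (w T : ℕ) : Type := Fin (Wn w) × (Fin (Wn w) → (Fin T → Bool))

section
variable {w x R T K : ℕ} {σ Kc : ℝ}

/-- the type of a slope -/
noncomputable def tyd (π : ∀ c : ℕ, psn w R c → (Fin T → Bool)) (r : ℕ) : Ty w T :=
  (⟨r % Wn w, Nat.mod_lt _ (Wn_pos w)⟩,
    fun c => open Classical in if h : ∃ s : psn w R c, vl s.1 = r then π c h.choose else fun _ => false)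

lemma tyd_spec (π : ∀ c : ℕ, psn w R c → (Fin T → Bool)) {c : ℕ} (hc : c < Wn w) (s : psn w R c) :
    (tyd π (vl s.1)).2 ⟨c, hc⟩ = π c s := by
  have h : ∃ s' : psn w R c, vl s'.1 = vl s.1 := ⟨s, rfl⟩
  have e : h.choose = s := Subtype.ext (vl_inj h.choose_spec)
  unfold tyd
  show (if h : ∃ s' : psn w R c, vl s'.1 = vl s.1 then π c h.choose else fun _ => false) = _
  rw [dif_pos h, e]

/-- the number of the type -/
noncomputable def tyK (π : ∀ c : ℕ, psn w R c → (Fin T → Bool)) (r : ℕ) : Fin (Fintype.card (Ty w T)) :=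
  Fintype.equivFin (Ty w T) (tyd π r)

lemma tyK_inj {π : ∀ c : ℕ, psn w R c → (Fin T → Bool)} {r r' : ℕ} (h : tyK π r = tyK π r') : tyd π r = tyd π r' :=
  (Fintype.equivFin (Ty w T)).injective h

lemma tyK_mod {π : ∀ c : ℕ, psn w R c → (Fin T → Bool)} {r r' : ℕ} (h : tyK π r = tyK π r') : r % Wn w = r' % Wn w := by
  have h1 := congrArg (fun z : Ty w T => z.1.val) (tyK_inj h)
  exact h1

/-- the function attached to a type -/
noncomputable def Xd (σ Kc : ℝ) (x : ℕ) (π : ∀ c : ℕ, psn w R c → (Fin T → Bool)) (τ : Fin (Fintype.card (Ty w T))) (c : ℕ)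
    (t : Fin (x / Wn w)) : ℝ :=
  open Classical in if h : ∃ s : psn w R c, tyK π (vl s.1) = τ then min (Psi σ (π c) (fD w x c) h.choose t) Kc else 0

lemma Xd_spec (π : ∀ c : ℕ, psn w R c → (Fin T → Bool)) {c : ℕ} (hc : c < Wn w) (s : psn w R c) (t : Fin (x / Wn w)) :
    Xd σ Kc x π (tyK π (vl s.1)) c t = min (Psi σ (π c) (fD w x c) s t) Kc := by
  have h : ∃ s' : psn w R c, tyK π (vl s'.1) = tyK π (vl s.1) := ⟨s, rfl⟩
  unfold Xd
  rw [dif_pos h]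
  have h1 := tyK_inj h.choose_spec
  have h2 : π c h.choose = π c s := by
    rw [← tyd_spec π hc h.choose, ← tyd_spec π hc s, h1]
  have : Nonempty (psn w R c) := ⟨s⟩
  have : Nonempty (Fin (x / Wn w)) := ⟨t⟩
  rw [Psi_eq σ (π c) (fD w x c) h2]

lemma Xd_nonneg (hKc : 0 ≤ Kc) (π : ∀ c : ℕ, psn w R c → (Fin T → Bool)) (τ : Fin (Fintype.card (Ty w T))) (c : ℕ)
    (t : Fin (x / Wn w)) : 0 ≤ Xd σ Kc x π τ c t := by
  unfold Xd
  split_ifs with h
  · refine le_min ?_ hKc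
    have : Nonempty (psn w R c) := ⟨h.choose⟩
    have : Nonempty (Fin (x / Wn w)) := ⟨t⟩
    exact Psi_nonneg (fun s q => Fg_nonneg _ _ _ _) _ _
  · exact le_rfl

lemma Xd_le (hKc : 0 ≤ Kc) (π : ∀ c : ℕ, psn w R c → (Fin T → Bool)) (τ : Fin (Fintype.card (Ty w T))) (c : ℕ)
    (t : Fin (x / Wn w)) : Xd σ Kc x π τ c t ≤ Kc := by
  unfold Xd
  split_ifs with h
  · exact min_le_right _ _
  · exact hKc

/-- the factor -/
noncomputable def facd (w : ℕ) {K T' : ℕ} (τ : ℕ → Fin K) (X : Fin K → ℕ → Fin T' → ℝ) {r : ℕ} (h : Fin r → ℕ) : ℝ :=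
  (∑ c ∈ admd w h, (∑ t, ∏ i, X (τ (h i)) c t) / T') / (admd w h).card

/-- average bounds -/
lemma avg_le {s : Finset ℕ} (hs : (0 : ℝ) < s.card) {φ : ℕ → ℝ} {B : ℝ} (h : ∀ c ∈ s, φ c ≤ B) :
    (∑ c ∈ s, φ c) / s.card ≤ B := by
  rw [div_le_iff₀ hs, mul_comm, ← nsmul_eq_mul, ← sum_const]
  exact sum_le_sum h

lemma le_avg {s : Finset ℕ} (hs : (0 : ℝ) < s.card) {φ : ℕ → ℝ} {B : ℝ} (h : ∀ c ∈ s, B ≤ φ c) :
    B ≤ (∑ c ∈ s, φ c) / s.card := by
  rw [le_div_iff₀ hs, mul_comm, ← nsmul_eq_mul, ← sum_const]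
  exact sum_le_sum h

section
variable {Lm C : ℕ} {δ1 : ℝ} {π : ∀ c : ℕ, psn w R c → (Fin T → Bool)}

lemma facd_mean (hCls : ∀ c : ℕ, c < Wn w → Cls Lm C δ1 Kc w x R c T σ (π c)) {r : ℕ} (hr : r ∈ Icc 1 R) :
    |facd w (tyK π) (Xd σ Kc x π) (fun _ : Fin 1 => r) - 1| ≤ δ1 := by
  have hA := admd_card_pos w (fun _ : Fin 1 => r)
  have key : ∀ c ∈ admd w (fun _ : Fin 1 => r), |(∑ t : Fin (x / Wn w), ∏ _i : Fin 1, Xd σ Kc x π (tyK π r) c t) /
      ((x / Wn w : ℕ) : ℝ) - 1| ≤ δ1 := by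
    intro c hc
    rw [mem_admd] at hc
    obtain ⟨s, hs⟩ := exists_pos hr (hc.2 0)
    have h1 := (hCls c hc.1).mean s
    have e : (∑ t : Fin (x / Wn w), ∏ _i : Fin 1, Xd σ Kc x π (tyK π r) c t) / ((x / Wn w : ℕ) : ℝ) =
        𝔼 t, min (Psi σ (π c) (fD w x c) s t) Kc := by
      rw [sum_div_fin]
      refine expect_congr rfl fun t _ => ?_
      rw [Fin.prod_univ_one, ← hs, Xd_spec π hc.1]
    rw [e]
    exact h1
  unfold facd
  rw [abs_le]
  constructor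
  · have := le_avg hA (φ := fun c => (∑ t : Fin (x / Wn w), ∏ _i : Fin 1, Xd σ Kc x π (tyK π r) c t) /
      ((x / Wn w : ℕ) : ℝ)) (B := 1 - δ1) (fun c hc => by linarith [(abs_le.1 (key c hc)).1])
    linarith
  · have := avg_le hA (φ := fun c => (∑ t : Fin (x / Wn w), ∏ _i : Fin 1, Xd σ Kc x π (tyK π r) c t) /
      ((x / Wn w : ℕ) : ℝ)) (B := 1 + δ1) (fun c hc => by linarith [(abs_le.1 (key c hc)).2])
    linarith

lemma facd_bound (hCls : ∀ c : ℕ, c < Wn w → Cls Lm C δ1 Kc w x R c T σ (π c)) (hKc : 0 ≤ Kc) {n : ℕ} (hn : n ≤ Lm)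
    (h : Fin (n + 1) → ℕ) (hh : ∀ i, h i ∈ Icc 1 R) :
    0 ≤ facd w (tyK π) (Xd σ Kc x π) h ∧ facd w (tyK π) (Xd σ Kc x π) h ≤ (n + 1) * (3 * K0c C ^ (n + 1)) := by
  have hA := admd_card_pos w h
  unfold facd
  constructor
  · refine div_nonneg (sum_nonneg fun c _ => div_nonneg (sum_nonneg fun t _ => prod_nonneg fun i _ => ?_)
      (Nat.cast_nonneg _)) (Nat.cast_nonneg _)
    exact Xd_nonneg hKc _ _ _ _
  · refine avg_le hA (φ := fun c => (∑ t : Fin (x / Wn w), ∏ i, Xd σ Kc x π (tyK π (h i)) c t) /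
      ((x / Wn w : ℕ) : ℝ)) fun c hc => ?_
    rw [mem_admd] at hc
    rw [sum_div_fin]
    calc 𝔼 t : Fin (x / Wn w), ∏ i, Xd σ Kc x π (tyK π (h i)) c t ≤
          𝔼 t : Fin (x / Wn w), ∑ i, Xd σ Kc x π (tyK π (h i)) c t ^ (n + 1) :=
          expect_le_expect fun t _ => prod_le_sum _ fun i => Xd_nonneg hKc _ _ _ _
      _ = ∑ i, 𝔼 t : Fin (x / Wn w), Xd σ Kc x π (tyK π (h i)) c t ^ (n + 1) := expect_sum_comm _ _ _
      _ ≤ ∑ _i : Fin (n + 1), 3 * K0c C ^ (n + 1) := by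
          refine sum_le_sum fun i _ => ?_
          obtain ⟨s, hs⟩ := exists_pos (hh i) (hc.2 i)
          refine le_trans (le_of_eq ?_) ((hCls c hc.1).mom n hn s)
          refine expect_congr rfl fun t _ => ?_
          rw [← hs, Xd_spec π hc.1]
      _ = _ := by
          rw [sum_const, card_univ, Fintype.card_fin, nsmul_eq_mul]
          push_cast
          ring

lemma facd_diag (hCls : ∀ c : ℕ, c < Wn w → Cls Lm C δ1 Kc w x R c T σ (π c)) (hKc : 0 ≤ Kc)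
    (hT : Nonempty (Fin (x / Wn w))) (hδ1 : δ1 ≤ 1) {n : ℕ}
    (h : Fin (n + 1) → ℕ) (hh : ∀ i, h i ∈ Icc 1 R) (hty : ∀ i j, tyK π (h i) = tyK π (h j)) :
    1 - (n + 1) * δ1 ≤ facd w (tyK π) (Xd σ Kc x π) h := by
  have hA := admd_card_pos w (fun _ : Fin 1 => h 0)
  have hne : Nonempty (admd w (fun _ : Fin 1 => h 0)) := ⟨⟨0, admd_zero w _⟩⟩
  have e0 : admd w h = admd w (fun _ : Fin 1 => h 0) := by
    rw [← admd_const w (h 0) n]
    exact admd_congr fun i => tyK_mod (hty i 0)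
  have hm := facd_mean (Lm := Lm) (C := C) hCls (hh 0)
  have e1 : facd w (tyK π) (Xd σ Kc x π) h =
      𝔼 z : admd w (fun _ : Fin 1 => h 0) × Fin (x / Wn w), Xd σ Kc x π (tyK π (h 0)) z.1 z.2 ^ (n + 1) := by
    unfold facd
    simp_rw [sum_div_fin]
    rw [e0, exp_prod, ← sum_div_exp (admd w (fun _ : Fin 1 => h 0)) (fun c => 𝔼 t : Fin (x / Wn w),
      Xd σ Kc x π (tyK π (h 0)) c t ^ (n + 1))]
    congr 1
    refine sum_congr rfl fun c _ => expect_congr rfl fun t _ => ?_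
    rw [prod_congr rfl fun i _ => by rw [hty i 0], prod_const, card_univ, Fintype.card_fin]
  have e2 : facd w (tyK π) (Xd σ Kc x π) (fun _ : Fin 1 => h 0) =
      𝔼 z : admd w (fun _ : Fin 1 => h 0) × Fin (x / Wn w), Xd σ Kc x π (tyK π (h 0)) z.1 z.2 := by
    unfold facd
    simp_rw [sum_div_fin]
    rw [exp_prod, ← sum_div_exp (admd w (fun _ : Fin 1 => h 0)) (fun c => 𝔼 t : Fin (x / Wn w),
      Xd σ Kc x π (tyK π (h 0)) c t)]
    congr 1
    refine sum_congr rfl fun c _ => expect_congr rfl fun t _ => ?_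
    rw [Fin.prod_univ_one]
  rw [e2] at hm
  rw [e1]
  have hj := jensen (κ := admd w (fun _ : Fin 1 => h 0) × Fin (x / Wn w))
    (x := fun z => Xd σ Kc x π (tyK π (h 0)) z.1 z.2) (fun z => Xd_nonneg hKc _ _ _ _) (n + 1)
  refine le_trans ?_ hj
  set X : ℝ := 𝔼 z : admd w (fun _ : Fin 1 => h 0) × Fin (x / Wn w), Xd σ Kc x π (tyK π (h 0)) z.1 z.2 with hX
  have h1 := (abs_le.1 hm).1
  have h3 : (1 - δ1) ^ (n + 1) ≤ X ^ (n + 1) := pow_le_pow_left₀ (by linarith) (by linarith) _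
  have h4 := one_add_mul_le_pow (a := -δ1) (by linarith) (n + 1)
  have e5 : (1 : ℝ) + ((n + 1 : ℕ) : ℝ) * -δ1 = 1 - (n + 1) * δ1 := by push_cast; ring
  have e6 : (1 : ℝ) + -δ1 = 1 - δ1 := by ring
  rw [e5, e6] at h4
  exact h4.trans h3

end

end

end Pool.Agent.NH16.CD
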