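import Pool.Agent.NH16.CD.E4

set_option autoImplicit false
set_option linter.unusedSectionVars false
set_option linter.unusedVariables false

/-!
# Prime tuples and the model
-/

namespace Pool.Agent.NH16.CD

open Finset Filter Topology
open scoped BigOperators
open Pool.Agent.NH16.DL Pool.Agent.NH16.SM Pool.Agent.NH16.BT

lemma Fd_zero {w x r q : ℕ} (hx : 2 * w ≤ x) (hq : x ≤ 2 * q) (hr : 1 ≤ r) {p : ℕ} (hp : p ∈ PP w) (hd : p ∣ r * q + 1) :
    Fd w x r q = 0 := by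
  unfold Fd
  rw [if_neg]
  intro h1
  have hp' := mem_PP.1 hp
  have h2 : p = r * q + 1 := (Nat.prime_dvd_prime_iff_eq hp'.1 h1).1 hd
  have h3 : q ≤ r * q := Nat.le_mul_of_pos_left q hr
  omega

section
variable {w x R T : ℕ} {σ Kc : ℝ} {π : ∀ c : ℕ, psn w R c → (Fin T → Bool)}

/-- the error at a tuple of positions -/
noncomputable def eF (x : ℕ) (σ Kc : ℝ) (π : ∀ c : ℕ, psn w R c → (Fin T → Bool)) (n c : ℕ) (z : Fin (n + 1) → psn w R c) : ℝ :=
  |𝔼 t, ∏ i, fD w x c (z i) t - 𝔼 t, ∏ i, min (Psi σ (π c) (fD w x c) (z i) t) Kc|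

/-- the sum of the errors -/
noncomputable def eT (x : ℕ) (σ Kc : ℝ) (π : ∀ c : ℕ, psn w R c → (Fin T → Bool)) (n : ℕ) (h : Fin (n + 1) → ℕ) : ℝ :=
  ∑ c ∈ range (Wn w), ∑ z ∈ univ.filter (fun z : Fin (n + 1) → psn w R c => ∀ i, vl (z i).1 = h i), eF x σ Kc π n c z

lemma eT_nonneg (n : ℕ) (h : Fin (n + 1) → ℕ) : 0 ≤ eT x σ Kc π n h :=
  sum_nonneg fun c _ => sum_nonneg fun z _ => abs_nonneg _

theorem prime_sideD (hCTD : S_CTD) (hW : Wn w ≤ x) (hw2 : 2 * w ≤ x) (hKc : 1 ≤ Kc) {n : ℕ}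
    (h : Fin (n + 1) → ℕ) (hh : ∀ i, h i ∈ Icc 1 R) (hg : ∀ i, sg w 3 (h i) ≤ 2) :
    |Real.log x ^ (n + 1) * NV x h / x - (Vv w)⁻¹ ^ (n + 1) * (1 / Wn w * ∑ c ∈ admd w h,
        𝔼 t : Fin (x / Wn w), ∏ i, Xd σ Kc x π (tyK π (h i)) c t)| ≤
      Real.log x ^ (n + 1) * (3 * Wn w) / x + (Vv w)⁻¹ ^ (n + 1) * (1 / Wn w * eT x σ Kc π n h + Wn w * Kc ^ (n + 1) / x) := by
  classical
  have hWp : (0 : ℝ) < Wn w := by exact_mod_cast Wn_pos w
  have hx1 : 1 ≤ x := (Wn_pos w).trans_le hW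
  have hxp : (0 : ℝ) < x := by exact_mod_cast hx1
  have hV := Vv_pos w
  have hTn := Wn_le_nonempty hW
  set T' : ℕ := x / Wn w with hTdef
  have hT1 : 1 ≤ T' := Nat.div_pos hW (Wn_pos w)
  have hTp : (0 : ℝ) < T' := by exact_mod_cast hT1
  set ℓ : ℝ := Real.log x with hℓ
  have hℓ0 : 0 ≤ ℓ := Real.log_natCast_nonneg x
  set E1 : ℕ → ℝ := fun c => 𝔼 t : Fin T', ∏ i, Fd w x (h i) (c + Wn w * (T' + t)) with hE1
  set E3 : ℕ → ℝ := fun c => 𝔼 t : Fin T', ∏ i, Xd σ Kc x π (tyK π (h i)) c t with hE3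
  have hqq : ∀ c t : ℕ, c + Wn w * (T' + t) = qq w x c t := fun c t => rfl
  -- the sum over all residues
  have eA : ∑ c ∈ range (Wn w), ∑ t ∈ range T', ∏ i, Fd w x (h i) (c + Wn w * (T' + t)) = T' * ∑ c ∈ admd w h, E1 c := by
    have e1 : ∑ c ∈ range (Wn w), ∑ t ∈ range T', ∏ i, Fd w x (h i) (c + Wn w * (T' + t)) =
        ∑ c ∈ admd w h, ∑ t ∈ range T', ∏ i, Fd w x (h i) (c + Wn w * (T' + t)) := by
      unfold admd
      symm
      refine sum_subset (filter_subset _ _) fun c hc hnc => ?_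
      rw [mem_filter, not_and] at hnc
      have := hnc hc
      push Not at this
      obtain ⟨i, p, hp, hd⟩ := this
      refine sum_eq_zero fun t _ => prod_eq_zero (mem_univ i) ?_
      have hdW : p ∣ Wn w := (dvd_Wn (mem_PP.1 hp).1).2 (mem_PP.1 hp).2
      refine Fd_zero hw2 (two_qq hW c t) (mem_Icc.1 (hh i)).1 hp ?_
      have e : h i * (c + Wn w * (T' + t)) + 1 = (c * h i + 1) + Wn w * (h i * (T' + t)) := by ring
      rw [e]
      exact dvd_add hd (hdW.mul_right _)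
    rw [e1, mul_sum]
    refine sum_congr rfl fun c _ => ?_
    rw [hE1]
    show _ = (T' : ℝ) * 𝔼 t : Fin T', ∏ i, Fd w x (h i) (c + Wn w * (T' + t))
    rw [Fintype.expect_eq_sum_div_card, Fintype.card_fin, mul_div_cancel₀ _ hTp.ne', Finset.sum_range]
  have hCTh := hCTD.1 w x n h hx1
  rw [← hTdef, eA] at hCTh
  -- comparison of the averages
  have d13 : ∑ c ∈ admd w h, |E1 c - E3 c| ≤ eT x σ Kc π n h := by
    unfold eT
    refine (sum_le_sum (f := fun c => |E1 c - E3 c|) (g := fun c => ∑ z ∈ univ.filter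
      (fun z : Fin (n + 1) → psn w R c => ∀ i, vl (z i).1 = h i), eF x σ Kc π n c z) fun c hc => ?_).trans
      (sum_le_sum_of_subset_of_nonneg (filter_subset _ _) fun c _ _ => sum_nonneg fun z _ => abs_nonneg _)
    rw [mem_admd] at hc
    have hz : ∀ i, ∃ s : psn w R c, vl s.1 = h i := fun i => exists_pos (hh i) (hc.2 i)
    choose z hz using hz
    refine le_trans (le_of_eq ?_) (single_le_sum (f := fun z => eF x σ Kc π n c z) (fun z _ => abs_nonneg _)
      (mem_filter.2 ⟨mem_univ z, hz⟩))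
    show |E1 c - E3 c| = eF x σ Kc π n c z
    unfold eF
    rw [hE1, hE3]
    show |𝔼 t : Fin T', ∏ i, Fd w x (h i) (c + Wn w * (T' + t)) - 𝔼 t : Fin T', ∏ i, Xd σ Kc x π (tyK π (h i)) c t| = _
    congr 2
    · refine expect_congr rfl fun t _ => prod_congr rfl fun i _ => ?_
      unfold fD Fg
      rw [hz i, if_pos (hg i)]
      rfl
    · refine expect_congr rfl fun t _ => prod_congr rfl fun i _ => ?_
      rw [← hz i, Xd_spec π hc.1]
  have hYle : ∀ c, 0 ≤ E3 c ∧ E3 c ≤ Kc ^ (n + 1) := by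
    intro c
    constructor
    · exact expect_nonneg fun t _ => prod_nonneg fun i _ => Xd_nonneg (by linarith) _ _ _ _
    · refine expect_le univ_nonempty fun t _ => ?_
      calc ∏ i, Xd σ Kc x π (tyK π (h i)) c t ≤ ∏ _i : Fin (n + 1), Kc :=
            prod_le_prod (fun i _ => Xd_nonneg (by linarith) _ _ _ _) fun i _ => Xd_le (by linarith) _ _ _ _
        _ = _ := by rw [prod_const, card_univ, Fintype.card_fin]
  have hcardA : ((admd w h).card : ℝ) ≤ Wn w := by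
    have : (admd w h).card ≤ (range (Wn w)).card := card_filter_le _ _
    rw [card_range] at this
    exact_mod_cast this
  set Sg1 : ℝ := ∑ c ∈ admd w h, E1 c with hSg1
  set Sg3 : ℝ := ∑ c ∈ admd w h, E3 c with hSg3
  have dS : |Sg1 - Sg3| ≤ eT x σ Kc π n h := by
    rw [hSg1, hSg3, ← sum_sub_distrib]
    exact (abs_sum_le_sum_abs _ _).trans d13
  have hSg3b : 0 ≤ Sg3 ∧ Sg3 ≤ Wn w * Kc ^ (n + 1) := by
    constructor
    · exact sum_nonneg fun c _ => (hYle c).1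
    · calc Sg3 ≤ ∑ _c ∈ admd w h, Kc ^ (n + 1) := sum_le_sum fun c _ => (hYle c).2
        _ = (admd w h).card * Kc ^ (n + 1) := by rw [sum_const, nsmul_eq_mul]
        _ ≤ _ := mul_le_mul_of_nonneg_right hcardA (by positivity)
  have hTN : (T' : ℝ) / x ≤ 1 / Wn w := by
    rw [div_le_div_iff₀ hxp hWp, one_mul]
    exact_mod_cast Nat.div_mul_le_self x (Wn w)
  have hTN2 : 1 / (Wn w : ℝ) - T' / x ≤ 1 / x := by
    have h3 : (x : ℝ) ≤ Wn w * T' + Wn w := by
      have := Nat.div_add_mod x (Wn w)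
      have h4 := Nat.mod_lt x (Wn_pos w)
      have h5 : x ≤ Wn w * T' + Wn w := by rw [hTdef]; omega
      exact_mod_cast h5
    have e : 1 / (Wn w : ℝ) - T' / x = (x - Wn w * T') / (Wn w * x) := by
      field_simp
    rw [e, div_le_div_iff₀ (by positivity) hxp]
    nlinarith
  -- conclusion
  set v : ℝ := (Vv w)⁻¹ ^ (n + 1) with hv
  have hv0 : 0 < v := pow_pos (inv_pos.2 hV) _
  set D : ℝ := (Vv w * ℓ) ^ (n + 1) * (3 * Wn w) with hD
  have hvV : v * (Vv w * ℓ) ^ (n + 1) = ℓ ^ (n + 1) := by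
    rw [hv, ← mul_pow, ← mul_assoc, inv_mul_cancel₀ hV.ne', one_mul]
  have f1 : |v * (T' * Sg1) / x - ℓ ^ (n + 1) * NV x h / x| ≤ ℓ ^ (n + 1) * (3 * Wn w) / x := by
    have e : v * (T' * Sg1) / x - ℓ ^ (n + 1) * NV x h / x = v * (T' * Sg1 - (Vv w * ℓ) ^ (n + 1) * NV x h) / x := by
      rw [← hvV]
      ring
    rw [e, abs_div, abs_of_pos hxp, abs_mul, abs_of_pos hv0]
    refine div_le_div_of_nonneg_right ?_ hxp.le
    calc v * |T' * Sg1 - (Vv w * ℓ) ^ (n + 1) * NV x h| ≤ v * D := mul_le_mul_of_nonneg_left hCTh hv0.le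
      _ = ℓ ^ (n + 1) * (3 * Wn w) := by rw [hD, ← mul_assoc, hvV]
  have f2 : |v * (T' * Sg1) / x - v * (1 / Wn w * Sg3)| ≤ v * (1 / Wn w * eT x σ Kc π n h + Wn w * Kc ^ (n + 1) / x) := by
    have e : v * (T' * Sg1) / x - v * (1 / Wn w * Sg3) =
        v * ((T' : ℝ) / x * (Sg1 - Sg3) - (1 / (Wn w : ℝ) - T' / x) * Sg3) := by
      ring
    rw [e, abs_mul, abs_of_pos hv0]
    refine mul_le_mul_of_nonneg_left ?_ hv0.le
    refine (abs_sub _ _).trans ?_
    have g1 : |(T' : ℝ) / x * (Sg1 - Sg3)| ≤ 1 / Wn w * eT x σ Kc π n h := by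
      rw [abs_mul, abs_of_nonneg (by positivity : (0 : ℝ) ≤ T' / x)]
      exact mul_le_mul hTN dS (abs_nonneg _) (by positivity)
    have g2 : |(1 / (Wn w : ℝ) - T' / x) * Sg3| ≤ 1 / x * (Wn w * Kc ^ (n + 1)) := by
      rw [abs_mul, abs_of_nonneg hSg3b.1, abs_of_nonneg (by linarith)]
      exact mul_le_mul hTN2 hSg3b.2 hSg3b.1 (by positivity)
    have e3 : 1 / (x : ℝ) * (Wn w * Kc ^ (n + 1)) = Wn w * Kc ^ (n + 1) / x := by ring
    rw [e3] at g2
    linarith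
  have f3 := abs_sub_le (ℓ ^ (n + 1) * NV x h / x) (v * (T' * Sg1) / x) (v * (1 / Wn w * Sg3))
  rw [abs_sub_comm (ℓ ^ (n + 1) * NV x h / x) (v * (T' * Sg1) / x)] at f3
  linarith

/-- the sum of the errors over all slopes -/
theorem sum_eT {Lm C : ℕ} {δ1 Cm : ℝ} (hδ1 : 0 ≤ δ1) (hCls : ∀ c : ℕ, c < Wn w → Cls Lm C δ1 Kc w x R c T σ (π c))
    {n : ℕ} (hn : n ≤ Lm)
    (hCm : 1 / (Wn w : ℝ) * ∑ c ∈ range (Wn w), ((psn w R c).card : ℝ) ^ (n + 1) ≤ Cm * (Vv w) ^ (n + 1) * (R : ℝ) ^ (n + 1)) :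
    ∑ h ∈ Fintype.piFinset (fun _ : Fin (n + 1) => Icc 1 R), (Vv w)⁻¹ ^ (n + 1) * (1 / Wn w * eT x σ Kc π n h) ≤
      Cm * (R : ℝ) ^ (n + 1) * δ1 := by
  classical
  have hWp : (0 : ℝ) < Wn w := by exact_mod_cast Wn_pos w
  have hV := Vv_pos w
  have h1 : ∑ h ∈ Fintype.piFinset (fun _ : Fin (n + 1) => Icc 1 R), eT x σ Kc π n h ≤
      ∑ c ∈ range (Wn w), ((psn w R c).card : ℝ) ^ (n + 1) * δ1 := by
    unfold eT
    rw [sum_comm]
    refine sum_le_sum fun c hc => ?_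
    rw [mem_range] at hc
    have e1 : ∑ h ∈ Fintype.piFinset (fun _ : Fin (n + 1) => Icc 1 R),
        ∑ z ∈ univ.filter (fun z : Fin (n + 1) → psn w R c => ∀ i, vl (z i).1 = h i), eF x σ Kc π n c z =
        ∑ z : Fin (n + 1) → psn w R c, eF x σ Kc π n c z := by
      simp only [sum_filter]
      rw [sum_comm]
      refine sum_congr rfl fun z _ => ?_
      rw [Finset.sum_eq_single (fun i => vl (z i).1)]
      · simp
      · intro h _ hne
        rw [if_neg]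
        intro h2
        exact hne (funext fun i => (h2 i).symm)
      · intro h2
        exfalso
        apply h2
        rw [Fintype.mem_piFinset]
        intro i
        rw [mem_Icc]
        exact ⟨vl_pos _, vl_le _⟩
    rw [e1]
    rcases Nat.eq_zero_or_pos (psn w R c).card with h0 | h0
    · have hemp : IsEmpty (psn w R c) := by
        rw [Finset.card_eq_zero] at h0
        rw [h0]
        exact Finset.isEmpty_coe_sort.2 rfl
      have : IsEmpty (Fin (n + 1) → psn w R c) := ⟨fun z => hemp.false (z 0)⟩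
      rw [Finset.univ_eq_empty, sum_empty]
      positivity
    · have h2 := (hCls c hc).cnt n hn
      have hcard : (Fintype.card (Fin (n + 1) → psn w R c) : ℝ) = ((psn w R c).card : ℝ) ^ (n + 1) := by
        rw [Fintype.card_fun, Fintype.card_fin, Fintype.card_coe]
        push_cast
        rfl
      have hp : (0 : ℝ) < ((psn w R c).card : ℝ) ^ (n + 1) := by
        have : (0 : ℝ) < ((psn w R c).card : ℝ) := by exact_mod_cast h0
        positivity
      rw [Fintype.expect_eq_sum_div_card, hcard, div_le_iff₀ hp] at h2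
      refine le_trans (le_of_eq rfl) (h2.trans (le_of_eq (mul_comm _ _)))
  rw [← mul_sum, ← mul_sum]
  rw [← sum_mul] at h1
  set S : ℝ := ∑ c ∈ range (Wn w), ((psn w R c).card : ℝ) ^ (n + 1) with hS
  have hv0 : 0 ≤ (Vv w)⁻¹ ^ (n + 1) := (pow_pos (inv_pos.2 hV) _).le
  calc (Vv w)⁻¹ ^ (n + 1) * (1 / Wn w * ∑ h ∈ Fintype.piFinset (fun _ : Fin (n + 1) => Icc 1 R), eT x σ Kc π n h) ≤
        (Vv w)⁻¹ ^ (n + 1) * (1 / Wn w * (S * δ1)) :=
        mul_le_mul_of_nonneg_left (mul_le_mul_of_nonneg_left h1 (by positivity)) hv0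
    _ = (Vv w)⁻¹ ^ (n + 1) * ((1 / Wn w * S) * δ1) := by ring
    _ ≤ (Vv w)⁻¹ ^ (n + 1) * ((Cm * (Vv w) ^ (n + 1) * (R : ℝ) ^ (n + 1)) * δ1) :=
        mul_le_mul_of_nonneg_left (mul_le_mul_of_nonneg_right hCm hδ1) hv0
    _ = ((Vv w)⁻¹ * Vv w) ^ (n + 1) * (Cm * (R : ℝ) ^ (n + 1) * δ1) := by rw [mul_pow]; ring
    _ = _ := by rw [inv_mul_cancel₀ hV.ne', one_pow, one_mul]

end

lemma sg_mono {w : ℕ} {c c' : ℝ} (hc : 0 ≤ c) (hcc : c ≤ c') {a b : ℕ} (hb : b ≠ 0) (hab : a ∣ b) : sg w c a ≤ sg w c' b := by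
  unfold sg
  have h1 : a.primeFactors.filter (fun p => w < p) ⊆ b.primeFactors.filter (fun p => w < p) :=
    filter_subset_filter _ (Nat.primeFactors_mono hab hb)
  calc ∏ p ∈ a.primeFactors.filter (fun p => w < p), (1 + c / (p : ℝ)) ≤
        ∏ p ∈ a.primeFactors.filter (fun p => w < p), (1 + c' / (p : ℝ)) :=
        prod_le_prod (fun p _ => by positivity) fun p _ => by
          have : c / (p : ℝ) ≤ c' / p := div_le_div_of_nonneg_right hcc (Nat.cast_nonneg _)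
          linarith
    _ ≤ _ := by
          have hc' : 0 ≤ c' := hc.trans hcc
          rw [← prod_sdiff h1]
          refine le_mul_of_one_le_left (prod_nonneg fun p _ => by positivity) ?_
          refine Finset.prod_induction _ (fun z : ℝ => 1 ≤ z) (fun a b ha hb => one_le_mul_of_one_le_of_one_le ha hb) le_rfl
            fun p _ => ?_
          have : 0 ≤ c' / (p : ℝ) := by positivity
          linarith

end Pool.Agent.NH16.CD
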