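import Pool.Agent.NH16.CD.E5

set_option autoImplicit false
set_option linter.unusedSectionVars false
set_option linter.unusedVariables false

/-!
# The final statement
-/

namespace Pool.Agent.NH16.CD

open Finset Filter Topology
open scoped BigOperators
open Pool.Agent.NH16.DL Pool.Agent.NH16.SM Pool.Agent.NH16.BT

/-- the conclusion of `coreD` -/
def CoreHypD (Lm C : ℕ) : Prop := ∀ δ : ℝ, 0 < δ → ∃ (Kc σ : ℝ) (T : ℕ), 1 ≤ Kc ∧ ∃ w0 : ℕ, ∀ w : ℕ, w0 ≤ w →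
    ∃ b0 : ℝ, 0 < b0 ∧
      ∀ A : ℝ, 0 ≤ A → ∀ᶠ x : ℕ in atTop, ∀ r : ℕ, b0 * Real.log x ≤ r → (r : ℝ) ≤ Real.log x ^ A →
        ∀ c : ℕ, c < Wn w → ∃ π : psn w r c → (Fin T → Bool), Cls Lm C δ Kc w x r c T σ π

theorem finalD (hCTD : S_CTD) (hSGD : S_SGD) (hXV : S_XV) (hPD : S_PD) {Lm C : ℕ}
    (hCore : CoreHypD Lm C) : ∃ Cs : ℝ, 0 ≤ Cs ∧ ∀ δ : ℝ, 0 < δ → ∃ (w K : ℕ) (b : ℝ),
      ∀ A : ℝ, 0 ≤ A → ∀ᶠ x : ℕ in atTop, ∀ R : ℕ, b * Real.log x ≤ R → (R : ℝ) ≤ Real.log x ^ A →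
      ∃ (T' : ℕ) (τ : ℕ → Fin K) (X : Fin K → ℕ → Fin T' → ℝ), 1 ≤ T' ∧
        (∀ r r' : ℕ, τ r = τ r' → r % Wn w = r' % Wn w) ∧ (∀ k c t, 0 ≤ X k c t) ∧
        (∀ r ∈ Icc 1 R, |facd w τ X (fun _ : Fin 1 => r) - 1| ≤ δ) ∧
        ∀ n ≤ Lm, (∀ h : Fin (n + 1) → ℕ, (∀ i, h i ∈ Icc 1 R) → facd w τ X h ≤ Cs) ∧
          (∀ h : Fin (n + 1) → ℕ, (∀ i, h i ∈ Icc 1 R) → (∀ i j, τ (h i) = τ (h j)) → 1 - δ ≤ facd w τ X h) ∧
          (((Fintype.piFinset (fun _ : Fin (n + 1) => Icc 1 R)).filter (fun h =>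
            δ * (x / Real.log x ^ (n + 1)) < |(NV x h : ℝ) -
              facd w τ X h * SV h * (x / Real.log x ^ (n + 1))|)).card : ℝ) ≤
            δ * (R : ℝ) ^ (n + 1) := by
  classical
  have hK02 : 2 ≤ K0c C := two_le_K C (C + 3)
  have hterm0 : ∀ n : ℕ, 0 ≤ ((n : ℝ) + 1) * (3 * K0c C ^ (n + 1)) := fun n => by positivity
  set Cs : ℝ := 1 + ∑ n ∈ range (Lm + 1), ((n : ℝ) + 1) * (3 * K0c C ^ (n + 1)) with hCs
  have hCs1 : 1 ≤ Cs := by
    have : 0 ≤ ∑ n ∈ range (Lm + 1), ((n : ℝ) + 1) * (3 * K0c C ^ (n + 1)) := sum_nonneg fun n _ => hterm0 n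
    linarith
  have hCs0 : 0 ≤ Cs := by linarith
  have hCsn : ∀ n : ℕ, n ≤ Lm → ((n : ℝ) + 1) * (3 * K0c C ^ (n + 1)) ≤ Cs := fun n hn => by
    have := single_le_sum (f := fun n : ℕ => ((n : ℝ) + 1) * (3 * K0c C ^ (n + 1))) (fun i _ => hterm0 i)
      (mem_range.2 (by omega : n < Lm + 1))
    have h2 : ((n : ℝ) + 1) * (3 * K0c C ^ (n + 1)) ≤ ∑ n ∈ range (Lm + 1), ((n : ℝ) + 1) * (3 * K0c C ^ (n + 1)) := this
    linarith
  choose Cm hCm0 hCm using hPD.2.1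
  set CM : ℝ := 1 + ∑ n ∈ range (Lm + 1), Cm (n + 1) with hCM
  have hCM1 : 1 ≤ CM := by
    have : 0 ≤ ∑ n ∈ range (Lm + 1), Cm (n + 1) := sum_nonneg fun n _ => hCm0 _
    linarith
  have hCMn : ∀ n : ℕ, n ≤ Lm → Cm (n + 1) ≤ CM := fun n hn => by
    have h2 : Cm (n + 1) ≤ ∑ n ∈ range (Lm + 1), Cm (n + 1) :=
      single_le_sum (f := fun n => Cm (n + 1)) (fun i _ => hCm0 _) (mem_range.2 (by omega : n < Lm + 1))
    linarith
  refine ⟨Cs, hCs0, fun δ hδ => ?_⟩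
  set δ0 : ℝ := min δ 1 with hδ0
  have hδ0p : 0 < δ0 := lt_min hδ one_pos
  have hδ01 : δ0 ≤ 1 := min_le_right _ _
  have hδ0δ : δ0 ≤ δ := min_le_left _ _
  set P : ℝ := (Lm : ℝ) + 1 with hP
  have hP1 : 1 ≤ P := by rw [hP]; have := Nat.cast_nonneg (α := ℝ) Lm; linarith
  set δ1 : ℝ := min (δ0 / P) (δ0 ^ 2 / (16 * CM)) with hδ1
  have hδ1p : 0 < δ1 := lt_min (by positivity) (by positivity)
  have hδ1a : P * δ1 ≤ δ0 := by
    have : δ1 ≤ δ0 / P := min_le_left _ _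
    rw [le_div_iff₀ (by positivity)] at this
    linarith
  have hδ1b : CM * δ1 ≤ δ0 ^ 2 / 16 := by
    have : δ1 ≤ δ0 ^ 2 / (16 * CM) := min_le_right _ _
    rw [le_div_iff₀ (by positivity)] at this
    linarith
  have hδ1c : δ1 ≤ 1 := by nlinarith
  obtain ⟨Kc, σ, T, hKc, w0, hw0⟩ := hCore δ1 hδ1p
  set t : ℝ := δ0 ^ 2 / (32 * (1 + Cs)) with ht
  have ht0 : 0 < t := by positivity
  have htCs : Cs * (2 * t) ≤ δ0 ^ 2 / 16 := by
    rw [ht]
    have : Cs * (2 * (δ0 ^ 2 / (32 * (1 + Cs)))) = δ0 ^ 2 / 16 * (Cs / (1 + Cs)) := by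
      field_simp
      ring
    rw [this]
    refine mul_le_of_le_one_right (by positivity) ?_
    rw [div_le_one (by positivity)]
    linarith
  -- choice of w
  have e3 : ∀ᶠ w : ℕ in atTop, ∀ i ∈ range (Lm + 1), (Vv w)⁻¹ ^ (i + 1) * XA (i + 1) w ≤ t :=
    (eventually_all_finset _).2 fun i _ => le_of_ev (hXV (i + 1)).1 ht0
  have e4 : ∀ᶠ w : ℕ in atTop, ∀ i ∈ range (Lm + 1), (Vv w)⁻¹ ^ (i + 1) * (((i + 1 : ℕ) : ℝ) ^ 2 / w) ≤ t :=
    (eventually_all_finset _).2 fun i _ => le_of_ev (hXV (i + 1)).2 ht0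
  obtain ⟨w, g3, g4, g5, g6, g7⟩ := (e3.and (e4.and ((eventually_ge_atTop (Lm + 1)).and
    ((eventually_ge_atTop 2).and (eventually_ge_atTop w0))))).exists
  have hV := Vv_pos w
  have hVi : 1 ≤ (Vv w)⁻¹ := (one_le_inv₀ hV).2 (Vv_le_one w)
  set v : ℝ := (Vv w)⁻¹ ^ (Lm + 1) with hv
  have hv1 : 1 ≤ v := one_le_pow₀ hVi
  have hvr : ∀ r ≤ Lm, (Vv w)⁻¹ ^ (r + 1) ≤ v := fun r hr => pow_le_pow_right₀ hVi (by omega)
  have hW := Wn_pos w
  have hWp : (0 : ℝ) < Wn w := by exact_mod_cast hW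
  obtain ⟨b0, hb0, hw1⟩ := hw0 w g7
  refine ⟨w, Fintype.card (Ty w T), b0 + 4 * P ^ 2 / δ0 + 1, fun A hA => ?_⟩
  have eA1 : ∀ᶠ x : ℕ in atTop, ∀ i ∈ range (Lm + 1), (3 * Wn w : ℝ) * (Real.log x ^ (i + 1) * (x : ℝ) ^ (-(1 : ℝ))) ≤ δ0 / 16 :=
    (eventually_all_finset _).2 fun i _ => le_of_ev (log_pow_rpow (i + 1) (by norm_num) (3 * Wn w)) (by positivity)
  have eA3 : ∀ᶠ x : ℕ in atTop, (v * (Wn w * Kc ^ (Lm + 1))) / x ≤ δ0 / 16 :=
    le_of_ev (tendsto_const_div_atTop_nhds_zero_nat _) (by positivity)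
  obtain ⟨R1, hR1⟩ := eventually_atTop.1 ((eventually_all_finset (range (Lm + 1))).2 fun i _ => hCm (i + 1) w (by omega))
  have hlogR : ∀ᶠ x : ℕ in atTop, (R1 : ℝ) ≤ Real.log x :=
    (Real.tendsto_log_atTop.comp tendsto_natCast_atTop_atTop).eventually_ge_atTop _
  filter_upwards [hw1 A hA, eA1, eA3, hlogR, eventually_ge_atTop 3, eventually_ge_atTop (Wn w),
    eventually_ge_atTop (2 * w)] with x hx hA1 hA3 hlR hx3 hWx hwx R hR hRA
  have hlogx : 1 ≤ Real.log x := by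
    rw [Real.le_log_iff_exp_le (by positivity)]
    have h3 : (3 : ℝ) ≤ x := by exact_mod_cast hx3
    linarith [Real.exp_one_lt_d9]
  have hxp : (0 : ℝ) < x := by
    have : (3 : ℝ) ≤ x := by exact_mod_cast hx3
    linarith
  -- sizes
  have z2 : (0 : ℝ) ≤ 4 * P ^ 2 / δ0 := by positivity
  have hb1 : b0 * Real.log x ≤ R := by
    refine le_trans (mul_le_mul_of_nonneg_right ?_ (by linarith)) hR
    linarith
  have hbl : Real.log x ≤ R := by
    refine le_trans ?_ hR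
    have h1 : 1 * Real.log x ≤ (b0 + 4 * P ^ 2 / δ0 + 1) * Real.log x :=
      mul_le_mul_of_nonneg_right (by linarith) (by linarith)
    linarith
  have hb2 : 4 * P ^ 2 / δ0 ≤ R := by
    refine le_trans ?_ hR
    have h1 : (4 * P ^ 2 / δ0) * 1 ≤ (b0 + 4 * P ^ 2 / δ0 + 1) * Real.log x :=
      mul_le_mul (by linarith) hlogx zero_le_one (by positivity)
    linarith
  have hRR1 : R1 ≤ R := by
    have : (R1 : ℝ) ≤ R := hlR.trans hbl
    exact_mod_cast this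
  have hR1' : 1 ≤ R := by
    have : (1 : ℝ) ≤ R := hlogx.trans hbl
    exact_mod_cast this
  have hRp : (0 : ℝ) < R := by exact_mod_cast hR1'
  have hex := hx R hb1 hRA
  choose! π hCls using hex
  have hT := Wn_le_nonempty hWx
  have hKc0 : 0 ≤ Kc := by linarith
  refine ⟨x / Wn w, tyK π, Xd σ Kc x π, Nat.div_pos hWx hW, fun r r' h => tyK_mod h,
    fun k c t => Xd_nonneg hKc0 _ _ _ _, fun r hr => ?_, fun n hn => ⟨fun h hh => ?_, fun h hh hty => ?_, ?_⟩⟩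
  · refine (facd_mean hCls hr).trans ?_
    nlinarith
  · exact (facd_bound hCls hKc0 hn h hh).2.trans (hCsn n hn)
  · have h1 := facd_diag hCls hKc0 hT hδ1c h hh hty
    have h2 : ((n : ℝ) + 1) * δ1 ≤ P * δ1 := by
      refine mul_le_mul_of_nonneg_right ?_ hδ1p.le
      rw [hP]
      have : (n : ℝ) ≤ Lm := by exact_mod_cast hn
      linarith
    linarith
  -- the main part
  have hnL : n ∈ range (Lm + 1) := mem_range.2 (by omega)
  set box := Fintype.piFinset (fun _ : Fin (n + 1) => Icc 1 R) with hbox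
  set ℓ : ℝ := Real.log x with hℓ
  have hℓ0 : 0 < ℓ := by linarith
  set F : (Fin (n + 1) → ℕ) → ℝ := fun h => facd w (tyK π) (Xd σ Kc x π) h with hF
  set φ1 : (Fin (n + 1) → ℕ) → ℝ := fun h => (Vv w)⁻¹ ^ (n + 1) * (1 / Wn w * eT x σ Kc π n h) with hφ1
  set φ2 : (Fin (n + 1) → ℕ) → ℝ := fun h => Cs * ((Vv w)⁻¹ ^ (n + 1) * ((sg w (3 ^ (n + 1)) (disc h) - 1) +
    ((n : ℝ) + 1) ^ 2 / w)) with hφ2
  have hVr0 : 0 < (Vv w)⁻¹ ^ (n + 1) := pow_pos (inv_pos.2 hV) _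
  have hVr1 : 1 ≤ (Vv w)⁻¹ ^ (n + 1) := one_le_pow₀ hVi
  have hφ10 : ∀ h, 0 ≤ φ1 h := fun h => by
    have : 0 ≤ eT x σ Kc π n h := eT_nonneg n h
    positivity
  -- the estimate for one vector
  have hone : ∀ h ∈ box, φ1 h ≤ δ0 / 4 → φ2 h ≤ δ0 / 4 → Function.Injective h →
      |ℓ ^ (n + 1) * NV x h / x - F h * SV h| ≤ δ0 := by
    intro h hh c1' c2' c3'
    rw [hbox, Fintype.mem_piFinset] at hh
    have hh0 : ∀ i, h i ≠ 0 := fun i => by have := mem_Icc.1 (hh i); omega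
    have hgood : ∀ i, sg w 3 (h i) ≤ 2 := by
      intro i
      have b1 : sg w 3 (h i) ≤ sg w (3 ^ (n + 1)) (disc h) :=
        sg_mono (by norm_num) (le_self_pow₀ (by norm_num) (by omega)) (disc_ne hh0) (dvd_disc h i)
      have b2 := sg_one_le (w := w) (c := 3 ^ (n + 1)) (by positivity) (disc h)
      have b3 : (0 : ℝ) ≤ ((n : ℝ) + 1) ^ 2 / w := by positivity
      have b4 : 1 * (1 * (sg w (3 ^ (n + 1)) (disc h) - 1)) ≤ φ2 h := by
        rw [hφ2]
        refine mul_le_mul hCs1 (mul_le_mul hVr1 (by linarith) (by linarith) hVr0.le) (by linarith) hCs0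
      linarith
    have hps := prime_sideD (w := w) (x := x) (R := R) (σ := σ) (Kc := Kc) (π := π) hCTD hWx hwx hKc h hh hgood
    set S4 : ℝ := (Vv w)⁻¹ ^ (n + 1) * (1 / Wn w * ∑ c ∈ admd w h, 𝔼 t : Fin (x / Wn w),
      ∏ i, Xd σ Kc x π (tyK π (h i)) c t) with hS4
    -- small terms
    have a1 : ℓ ^ (n + 1) * (3 * Wn w) / x ≤ δ0 / 16 := by
      refine le_trans (le_of_eq ?_) (hA1 n hnL)
      rw [Real.rpow_neg hxp.le, Real.rpow_one]
      ring
    have a3 : (Vv w)⁻¹ ^ (n + 1) * (Wn w * Kc ^ (n + 1) / x) ≤ δ0 / 16 := by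
      refine le_trans ?_ hA3
      have e1 : (Vv w)⁻¹ ^ (n + 1) * (Wn w * Kc ^ (n + 1) / x) = (Vv w)⁻¹ ^ (n + 1) * (Wn w * Kc ^ (n + 1)) / x := by ring
      rw [e1]
      refine div_le_div_of_nonneg_right ?_ hxp.le
      exact mul_le_mul (hvr n hn) (mul_le_mul_of_nonneg_left (pow_le_pow_right₀ hKc (by omega)) hWp.le)
        (by positivity) (by linarith)
    have hps' : |ℓ ^ (n + 1) * NV x h / x - S4| ≤ δ0 / 16 + δ0 / 16 + δ0 / 4 := by
      refine hps.trans ?_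
      have e1 : (Vv w)⁻¹ ^ (n + 1) * (1 / Wn w * eT x σ Kc π n h + Wn w * Kc ^ (n + 1) / x) =
          φ1 h + (Vv w)⁻¹ ^ (n + 1) * (Wn w * Kc ^ (n + 1) / x) := by
        rw [hφ1]
        ring
      rw [e1]
      linarith
    -- the singular series
    obtain ⟨hF0, hFle⟩ := facd_bound hCls hKc0 hn h hh
    have hFCs : F h ≤ Cs := hFle.trans (hCsn n hn)
    have hS4F : S4 = F h * ((Vv w)⁻¹ ^ (n + 1) * ((admd w h).card / Wn w : ℝ)) := by
      rw [hS4, hF]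
      show _ = facd w (tyK π) (Xd σ Kc x π) h * _
      unfold facd
      simp_rw [sum_div_fin]
      have := (admd_card_pos w h).ne'
      field_simp
    have hsg := hSGD w n h (by omega) c3' (fun i => (mem_Icc.1 (hh i)).1)
    have hFS : |S4 - F h * SV h| ≤ δ0 / 4 := by
      rw [hS4F, ← mul_sub, abs_mul, abs_of_nonneg hF0, abs_sub_comm]
      refine le_trans (mul_le_mul hFCs hsg (abs_nonneg _) hCs0) ?_
      exact c2'
    have t2 := abs_sub_le (ℓ ^ (n + 1) * NV x h / x) S4 (F h * SV h)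
    linarith
  -- the exceptional sets
  have hbad1 : ((box.filter (fun h => δ0 / 4 < φ1 h)).card : ℝ) ≤ δ0 / 4 * (R : ℝ) ^ (n + 1) := by
    have h1 := sum_eT (x := x) (σ := σ) (Kc := Kc) (π := π) hδ1p.le hCls hn (hR1 R hRR1 n hnL)
    refine (markovS box φ1 (fun h _ => hφ10 h) (by positivity) h1).trans ?_
    rw [div_le_iff₀ (by positivity)]
    have hRn : 0 ≤ (R : ℝ) ^ (n + 1) := by positivity
    calc Cm (n + 1) * (R : ℝ) ^ (n + 1) * δ1 ≤ CM * (R : ℝ) ^ (n + 1) * δ1 :=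
          mul_le_mul_of_nonneg_right (mul_le_mul_of_nonneg_right (hCMn n hn) hRn) hδ1p.le
      _ = (CM * δ1) * (R : ℝ) ^ (n + 1) := by ring
      _ ≤ (δ0 ^ 2 / 16) * (R : ℝ) ^ (n + 1) := mul_le_mul_of_nonneg_right hδ1b hRn
      _ = _ := by ring
  have hHe : Nonempty (Fin R) := ⟨⟨0, hR1'⟩⟩
  have hcardF : (Fintype.card (Fin (n + 1) → Fin R) : ℝ) = (R : ℝ) ^ (n + 1) := by
    rw [Fintype.card_fun, Fintype.card_fin, Fintype.card_fin]
    push_cast
    rfl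
  have hbad2 : ((box.filter (fun h => δ0 / 4 < φ2 h)).card : ℝ) ≤ δ0 / 4 * (R : ℝ) ^ (n + 1) := by
    have h1 := card_bad (H := R) (n := n) (fun h => δ0 / 4 < φ2 h)
    have hE : 𝔼 r' : Fin (n + 1) → Fin R, φ2 (fun i => vl (r' i)) ≤ δ0 ^ 2 / 16 := by
      rw [hφ2]
      simp only
      rw [← mul_expect, ← mul_expect, expect_add_distrib, Fintype.expect_const]
      refine le_trans (mul_le_mul_of_nonneg_left ?_ hCs0) htCs
      rw [mul_add]
      have a1 : 𝔼 r : Fin (n + 1) → Fin R, (sg w (3 ^ (n + 1)) (disc (fun i => vl (r i))) - 1) ≤ XA (n + 1) w := by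
        refine (avg_disc (R := R) (m := n + 1) (M := (n + 1) + (n + 1) * (n + 1)) (w := w) (c := 3 ^ (n + 1)) hR1' le_rfl
          (by omega) (by positivity)).trans (le_of_eq ?_)
        unfold XA
        push_cast
        rfl
      have a2 := g3 n hnL
      have a3 := g4 n hnL
      have a4 := mul_le_mul_of_nonneg_left a1 hVr0.le
      push_cast at a3
      linarith
    have h2 := markov (fun r' : Fin (n + 1) → Fin R => φ2 (fun i => vl (r' i))) (fun r' => by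
      have := sg_one_le (w := w) (c := 3 ^ (n + 1)) (by positivity) (disc (fun i => vl (r' i)))
      have h2 : (0 : ℝ) ≤ ((n : ℝ) + 1) ^ 2 / w := by positivity
      have h3 : 0 ≤ (sg w (3 ^ (n + 1)) (disc (fun i => vl (r' i))) - 1) + ((n : ℝ) + 1) ^ 2 / w := by linarith
      rw [hφ2]
      positivity) (t := δ0 / 4) (by positivity) hE
    rw [hcardF] at h2
    have h3 : ((box.filter (fun h => δ0 / 4 < φ2 h)).card : ℝ) ≤
        (((univ : Finset (Fin (n + 1) → Fin R)).filter (fun r' => δ0 / 4 < φ2 (fun i => vl (r' i)))).card : ℝ) := by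
      exact_mod_cast h1
    refine h3.trans (h2.trans (le_of_eq ?_))
    field_simp
    norm_num
  have hbad3 : ((box.filter (fun h => ¬ Function.Injective h)).card : ℝ) ≤ δ0 / 4 * (R : ℝ) ^ (n + 1) := by
    have h1 := card_bad (H := R) (n := n) (fun h => ¬ Function.Injective h)
    have m3 := noninj (n := n) hR1'
    have h3 : ((box.filter (fun h => ¬ Function.Injective h)).card : ℝ) ≤
        (((univ : Finset (Fin (n + 1) → Fin R)).filter (fun r' => ¬ Function.Injective (fun i => vl (r' i)))).card : ℝ) := by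
      exact_mod_cast h1
    have h4 : (univ : Finset (Fin (n + 1) → Fin R)).filter (fun r' => ¬ Function.Injective (fun i => vl (r' i))) ⊆
        univ.filter (fun r' => ¬ Function.Injective r') := by
      intro r' hr'
      rw [mem_filter] at hr' ⊢
      exact ⟨hr'.1, fun hinj => hr'.2 (vl_inj.comp hinj)⟩
    have h5 : (((univ : Finset (Fin (n + 1) → Fin R)).filter (fun r' => ¬ Function.Injective (fun i => vl (r' i)))).card : ℝ) ≤
        (((univ : Finset (Fin (n + 1) → Fin R)).filter (fun r' => ¬ Function.Injective r')).card : ℝ) := by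
      exact_mod_cast card_le_card h4
    refine h3.trans (h5.trans (m3.trans (mul_le_mul_of_nonneg_right ?_ (by positivity))))
    rw [div_le_iff₀ hRp]
    have h6 : ((n : ℝ) + 1) ^ 2 ≤ P ^ 2 := by
      rw [hP]
      have : (n : ℝ) ≤ Lm := by exact_mod_cast hn
      exact pow_le_pow_left₀ (by positivity) (by linarith) 2
    rw [div_le_iff₀ hδ0p] at hb2
    linarith
  -- conclusion
  have hsub : box.filter (fun h => δ * (x / ℓ ^ (n + 1)) < |(NV x h : ℝ) - F h * SV h * (x / ℓ ^ (n + 1))|) ⊆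
      (box.filter (fun h => δ0 / 4 < φ1 h) ∪ box.filter (fun h => δ0 / 4 < φ2 h)) ∪
        box.filter (fun h => ¬ Function.Injective h) := by
    intro h hh
    rw [mem_filter] at hh
    by_contra hcon
    rw [mem_union, mem_union, mem_filter, mem_filter, mem_filter] at hcon
    push Not at hcon
    obtain ⟨⟨c1', c2'⟩, c3'⟩ := hcon
    have h1 := hone h hh.1 (c1' hh.1) (c2' hh.1) (c3' hh.1)
    have h2 : (NV x h : ℝ) - F h * SV h * (x / ℓ ^ (n + 1)) =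
        (x / ℓ ^ (n + 1)) * (ℓ ^ (n + 1) * NV x h / x - F h * SV h) := by
      field_simp
    have h3 : |(NV x h : ℝ) - F h * SV h * (x / ℓ ^ (n + 1))| ≤ δ * (x / ℓ ^ (n + 1)) := by
      rw [h2, abs_mul, abs_of_nonneg (by positivity), mul_comm]
      exact mul_le_mul_of_nonneg_right (h1.trans hδ0δ) (by positivity)
    exact absurd h3 (not_le.2 hh.2)
  have hfin : ((box.filter (fun h => δ * (x / ℓ ^ (n + 1)) <
      |(NV x h : ℝ) - F h * SV h * (x / ℓ ^ (n + 1))|)).card : ℝ) ≤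
      (((box.filter (fun h => δ0 / 4 < φ1 h)).card + (box.filter (fun h => δ0 / 4 < φ2 h)).card +
        (box.filter (fun h => ¬ Function.Injective h)).card : ℕ) : ℝ) := by
    exact_mod_cast (card_le_card hsub).trans ((card_union_le _ _).trans (Nat.add_le_add_right (card_union_le _ _) _))
  refine hfin.trans ?_
  push_cast
  have hHr : 0 ≤ (R : ℝ) ^ (n + 1) := by positivity
  have : δ0 * (R : ℝ) ^ (n + 1) ≤ δ * (R : ℝ) ^ (n + 1) := mul_le_mul_of_nonneg_right hδ0δ hHr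
  nlinarith

end Pool.Agent.NH16.CD
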