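import Pool.Agent.NH16.CD.Stm
import Pool.Agent.NH16.BT.FLI

set_option autoImplicit false
set_option linter.unusedSectionVars false
set_option linter.unusedVariables false

/-!
# CD1: correlations of the sieve weight at the forms `u i * q + 1` along the residue classes modulo `Wn w` (helper47)
-/

namespace Pool.Agent.NH16.CD.FLD

open Finset Filter Topology
open scoped BigOperators
open Pool.Agent.NH16.DL Pool.Agent.NH16.SM Pool.Agent.NH16.BT Pool.Agent.NH16.CD
open Pool.Agent.NH16.BT.FLI (cop fac_z_nonneg Lz Lz_nonneg Lz_le Lz_ge)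

/-- the classes to be avoided -/
def Rt {m : ℕ} (w c : ℕ) (a : Fin m → Bool) (u : Fin m → ℕ) (p n : ℕ) : Prop :=
  ∃ i, a i = true ∧ p ∣ u i * (c + Wn w * (n + (p - 1))) + 1

lemma Rt_mod {m : ℕ} (w c : ℕ) (a : Fin m → Bool) (u : Fin m → ℕ) (p n : ℕ) :
    Rt w c a u p (n % p) ↔ Rt w c a u p n := by
  unfold Rt
  refine exists_congr fun i => and_congr_right fun _ => ?_
  rw [← Nat.modEq_zero_iff_dvd, ← Nat.modEq_zero_iff_dvd]
  have h : u i * (c + Wn w * (n % p + (p - 1))) + 1 ≡ u i * (c + Wn w * (n + (p - 1))) + 1 [MOD p] :=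
    (((((Nat.mod_modEq n p).add_right _).mul_left _).add_left _).mul_left _).add_right _
  exact ⟨fun h1 => h.symm.trans h1, fun h1 => h.trans h1⟩

lemma Rt_succ {m : ℕ} (w c : ℕ) (a : Fin m → Bool) (u : Fin m → ℕ) {p : ℕ} (hp : 0 < p) (n : ℕ) :
    Rt w c a u p (n + 1) ↔ ∃ i, a i = true ∧ p ∣ u i * (c + Wn w * n) + 1 := by
  unfold Rt
  refine exists_congr fun i => and_congr_right fun _ => ?_
  have e : u i * (c + Wn w * (n + 1 + (p - 1))) + 1 =
      (u i * (c + Wn w * n) + 1) + p * (u i * Wn w) := by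
    obtain ⟨k, rfl⟩ : ∃ k, p = k + 1 := ⟨p - 1, by omega⟩
    rw [Nat.add_sub_cancel]
    ring
  rw [e]
  exact (Nat.dvd_add_iff_left (dvd_mul_right p (u i * Wn w))).symm

open Classical in
/-- number of classes to be avoided -/
noncomputable def zt {m : ℕ} (w c : ℕ) (a : Fin m → Bool) (u : Fin m → ℕ) (p : ℕ) : ℕ :=
  ((range p).filter (fun t => Rt w c a u p t)).card

lemma class_le' (c v : ℕ) {w p : ℕ} (hp : p.Prime) (h : w < p) :
    ((range p).filter (fun t => p ∣ v * (c + Wn w * (t + (p - 1))) + 1)).card ≤ 1 := by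
  rw [card_le_one]
  intro x hx y hy
  rw [mem_filter, mem_range] at hx hy
  by_cases hv : p ∣ v
  · exfalso
    have := (Nat.dvd_add_right (hv.mul_right (c + Wn w * (x + (p - 1))))).1 hx.2
    exact hp.one_lt.ne' (Nat.dvd_one.1 this)
  have hcv : Nat.gcd p v = 1 := (Nat.Prime.coprime_iff_not_dvd hp).2 hv
  have h1 : v * (c + Wn w * (x + (p - 1))) + 1 ≡ v * (c + Wn w * (y + (p - 1))) + 1 [MOD p] :=
    ((Nat.modEq_zero_iff_dvd).2 hx.2).trans ((Nat.modEq_zero_iff_dvd).2 hy.2).symm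
  have h1' := Nat.ModEq.cancel_left_of_coprime hcv (Nat.ModEq.add_right_cancel' 1 h1)
  have h2 := Nat.ModEq.cancel_left_of_coprime (cop hp h) (Nat.ModEq.add_left_cancel' c h1')
  have h3 : x ≡ y [MOD p] := Nat.ModEq.add_right_cancel' _ h2
  exact h3.eq_of_lt_of_lt hx.1 hy.1

lemma zt_le {m : ℕ} {w : ℕ} (c : ℕ) (a : Fin m → Bool) (u : Fin m → ℕ) {p : ℕ} (hp : p.Prime)
    (h : w < p) : zt w c a u p ≤ tb a := by
  classical
  unfold zt tb
  have h1 : (range p).filter (fun t => Rt w c a u p t) ⊆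
      (univ.filter (fun i => a i = true)).biUnion
        (fun i => (range p).filter (fun t => p ∣ u i * (c + Wn w * (t + (p - 1))) + 1)) := by
    intro t ht
    rw [mem_filter] at ht
    obtain ⟨h1, i, h3, h4⟩ := ht
    rw [mem_biUnion]
    exact ⟨i, by rw [mem_filter]; exact ⟨mem_univ _, h3⟩, by rw [mem_filter]; exact ⟨h1, h4⟩⟩
  refine (card_le_card h1).trans (card_biUnion_le.trans ?_)
  calc _ ≤ ∑ _i ∈ univ.filter (fun i => a i = true), 1 := sum_le_sum fun i _ => class_le' _ _ hp h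
    _ = _ := by simp

lemma zt_eq {m : ℕ} {w : ℕ} (c : ℕ) (a : Fin m → Bool) (u : Fin m → ℕ) {p : ℕ} (hp : p.Prime)
    (h : w < p) (hu : ∀ i, ¬ p ∣ u i)
    (hd : ∀ i j, i ≠ j → ¬ p ∣ Nat.dist (u i) (u j)) : zt w c a u p = tb a := by
  classical
  refine le_antisymm (zt_le c a u hp h) ?_
  have hne : NeZero p := ⟨hp.ne_zero⟩
  have hfact : Fact p.Prime := ⟨hp⟩
  have hW0 : ((Wn w : ℕ) : ZMod p) ≠ 0 := by
    rw [Ne, ZMod.natCast_eq_zero_iff]
    exact not_dvd_Wn hp h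
  have hu0 : ∀ i, ((u i : ℕ) : ZMod p) ≠ 0 := by
    intro i
    rw [Ne, ZMod.natCast_eq_zero_iff]
    exact hu i
  have hp1 : ((p - 1 : ℕ) : ZMod p) = -1 := by
    rw [Nat.cast_sub hp.one_lt.le, ZMod.natCast_self]
    simp
  have hroot : ∀ i, ∃ t, t < p ∧ p ∣ u i * (c + Wn w * (t + (p - 1))) + 1 := by
    intro i
    refine ⟨((-(1 / ((u i : ℕ) : ZMod p)) - (c : ZMod p)) / ((Wn w : ℕ) : ZMod p) + 1).val,
      ZMod.val_lt _, ?_⟩
    rw [← ZMod.natCast_eq_zero_iff, Nat.cast_add, Nat.cast_mul, Nat.cast_add, Nat.cast_mul,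
      Nat.cast_add, hp1, ZMod.natCast_zmod_val, Nat.cast_one]
    have h1 := hu0 i
    field_simp
    ring
  choose t ht1 ht2 using hroot
  unfold zt tb
  refine card_le_card_of_injOn t ?_ ?_
  · intro i hi
    rw [coe_filter, Set.mem_ofPred_eq] at hi
    rw [coe_filter, Set.mem_ofPred_eq, mem_range]
    exact ⟨ht1 i, i, hi.2, ht2 i⟩
  · intro i _ j _ hij
    by_contra hne'
    have h1 := ht2 i
    have h2 := ht2 j
    rw [← hij] at h2
    set X := c + Wn w * (t i + (p - 1)) with hX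
    -- `p` does not divide `X`
    have hXp : ¬ p ∣ X := fun hdX => by
      have := (Nat.dvd_add_right (hdX.mul_left (u i))).1 h1
      exact hp.one_lt.ne' (Nat.dvd_one.1 this)
    refine hd i j hne' ?_
    rcases le_total (u i) (u j) with hle | hle
    · rw [Nat.dist_eq_sub_of_le hle]
      have := Nat.dvd_sub h2 h1
      have e : u j * X + 1 - (u i * X + 1) = (u j - u i) * X := by
        rw [Nat.add_sub_add_right, Nat.sub_mul]
      rw [e] at this
      exact (hp.dvd_mul.1 this).resolve_right hXp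
    · rw [Nat.dist_eq_sub_of_le_right hle]
      have := Nat.dvd_sub h1 h2
      have e : u i * X + 1 - (u j * X + 1) = (u i - u j) * X := by
        rw [Nat.add_sub_add_right, Nat.sub_mul]
      rw [e] at this
      exact (hp.dvd_mul.1 this).resolve_right hXp

lemma zt_le_self {m : ℕ} (w c : ℕ) (a : Fin m → Bool) (u : Fin m → ℕ) (p : ℕ) :
    zt w c a u p ≤ p := by
  classical
  unfold zt
  exact (card_filter_le _ _).trans (card_range p).le

/-- the product at a point of the class -/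
lemma pt_eq {m : ℕ} {w y : ℕ} (c : ℕ) (a : Fin m → Bool) (u : Fin m → ℕ) (t : ℕ) :
    (∏ i, if a i = true then gy w y (u i * (c + Wn w * t) + 1) else 1) = (Vv w / Vv y) ^ tb a *
      (open Classical in
        if ∀ p ∈ (PP y).filter (fun p => w < p), ¬ Rt w c a u p (t + 1) then 1 else 0) := by
  classical
  have hps : (∏ i, if a i = true then gy w y (u i * (c + Wn w * t) + 1) else 1) =
      ∏ i ∈ univ.filter (fun i => a i = true), gy w y (u i * (c + Wn w * t) + 1) := by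
    rw [prod_filter]
  have hpp : ∀ p ∈ (PP y).filter (fun p => w < p), 0 < p := fun p hp =>
    (mem_PP.1 (mem_filter.1 hp).1).1.pos
  by_cases h : ∀ p ∈ (PP y).filter (fun p => w < p), ¬ Rt w c a u p (t + 1)
  · rw [if_pos h, mul_one, hps]
    unfold tb
    rw [← prod_const]
    refine prod_congr rfl fun i hi => ?_
    unfold gy
    rw [if_pos]
    intro p hp hd
    exact h p hp ((Rt_succ w c a u (hpp p hp) t).2 ⟨i, (mem_filter.1 hi).2, hd⟩)
  · rw [if_neg h, mul_zero, hps]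
    push Not at h
    obtain ⟨p, hp, hR⟩ := h
    rw [Rt_succ w c a u (hpp p hp)] at hR
    obtain ⟨i, h1, h2⟩ := hR
    refine prod_eq_zero (mem_filter.2 ⟨mem_univ i, h1⟩) ?_
    unfold gy
    rw [if_neg]
    intro hcon
    exact hcon p hp h2

theorem fl_prog (m : ℕ) : ∃ C0 K0 : ℕ, 1 ≤ C0 ∧ 1 ≤ K0 ∧ ∀ b : ℕ, C0 ≤ b → ∀ y : ℕ, 2 ≤ y →
    ∀ w : ℕ, w ≤ y → ∀ T : ℕ, 1 ≤ T → ∀ (c : ℕ) (a : Fin m → Bool) (u : Fin m → ℕ),
    |𝔼 t : Fin T, ∏ i, (if a i = true then gy w y (u i * (c + Wn w * t) + 1) else 1) -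
      Lz w y (tb a) (zt w c a u)| ≤
      (1 / 2 : ℝ) ^ b * Lz w y (tb a) (zt w c a u) + (Vv w / Vv y) ^ m * (Er C0 K0 b y / T) := by
  classical
  obtain ⟨C0, K0, hC0, hK0, h⟩ := Pool.Agent.TH892.SW.fl_set m
  refine ⟨C0, K0, hC0, hK0, fun b hb y hy w hwy T hT c a u => ?_⟩
  have hTp : (0 : ℝ) < T := by exact_mod_cast hT
  set S := (PP y).filter (fun p => w < p) with hSdef
  set Pr : ℝ := ∏ p ∈ S, (1 - (zt w c a u p : ℝ) / p) with hPr
  set Λ : ℝ := (Vv w / Vv y) ^ tb a with hΛ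
  have hr1 : 1 ≤ Vv w / Vv y := by
    rw [one_le_div (Vv_pos y)]
    exact Vv_anti hwy
  have hΛ0 : 0 ≤ Λ := by positivity
  have hΛm : Λ ≤ (Vv w / Vv y) ^ m := pow_le_pow_right₀ hr1 (tb_le a)
  have key : |(((Icc 1 T).filter (fun n => ∀ p ∈ S, ¬ Rt w c a u p n)).card : ℝ) - T * Pr| ≤
      (1 / 2 : ℝ) ^ b * (T * Pr) + Er C0 K0 b y := by
    have h1 := h b hb y hy T S (fun p t => Rt w c a u p t) (fun p hp => by
      rw [hSdef, mem_filter, mem_PP] at hp
      refine ⟨hp.1.1, hp.1.2, ?_⟩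
      have := (zt_le c a u hp.1.1 hp.2).trans (tb_le a)
      unfold zt at this
      convert this)
    have e1 : (Icc 1 T).filter (fun n => ∀ p ∈ S, ¬ Rt w c a u p n) =
        (Icc 1 T).filter (fun n => ∀ p ∈ S, ¬ Rt w c a u p (n % p)) := by
      refine filter_congr fun n _ => ?_
      simp only [Rt_mod]
    rw [e1]
    unfold Er
    rw [hPr]
    unfold zt
    convert h1
  have hmean : 𝔼 t : Fin T, ∏ i, (if a i = true then gy w y (u i * (c + Wn w * t) + 1) else 1) =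
      Λ * (((Icc 1 T).filter (fun n => ∀ p ∈ S, ¬ Rt w c a u p n)).card : ℝ) / T := by
    rw [Fintype.expect_eq_sum_div_card, Fintype.card_fin]
    congr 1
    rw [Fin.sum_univ_eq_sum_range
      (fun t => ∏ i, (if a i = true then gy w y (u i * (c + Wn w * t) + 1) else 1)) T]
    have e1 : ∑ t ∈ range T, ∏ i, (if a i = true then gy w y (u i * (c + Wn w * t) + 1) else 1) =
        ∑ t ∈ range T, Λ * (if ∀ p ∈ S, ¬ Rt w c a u p (t + 1) then 1 else 0) :=
      sum_congr rfl fun t _ => pt_eq c a u t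
    rw [e1, ← mul_sum]
    congr 1
    rw [range_eq_Ico, sum_Ico_add' (fun n => (if ∀ p ∈ S, ¬ Rt w c a u p n then (1 : ℝ) else 0)) 0 T 1,
      ← sum_filter, sum_const, nsmul_eq_mul, mul_one]
    congr 2
  have hL : Lz w y (tb a) (zt w c a u) = Λ * Pr := rfl
  rw [hmean, hL]
  set Cc : ℝ := (((Icc 1 T).filter (fun n => ∀ p ∈ S, ¬ Rt w c a u p n)).card : ℝ) with hC
  have e : Λ * Cc / T - Λ * Pr = Λ * (Cc - T * Pr) / T := by field_simp
  rw [e, abs_div, abs_mul, abs_of_nonneg hΛ0, abs_of_pos hTp]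
  calc Λ * |Cc - T * Pr| / T ≤ Λ * ((1 / 2 : ℝ) ^ b * (T * Pr) + Er C0 K0 b y) / T := by
        refine div_le_div_of_nonneg_right (mul_le_mul_of_nonneg_left key hΛ0) hTp.le
    _ = (1 / 2 : ℝ) ^ b * (Λ * Pr) + Λ * (Er C0 K0 b y / T) := by
        field_simp
    _ ≤ _ := by
        have h4 : Λ * (Er C0 K0 b y / T) ≤ (Vv w / Vv y) ^ m * (Er C0 K0 b y / T) :=
          mul_le_mul_of_nonneg_right hΛm (div_nonneg (Er_nonneg _ _ _ _) hTp.le)
        linarith

/-- the mean values -/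
theorem mean_ev (M : ℕ) : ∃ C : ℕ, 1 ≤ C ∧ ∀ b : ℕ, C ≤ b → (2 ≤ b) ∧ ∀ η : ℝ, 0 < η → ∀ w : ℕ,
    ∀ᶠ N : ℕ in atTop, w ≤ yx C b N ∧ ∀ m ≤ M, ∀ (c : ℕ) (a : Fin m → Bool) (u : Fin m → ℕ),
      |𝔼 t : Fin (N / Wn w), ∏ i,
          (if a i = true then gy w (yx C b N) (u i * (c + Wn w * t) + 1) else 1) -
        Lz w (yx C b N) (tb a) (zt w c a u)| ≤
        (1 / 2 : ℝ) ^ b * Lz w (yx C b N) (tb a) (zt w c a u) + η := by
  choose C0 K0 hC0 hK0 h using fl_prog
  set C := ∑ m ∈ range (M + 1), C0 m + 2 with hC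
  have hCm : ∀ m ≤ M, C0 m ≤ C := fun m hm =>
    (single_le_sum (f := C0) (fun _ _ => Nat.zero_le _) (mem_range.2 (by omega))).trans
      (Nat.le_add_right _ _)
  refine ⟨C, by omega, fun b hb => ⟨by omega, fun η hη w => ?_⟩⟩
  have hVw := Vv_pos w
  have hWp : (0 : ℝ) < Wn w := by exact_mod_cast Wn_pos w
  have h1 : ∀ m ∈ range (M + 1), ∀ᶠ N : ℕ in atTop, ∀ (c : ℕ) (a : Fin m → Bool) (u : Fin m → ℕ),
      |𝔼 t : Fin (N / Wn w), ∏ i,
          (if a i = true then gy w (yx C b N) (u i * (c + Wn w * t) + 1) else 1) -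
        Lz w (yx C b N) (tb a) (zt w c a u)| ≤
        (1 / 2 : ℝ) ^ b * Lz w (yx C b N) (tb a) (zt w c a u) + η := by
    intro m hm
    rw [mem_range] at hm
    have hlim := log_pow_div m (4 * (K0 m : ℝ) * Wn w)
    have hVy := (yx_tendsto C b).eventually Vv_bounds
    filter_upwards [hlim.eventually (gt_mem_nhds hη), hVy,
      yx_log C b, eventually_ge_atTop 3, (yx_tendsto C b).eventually_ge_atTop 3,
      (yx_tendsto C b).eventually_ge_atTop w, eventually_ge_atTop (2 * Wn w)]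
      with x hx hV hl hx2 hy3 hwy hxW c a u
    have hxp : (0 : ℝ) < x := by exact_mod_cast (by omega : 0 < x)
    have hx1 : (1 : ℝ) ≤ x := by exact_mod_cast (by omega : 1 ≤ x)
    set y := yx C b x with hy
    have hlog0 : 0 ≤ Real.log x := Real.log_nonneg hx1
    have hke1 : ke C b ≤ 1 := by
      unfold ke
      rw [div_le_one (by positivity)]
      have : (0 : ℝ) ≤ 4 * (C : ℝ) * b := by positivity
      linarith
    have k1 : (Vv w / Vv y) ^ m ≤ (4 * Real.log x) ^ m := by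
      refine pow_le_pow_left₀ (div_pos hVw (Vv_pos y)).le ?_ m
      have h5 : Vv w / Vv y ≤ (Vv y)⁻¹ := by
        rw [div_eq_mul_inv]
        have := mul_le_mul_of_nonneg_right (Vv_le_one w) (inv_nonneg.2 (Vv_pos y).le)
        rwa [one_mul] at this
      have : Real.log y ≤ Real.log x := hl.2.trans (by nlinarith)
      linarith [hV.2]
    have hy1 : (1 : ℝ) ≤ y := by exact_mod_cast (by omega : 1 ≤ y)
    have k2 : Er (C0 m) (K0 m) b y ≤ 2 * K0 m * (x : ℝ) ^ (1 / 2 : ℝ) := by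
      unfold Er
      have j1 : ((Pool.Agent.W41.JJ y : ℝ) + 2) ≤ 2 * y := by
        exact_mod_cast Pool.Agent.W41.JJ_small y hy3
      have j2 : (y : ℝ) ^ (2 * (C0 m * b)) ≤ (y : ℝ) ^ (2 * (C * b)) :=
        pow_le_pow_right₀ hy1 (Nat.mul_le_mul_left 2 (Nat.mul_le_mul_right b (hCm m (by omega))))
      have j3 : (y : ℝ) ^ (4 * (C * b) + 1) ≤ (x : ℝ) ^ (1 / 2 : ℝ) := by
        calc (y : ℝ) ^ (4 * (C * b) + 1) ≤ ((x : ℝ) ^ ke C b) ^ (4 * (C * b) + 1) :=
              pow_le_pow_left₀ (by linarith) yx_le _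
          _ = (x : ℝ) ^ (1 / 2 : ℝ) := by
              rw [← Real.rpow_natCast, ← Real.rpow_mul hxp.le]
              congr 1
              unfold ke
              push_cast
              field_simp
      calc _ ≤ (2 * y) * ((y : ℝ) ^ (2 * (C * b)) * (K0 m * (y : ℝ) ^ (2 * (C * b)))) := by
            gcongr
        _ = 2 * K0 m * (y : ℝ) ^ (4 * (C * b) + 1) := by
            rw [pow_succ, show 4 * (C * b) = 2 * (C * b) + 2 * (C * b) by ring, pow_add]
            ring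
        _ ≤ _ := mul_le_mul_of_nonneg_left j3 (by positivity)
    -- the number of terms
    have hT1 : 1 ≤ x / Wn w := by
      rw [Nat.one_le_div_iff (Wn_pos w)]
      omega
    have hT2 : (x : ℝ) / (2 * Wn w) ≤ ((x / Wn w : ℕ) : ℝ) := by
      rw [div_le_iff₀ (by positivity)]
      have h3 : x < (x / Wn w + 1) * Wn w := by
        have := Nat.lt_div_mul_add (a := x) (Wn_pos w)
        linarith
      have h4 : (x : ℝ) < ((x / Wn w : ℕ) + 1) * Wn w := by exact_mod_cast h3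
      have h5 : (1 : ℝ) ≤ ((x / Wn w : ℕ) : ℝ) := by exact_mod_cast hT1
      nlinarith
    have hTp : (0 : ℝ) < ((x / Wn w : ℕ) : ℝ) := by exact_mod_cast hT1
    have key := h m b ((hCm m (by omega)).trans hb) y (by omega) w hwy (x / Wn w) hT1 c a u
    refine key.trans (add_le_add le_rfl ?_)
    calc (Vv w / Vv y) ^ m * (Er (C0 m) (K0 m) b y / ((x / Wn w : ℕ) : ℝ)) ≤
          (4 * Real.log x) ^ m * (2 * K0 m * (x : ℝ) ^ (1 / 2 : ℝ) / ((x : ℝ) / (2 * Wn w))) := by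
          refine mul_le_mul k1 (div_le_div₀ (by positivity) k2 (by positivity) hT2) ?_ (by positivity)
          exact div_nonneg (Er_nonneg _ _ _ _) hTp.le
      _ = (4 * Real.log x) ^ m * (4 * (K0 m : ℝ) * Wn w * (x : ℝ) ^ (1 / 2 : ℝ)) / x := by
          field_simp
          ring
      _ ≤ η := hx.le
  have h2 := (eventually_all_finset (range (M + 1))).2 h1
  filter_upwards [h2, (yx_tendsto C b).eventually_ge_atTop w] with x hx hxw
  exact ⟨hxw, fun m hm => hx m (mem_range.2 (by omega))⟩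

theorem main : S_FLD := by
  intro M
  obtain ⟨C, hC, h⟩ := mean_ev M
  refine ⟨C, hC, fun b hb η hη w hw => ?_⟩
  obtain ⟨hb2, h⟩ := h b hb
  have hb0 : 0 ≤ (1 / 2 : ℝ) ^ b := by positivity
  have hθ : 4 * (1 / 2 : ℝ) ^ b ≤ 1 := by
    calc 4 * (1 / 2 : ℝ) ^ b ≤ 4 * (1 / 2 : ℝ) ^ 2 :=
          mul_le_mul_of_nonneg_left (pow_le_pow_of_le_one (by norm_num) (by norm_num) hb2) (by norm_num)
      _ = 1 := by norm_num
  have hθ0 : 0 ≤ 4 * (1 / 2 : ℝ) ^ b := by positivity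
  filter_upwards [h η hη w] with N hN m hm a u D c hD hu1 huD hdist
  obtain ⟨hwy, hN⟩ := hN
  set y := yx C b N with hy
  have hm1 := hN m hm c a u
  rw [abs_le] at hm1
  have hL0 := Lz_nonneg (w := w) (y := y) (tb a) (zt w c a u) (zt_le_self w c a u)
  set X := 𝔼 t : Fin (N / Wn w), ∏ i,
    (if a i = true then gy w y (u i * (c + Wn w * t) + 1) else 1) with hX
  set Lw := Lz w y (tb a) (zt w c a u) with hLw
  have hX0 : 0 ≤ X := by
    rw [hX, Fintype.expect_eq_sum_div_card]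
    refine div_nonneg (sum_nonneg fun n _ => prod_nonneg fun i _ => ?_) (Nat.cast_nonneg _)
    split_ifs
    exacts [gy_nonneg _ _ _, zero_le_one]
  have hle : (1 / 2 : ℝ) ^ b * Lw ≤ 4 * (1 / 2 : ℝ) ^ b * Lw :=
    mul_le_mul_of_nonneg_right (by linarith) hL0
  constructor
  · rcases le_or_gt m w with hmw | hmw
    · have h1 : 1 - (m : ℝ) ^ 2 / w ≤ Lw :=
        Lz_ge hwy hw hmw (tb_le a) (zt w c a u) fun p hp hwp => zt_le c a u hp hwp
      have h2 : (1 - 4 * (1 / 2 : ℝ) ^ b) * (1 - (m : ℝ) ^ 2 / w) ≤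
          (1 - 4 * (1 / 2 : ℝ) ^ b) * Lw :=
        mul_le_mul_of_nonneg_left h1 (by linarith)
      linarith [hm1.1]
    · have hwp : (0 : ℝ) < w := by exact_mod_cast hw
      have h1 : (1 : ℝ) ≤ (m : ℝ) ^ 2 / w := by
        rw [le_div_iff₀ hwp]
        have : (w : ℝ) ≤ m := by exact_mod_cast hmw.le
        have h3 : (1 : ℝ) ≤ m := by exact_mod_cast (by omega : 1 ≤ m)
        nlinarith
      have h2 : (1 - 4 * (1 / 2 : ℝ) ^ b) * (1 - (m : ℝ) ^ 2 / w) ≤ 0 :=
        mul_nonpos_of_nonneg_of_nonpos (by linarith) (by linarith)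
      linarith
  · have h1 : Lw ≤ sg w (3 ^ m) D := by
      refine Lz_le hwy (tb_le a) (zt w c a u) (zt_le_self w c a u) hD fun p hp hwp hpD => ?_
      refine zt_eq c a u hp hwp (fun i hi => hpD (huD p hp hwp i hi)) fun i j hij hd => ?_
      exact hpD (hdist p hp hwp i j hij hd)
    have h2 : (1 + 4 * (1 / 2 : ℝ) ^ b) * Lw ≤ (1 + 4 * (1 / 2 : ℝ) ^ b) * sg w (3 ^ m) D :=
      mul_le_mul_of_nonneg_left h1 (by linarith)
    linarith [hm1.2]

end Pool.Agent.NH16.CD.FLD
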