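import Pool.Agent.NH16.CD.Stm

set_option autoImplicit false

/-!
# Averages over the positions of a residue class
-/

namespace Pool.Agent.NH16.CD.PD

open Finset Filter
open scoped BigOperators
open Pool.Agent.NH16.DL Pool.Agent.NH16.SM Pool.Agent.NH16.BT

/-! ### counting -/

lemma cnt_cop {q c : ℕ} (hq : 0 < q) (hc : Nat.Coprime c q) :
    ((range q).filter (fun n => Nat.Coprime (c * n + 1) q)).card = Nat.totient q := by
  classical
  have hinj : Set.InjOn (fun n => (c * n + 1) % q) (range q : Finset ℕ) := by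
    intro a ha b hb hab
    rw [coe_range, Set.mem_Iio] at ha hb
    have h1 : c * a + 1 ≡ c * b + 1 [MOD q] := hab
    have h2 : c * a ≡ c * b [MOD q] := Nat.ModEq.add_right_cancel' 1 h1
    have h3 : a ≡ b [MOD q] := Nat.ModEq.cancel_left_of_coprime (Nat.Coprime.symm hc) h2
    exact Nat.ModEq.eq_of_lt_of_lt h3 ha hb
  have himg : (range q).image (fun n => (c * n + 1) % q) = range q := by
    apply eq_of_subset_of_card_le
    · intro m hm
      rw [mem_image] at hm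
      obtain ⟨n, -, rfl⟩ := hm
      exact mem_range.2 (Nat.mod_lt _ hq)
    · rw [card_image_of_injOn hinj]
  have hcop : ∀ n, Nat.Coprime (c * n + 1) q ↔ Nat.Coprime q ((c * n + 1) % q) := by
    intro n
    unfold Nat.Coprime
    rw [Nat.gcd_comm q ((c * n + 1) % q), ← Nat.gcd_rec, Nat.gcd_comm q (c * n + 1)]
  rw [Nat.totient_eq_card_coprime]
  refine card_bij (fun n _ => (c * n + 1) % q) ?_ ?_ ?_
  · intro n hn
    rw [mem_filter] at hn ⊢
    exact ⟨mem_range.2 (Nat.mod_lt _ hq), (hcop n).1 hn.2⟩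
  · intro a ha b hb hab
    exact hinj (mem_coe.2 (mem_filter.1 ha).1) (mem_coe.2 (mem_filter.1 hb).1) hab
  · intro m hm
    rw [mem_filter, ← himg, mem_image] at hm
    obtain ⟨⟨n, hn, rfl⟩, h2⟩ := hm
    exact ⟨n, mem_filter.2 ⟨hn, (hcop n).2 h2⟩, rfl⟩

/-- the product of the primes up to `w` not dividing `c` -/
def Wc (w c : ℕ) : ℕ := ∏ p ∈ (PP w).filter (fun p => ¬ p ∣ c), p

/-- the density -/
noncomputable def Vc (w c : ℕ) : ℝ := ∏ p ∈ (PP w).filter (fun p => ¬ p ∣ c), (1 - 1 / (p : ℝ))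

lemma Wc_pos (w c : ℕ) : 0 < Wc w c :=
  prod_pos fun _ hp => (mem_PP.1 (mem_filter.1 hp).1).1.pos

lemma Wc_le (w c : ℕ) : Wc w c ≤ Wn w :=
  Nat.le_of_dvd (Wn_pos w) (prod_dvd_prod_of_subset _ _ _ (filter_subset _ _))

lemma Wc_cop (w c : ℕ) : Nat.Coprime c (Wc w c) := by
  unfold Wc
  refine Nat.Coprime.prod_right fun p hp => ?_
  rw [mem_filter] at hp
  exact ((mem_PP.1 hp.1).1.coprime_iff_not_dvd.2 hp.2).symm

lemma cond_iff (w c n : ℕ) : (∀ p ∈ PP w, ¬ p ∣ c * n + 1) ↔ Nat.Coprime (c * n + 1) (Wc w c) := by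
  constructor
  · intro h
    unfold Wc
    refine Nat.Coprime.prod_right fun p hp => ?_
    rw [mem_filter] at hp
    exact ((mem_PP.1 hp.1).1.coprime_iff_not_dvd.2 (h p hp.1)).symm
  · intro h p hp hpd
    have hpp := (mem_PP.1 hp).1
    have h1 : ¬ p ∣ c := by
      intro h2
      have h3 : p ∣ 1 := (Nat.dvd_add_right (h2.mul_right n)).1 hpd
      exact hpp.one_lt.ne' (Nat.dvd_one.1 h3)
    have h2 : p ∣ Wc w c := dvd_prod_of_mem _ (mem_filter.2 ⟨hp, h1⟩)
    have h3 : p ∣ 1 := by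
      rw [← h]
      exact Nat.dvd_gcd hpd h2
    exact hpp.one_lt.ne' (Nat.dvd_one.1 h3)

lemma tot_Wc (w c : ℕ) : (Nat.totient (Wc w c) : ℝ) = Wc w c * Vc w c := by
  have h0 : (Wc w c).primeFactors = (PP w).filter (fun p => ¬ p ∣ c) :=
    Nat.primeFactors_prod fun p hp => (mem_PP.1 (mem_filter.1 hp).1).1
  have h3 := congrArg (fun x : ℚ => (x : ℝ)) (Nat.totient_eq_mul_prod_factors (Wc w c))
  simp only [Rat.cast_mul, Rat.cast_natCast, Rat.cast_prod, Rat.cast_sub, Rat.cast_one,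
    Rat.cast_inv, h0] at h3
  rw [h3, Vc]
  congr 1
  exact prod_congr rfl fun p _ => by rw [one_div]

/-- number of the good `n` up to `N` -/
def cn (w c N : ℕ) : ℕ := ((Icc 1 N).filter (fun n => Nat.Coprime (c * n + 1) (Wc w c))).card

lemma cn_mono (w c : ℕ) {N N' : ℕ} (h : N ≤ N') : cn w c N ≤ cn w c N' :=
  card_le_card (filter_subset_filter _ (Icc_subset_Icc le_rfl h))

lemma cn_mul (w c a : ℕ) : cn w c (Wc w c * a) = a * Nat.totient (Wc w c) := by
  have hq := Wc_pos w c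
  have hper : Function.Periodic (fun n => Nat.Coprime (c * n + 1) (Wc w c)) (Wc w c) := by
    intro n
    have e : c * (n + Wc w c) + 1 = (c * n + 1) + Wc w c * c := by ring
    show Nat.Coprime (c * (n + Wc w c) + 1) (Wc w c) = Nat.Coprime (c * n + 1) (Wc w c)
    rw [e]
    exact propext (Nat.coprime_add_mul_left_left _ _ _)
  induction a with
  | zero => simp [cn]
  | succ a ih =>
    have h1 : Icc 1 (Wc w c * (a + 1)) = Icc 1 (Wc w c * a) ∪
        Ico (Wc w c * a + 1) (Wc w c * a + 1 + Wc w c) := by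
      ext n
      rw [mem_union, mem_Icc, mem_Icc, mem_Ico, mul_add, mul_one]
      omega
    have h2 : Disjoint (Icc 1 (Wc w c * a)) (Ico (Wc w c * a + 1) (Wc w c * a + 1 + Wc w c)) := by
      rw [disjoint_left]
      intro n hn hn'
      rw [mem_Icc] at hn
      rw [mem_Ico] at hn'
      omega
    unfold cn at ih ⊢
    rw [h1, filter_union, card_union_of_disjoint (disjoint_filter_filter h2), ih,
      Nat.filter_Ico_card_eq_of_periodic _ _ _ hper, Nat.count_eq_card_filter_range,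
      cnt_cop hq (Wc_cop w c), add_mul, one_mul]

lemma card_psn (w R c : ℕ) : (psn w R c).card = cn w c R := by
  unfold psn cn
  refine card_bij (fun s _ => vl s) ?_ ?_ ?_
  · intro s hs
    rw [mem_filter] at hs ⊢
    exact ⟨mem_Icc.2 ⟨vl_pos s, vl_le s⟩, (cond_iff w c _).1 hs.2⟩
  · intro a _ b _ h
    exact vl_inj h
  · intro n hn
    rw [mem_filter, mem_Icc] at hn
    have e : vl (⟨n - 1, by omega⟩ : Fin R) = n := by
      unfold vl
      simp only
      omega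
    refine ⟨⟨n - 1, by omega⟩, mem_filter.2 ⟨mem_univ _, ?_⟩, e⟩
    rw [e]
    exact (cond_iff w c _).2 hn.2

lemma Vc_ge (w c : ℕ) : Vv w ≤ Vc w c := by
  have h1 : Vc w c * ∏ p ∈ (PP w).filter (fun p => p ∣ c), (1 - 1 / (p : ℝ)) = Vv w := by
    unfold Vc Vv
    rw [mul_comm, prod_filter_mul_prod_filter_not]
  have h2 : 0 ≤ Vc w c := prod_nonneg fun p hp => (fac_pos (mem_PP.1 (mem_filter.1 hp).1).1).le
  rw [← h1]
  exact mul_le_of_le_one_right h2 (prod_le_one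
    (fun p hp => (fac_pos (mem_PP.1 (mem_filter.1 hp).1).1).le)
    fun p hp => fac_le (mem_PP.1 (mem_filter.1 hp).1).1)

lemma psn_lower {w R c : ℕ} (hR : 2 * Wn w ≤ R) : Vv w * R / 2 ≤ ((psn w R c).card : ℝ) := by
  have hq := Wc_pos w c
  have hqW := Wc_le w c
  have h1 : (R / Wc w c) * Nat.totient (Wc w c) ≤ (psn w R c).card := by
    rw [card_psn, ← cn_mul]
    exact cn_mono w c (Nat.mul_div_le R _)
  have h2 : ((R / Wc w c : ℕ) : ℝ) * (Wc w c * Vc w c) ≤ ((psn w R c).card : ℝ) := by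
    rw [← tot_Wc]
    exact_mod_cast h1
  have h3 : (R : ℝ) - Wn w ≤ ((R / Wc w c : ℕ) : ℝ) * Wc w c := by
    have h4 : R < Wc w c * (R / Wc w c + 1) := Nat.lt_mul_div_succ R hq
    have h5 : (R : ℝ) < Wc w c * ((R / Wc w c : ℕ) + 1) := by exact_mod_cast h4
    have h6 : (Wc w c : ℝ) ≤ Wn w := by exact_mod_cast hqW
    nlinarith
  have hV := Vc_ge w c
  have hV0 := Vv_pos w
  have hR' : 2 * (Wn w : ℝ) ≤ R := by exact_mod_cast hR
  have hW0 : (0 : ℝ) ≤ Wn w := Nat.cast_nonneg _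
  calc Vv w * R / 2 ≤ Vv w * (R - Wn w) := by nlinarith
    _ ≤ Vc w c * (R - Wn w) := mul_le_mul_of_nonneg_right hV (by linarith)
    _ ≤ Vc w c * (((R / Wc w c : ℕ) : ℝ) * Wc w c) :=
        mul_le_mul_of_nonneg_left h3 (hV0.le.trans hV)
    _ = ((R / Wc w c : ℕ) : ℝ) * (Wc w c * Vc w c) := by ring
    _ ≤ _ := h2

lemma psn_upper {w R c : ℕ} (hR : Wn w ≤ R) : ((psn w R c).card : ℝ) ≤ 2 * R * Vc w c := by
  have hq := Wc_pos w c
  have hqW := Wc_le w c
  have h1 : (psn w R c).card ≤ (R / Wc w c + 1) * Nat.totient (Wc w c) := by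
    rw [card_psn, ← cn_mul]
    exact cn_mono w c (Nat.lt_mul_div_succ R hq).le
  have h2 : ((psn w R c).card : ℝ) ≤ ((R / Wc w c : ℕ) + 1) * (Wc w c * Vc w c) := by
    rw [← tot_Wc]
    exact_mod_cast h1
  have h3 : (((R / Wc w c : ℕ) : ℝ) + 1) * Wc w c ≤ 2 * R := by
    have h4 : Wc w c * (R / Wc w c) ≤ R := Nat.mul_div_le R _
    have h5 : (Wc w c : ℝ) * (R / Wc w c : ℕ) ≤ R := by exact_mod_cast h4
    have h6 : (Wc w c : ℝ) ≤ R := by exact_mod_cast hqW.trans hR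
    nlinarith
  have hV := (Vv_pos w).le.trans (Vc_ge w c)
  calc ((psn w R c).card : ℝ) ≤ ((R / Wc w c : ℕ) + 1) * (Wc w c * Vc w c) := h2
    _ = ((((R / Wc w c : ℕ) : ℝ) + 1) * Wc w c) * Vc w c := by ring
    _ ≤ _ := mul_le_mul_of_nonneg_right h3 hV

/-- the local weights -/
noncomputable def gl (w m c : ℕ) : ℝ := ∏ p ∈ PP w, (1 + if p ∣ c then (3 : ℝ) ^ m / (p : ℝ) else 0)

lemma Vc_pow (w m c : ℕ) : Vc w c ^ m ≤ Vv w ^ m * gl w m c := by
  have h1 : Vc w c * ∏ p ∈ (PP w).filter (fun p => p ∣ c), (1 - 1 / (p : ℝ)) = Vv w := by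
    unfold Vc Vv
    rw [mul_comm, prod_filter_mul_prod_filter_not]
  have h2 : gl w m c = ∏ p ∈ (PP w).filter (fun p => p ∣ c), (1 + (3 : ℝ) ^ m / (p : ℝ)) := by
    unfold gl
    rw [prod_filter]
    refine prod_congr rfl fun p _ => ?_
    split_ifs <;> simp
  have h3 : 1 ≤ (∏ p ∈ (PP w).filter (fun p => p ∣ c), (1 - 1 / (p : ℝ))) ^ m *
      ∏ p ∈ (PP w).filter (fun p => p ∣ c), (1 + (3 : ℝ) ^ m / (p : ℝ)) := by
    rw [← prod_pow, ← prod_mul_distrib]
    calc (1 : ℝ) = ∏ _p ∈ (PP w).filter (fun p => p ∣ c), (1 : ℝ) := by simp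
      _ ≤ _ := prod_le_prod (fun _ _ => zero_le_one) fun p hp => by
        have hpp := (mem_PP.1 (mem_filter.1 hp).1).1
        have hp2 : (2 : ℝ) ≤ p := by exact_mod_cast hpp.two_le
        have hf := fac_pos hpp
        have hp0 : (0 : ℝ) < p := by linarith
        have h4 : (1 : ℝ) / p ≤ 1 := by rw [div_le_one hp0]; linarith
        have h5 := one_add_pow_le (c := 2) (by norm_num) (by positivity : (0 : ℝ) ≤ 1 / p) h4 m
        have h6 : (1 + 2 * (1 / (p : ℝ))) ^ m ≤ 1 + (3 : ℝ) ^ m / p := by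
          refine h5.trans ?_
          have e : (1 : ℝ) + 2 = 3 := by norm_num
          rw [e]
          have e2 : (3 : ℝ) ^ m / p = 1 / p * 3 ^ m := by ring
          rw [e2]
          have : 0 ≤ 1 / (p : ℝ) := by positivity
          nlinarith
        have h7 : 1 ≤ (1 - 1 / (p : ℝ)) * (1 + 2 * (1 / (p : ℝ))) := by
          have h8 : (1 : ℝ) / p ≤ 1 / 2 := by
            rw [div_le_div_iff₀ hp0 (by norm_num)]
            linarith
          have h9 : 0 ≤ 1 / (p : ℝ) := by positivity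
          nlinarith
        calc (1 : ℝ) = 1 ^ m := (one_pow m).symm
          _ ≤ ((1 - 1 / (p : ℝ)) * (1 + 2 * (1 / (p : ℝ)))) ^ m :=
              pow_le_pow_left₀ zero_le_one h7 m
          _ = (1 - 1 / (p : ℝ)) ^ m * (1 + 2 * (1 / (p : ℝ))) ^ m := mul_pow _ _ _
          _ ≤ _ := mul_le_mul_of_nonneg_left h6 (pow_nonneg hf.le m)
  have hV := (Vv_pos w).le.trans (Vc_ge w c)
  rw [← h1, h2, mul_pow, mul_assoc]
  exact le_mul_of_one_le_right (pow_nonneg hV m) h3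

lemma sum_gl (w m : ℕ) : ∑ c ∈ range (Wn w), gl w m c ≤ Wn w * Real.exp (3 ^ m) := by
  have h0 : gl w m 0 = gl w m (Wn w) := by
    unfold gl
    refine prod_congr rfl fun p hp => ?_
    rw [if_pos (dvd_zero p), if_pos ((dvd_Wn (mem_PP.1 hp).1).2 (mem_PP.1 hp).2)]
  have h1 : ∑ c ∈ range (Wn w), gl w m c = ∑ c ∈ Icc 1 (Wn w), gl w m c := by
    have h2 := sum_range_succ (fun c => gl w m c) (Wn w)
    have h3 := sum_range_succ' (fun c => gl w m c) (Wn w)
    rw [h3, ← h0] at h2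
    have h4 : ∑ c ∈ range (Wn w), gl w m (c + 1) = ∑ c ∈ Icc 1 (Wn w), gl w m c := by
      rw [range_eq_Ico, sum_Ico_add' (fun c => gl w m c) 0 (Wn w) 1]
      rfl
    linarith
  rw [h1]
  refine (sum_sg_set (c := 3 ^ m) (by positivity) (PP w) (fun p hp => (mem_PP.1 hp).1)
    (Wn w)).trans ?_
  refine mul_le_mul_of_nonneg_left ?_ (Nat.cast_nonneg _)
  have h2 := prod_exp (w := 1) le_rfl (c := 3 ^ m) (by positivity) w
  have h3 : (Ioc 1 w).filter Nat.Prime = PP w := by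
    ext p
    rw [mem_filter, mem_Ioc, mem_PP]
    exact ⟨fun h => ⟨h.2, h.1.2⟩, fun h => ⟨⟨h.1.one_lt, h.2⟩, h.1⟩⟩
  rw [h3] at h2
  simpa using h2

lemma part2 (m : ℕ) : ∃ Cm : ℝ, 0 ≤ Cm ∧ ∀ w : ℕ, 1 ≤ w → ∀ᶠ R : ℕ in atTop,
    1 / (Wn w : ℝ) * ∑ c ∈ range (Wn w), ((psn w R c).card : ℝ) ^ m ≤
      Cm * (Vv w) ^ m * (R : ℝ) ^ m := by
  refine ⟨2 ^ m * Real.exp (3 ^ m), by positivity, fun w _ => ?_⟩
  filter_upwards [eventually_ge_atTop (Wn w)] with R hR
  have hW : (0 : ℝ) < Wn w := by exact_mod_cast Wn_pos w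
  have h1 : ∑ c ∈ range (Wn w), ((psn w R c).card : ℝ) ^ m ≤
      ∑ c ∈ range (Wn w), (2 * R) ^ m * (Vv w ^ m * gl w m c) := by
    refine sum_le_sum fun c _ => ?_
    calc ((psn w R c).card : ℝ) ^ m ≤ (2 * R * Vc w c) ^ m :=
          pow_le_pow_left₀ (Nat.cast_nonneg _) (psn_upper hR) m
      _ = (2 * R) ^ m * Vc w c ^ m := mul_pow _ _ _
      _ ≤ _ := mul_le_mul_of_nonneg_left (Vc_pow w m c) (by positivity)
  have h2 := sum_gl w m
  have hV := (Vv_pos w).le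
  calc 1 / (Wn w : ℝ) * ∑ c ∈ range (Wn w), ((psn w R c).card : ℝ) ^ m
      ≤ 1 / (Wn w : ℝ) * ∑ c ∈ range (Wn w), (2 * R) ^ m * (Vv w ^ m * gl w m c) :=
        mul_le_mul_of_nonneg_left h1 (by positivity)
    _ = 1 / (Wn w : ℝ) * ((2 * R) ^ m * Vv w ^ m) * ∑ c ∈ range (Wn w), gl w m c := by
        rw [mul_sum, mul_sum]
        exact sum_congr rfl fun c _ => by ring
    _ ≤ 1 / (Wn w : ℝ) * ((2 * R) ^ m * Vv w ^ m) * (Wn w * Real.exp (3 ^ m)) :=
        mul_le_mul_of_nonneg_left h2 (by positivity)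
    _ = _ := by
        rw [mul_pow]
        field_simp

/-! ### averages -/

lemma part3 {w R c m : ℕ} (hw : 1 ≤ w) (hR : 1 ≤ R)
    (h : Vv w * R / 2 ≤ ((psn w R c).card : ℝ)) :
    𝔼 r : Fin m → psn w R c, (sg w (3 ^ m) (disc (fun i => vl (r i).1)) - 1) ≤
      (2 * (Vv w)⁻¹) ^ m * XA m w := by
  have h1 := avg_disc (R := R) (m := m) (M := m + m * m) (w := w) hR le_rfl hw (c := 3 ^ m)
    (by positivity)
  have hXA : XA m w = (m + 2 * m * m) * (Real.exp ((1 + 3 ^ m) ^ (m + m * m) / w) - 1) := rfl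
  rw [← hXA] at h1
  have h0 : ∀ n : ℕ, 0 ≤ sg w (3 ^ m) n - 1 := fun n =>
    sub_nonneg.2 (sg_one_le (by positivity) n)
  have hinj : Function.Injective (fun (r : Fin m → psn w R c) (i : Fin m) => (r i).1) := by
    intro a b hab
    funext i
    exact Subtype.ext (congrFun hab i)
  have h2 : ∑ r : Fin m → psn w R c, (sg w (3 ^ m) (disc (fun i => vl (r i).1)) - 1) ≤
      ∑ r : Fin m → Fin R, (sg w (3 ^ m) (disc (fun i => vl (r i))) - 1) := by
    rw [← sum_image (s := univ) (g := fun (r : Fin m → psn w R c) (i : Fin m) => (r i).1)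
      (f := fun r' : Fin m → Fin R => sg w (3 ^ m) (disc (fun i => vl (r' i))) - 1)
      (fun a _ b _ hab => hinj hab)]
    exact sum_le_sum_of_subset_of_nonneg (subset_univ _) fun _ _ _ => h0 _
  have hV := Vv_pos w
  have hRr : (0 : ℝ) < R := by exact_mod_cast hR
  have hXA0 : 0 ≤ XA m w := by
    refine le_trans (expect_nonneg fun r _ => h0 _) h1
  have hcard : (Fintype.card (Fin m → psn w R c) : ℝ) = ((psn w R c).card : ℝ) ^ m := by
    rw [Fintype.card_fun, Fintype.card_coe, Fintype.card_fin]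
    push_cast
    rfl
  have hcard2 : (Fintype.card (Fin m → Fin R) : ℝ) = (R : ℝ) ^ m := by
    rw [Fintype.card_fun, Fintype.card_fin, Fintype.card_fin]
    push_cast
    rfl
  have hpos : (0 : ℝ) < (psn w R c).card := lt_of_lt_of_le (by positivity) h
  rw [Fintype.expect_eq_sum_div_card, hcard2, div_le_iff₀ (by positivity)] at h1
  rw [Fintype.expect_eq_sum_div_card, hcard, div_le_iff₀ (by positivity)]
  refine h2.trans (h1.trans ?_)
  have h3 : (R : ℝ) ^ m ≤ (2 * (Vv w)⁻¹) ^ m * ((psn w R c).card : ℝ) ^ m := by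
    rw [← mul_pow]
    refine pow_le_pow_left₀ hRr.le ?_ m
    calc (R : ℝ) = 2 * (Vv w)⁻¹ * (Vv w * R / 2) := by field_simp
      _ ≤ _ := mul_le_mul_of_nonneg_left h (by positivity)
  calc XA m w * (R : ℝ) ^ m ≤ XA m w * ((2 * (Vv w)⁻¹) ^ m * ((psn w R c).card : ℝ) ^ m) :=
        mul_le_mul_of_nonneg_left h3 hXA0
    _ = _ := by ring

lemma part4 {w R c : ℕ} (hw : 1 ≤ w) (hR : 1 ≤ R)
    (h : Vv w * R / 2 ≤ ((psn w R c).card : ℝ)) :
    𝔼 s : psn w R c, 𝔼 t : psn w R c, (sg w 9 (disc ![vl s.1, vl t.1]) - 1) ^ 2 ≤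
      (2 * (Vv w)⁻¹) ^ 2 * (10 * (Real.exp (101 ^ 6 / w) - 1)) := by
  have hne : Nonempty (Fin R) := ⟨⟨0, hR⟩⟩
  have h0 : ∀ n : ℕ, 0 ≤ sg w 100 n - 1 := fun n => sub_nonneg.2 (sg_one_le (by norm_num) n)
  have h1 := avg_disc (R := R) (m := 2) (M := 6) (w := w) hR (by norm_num) hw (c := 100)
    (by norm_num)
  have e0 : ((2 : ℕ) : ℝ) + 2 * ((2 : ℕ) : ℝ) * ((2 : ℕ) : ℝ) = 10 := by norm_num
  have e1 : (1 : ℝ) + 100 = 101 := by norm_num
  rw [e0, e1] at h1
  have e2 : ∀ r : Fin 2 → Fin R, disc (fun i => vl (r i)) = disc ![vl (r 0), vl (r 1)] := by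
    intro r
    congr 1
    funext i
    fin_cases i <;> rfl
  simp only [e2] at h1
  rw [exp_two (n := 1) 0 1 (by decide) (fun s t : Fin R => sg w 100 (disc ![vl s, vl t]) - 1)] at h1
  have hsq : ∀ n : ℕ, (sg w 9 n - 1) ^ 2 ≤ sg w 100 n - 1 := by
    intro n
    have h2 : 1 ≤ sg w 9 n := sg_one_le (by norm_num) n
    have h3 := sg_pow (w := w) (c := 9) (by norm_num) 2 n
    have e : ((1 : ℝ) + 9) ^ 2 = 100 := by norm_num
    rw [e] at h3
    nlinarith
  have h2 : ∑ s : psn w R c, ∑ t : psn w R c, (sg w 9 (disc ![vl s.1, vl t.1]) - 1) ^ 2 ≤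
      ∑ s : Fin R, ∑ t : Fin R, (sg w 100 (disc ![vl s, vl t]) - 1) := by
    have h3 : ∀ s : Fin R, ∑ t : psn w R c, (sg w 100 (disc ![vl s, vl t.1]) - 1) ≤
        ∑ t : Fin R, (sg w 100 (disc ![vl s, vl t]) - 1) := by
      intro s
      rw [sum_coe_sort (psn w R c) (fun t => sg w 100 (disc ![vl s, vl t]) - 1)]
      exact sum_le_sum_of_subset_of_nonneg (subset_univ _) fun _ _ _ => h0 _
    calc ∑ s : psn w R c, ∑ t : psn w R c, (sg w 9 (disc ![vl s.1, vl t.1]) - 1) ^ 2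
        ≤ ∑ s : psn w R c, ∑ t : Fin R, (sg w 100 (disc ![vl s.1, vl t]) - 1) :=
          sum_le_sum fun s _ => (sum_le_sum fun t _ => hsq _).trans (h3 s.1)
      _ ≤ _ := by
          rw [sum_coe_sort (psn w R c) (fun s => ∑ t : Fin R, (sg w 100 (disc ![vl s, vl t]) - 1))]
          exact sum_le_sum_of_subset_of_nonneg (subset_univ _)
            fun _ _ _ => sum_nonneg fun _ _ => h0 _
  have hV := Vv_pos w
  have hRr : (0 : ℝ) < R := by exact_mod_cast hR
  have hpos : (0 : ℝ) < (psn w R c).card := lt_of_lt_of_le (by positivity) h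
  set E := 10 * (Real.exp (101 ^ 6 / w) - 1) with hE
  have hE0 : 0 ≤ E := le_trans (expect_nonneg fun s _ => expect_nonneg fun t _ => h0 _) h1
  simp only [Fintype.expect_eq_sum_div_card, Fintype.card_fin, Fintype.card_coe, ← sum_div] at h1 ⊢
  rw [div_div, div_le_iff₀ (by positivity)] at h1 ⊢
  refine h2.trans (h1.trans ?_)
  have h3 : (R : ℝ) ≤ 2 * (Vv w)⁻¹ * ((psn w R c).card : ℝ) := by
    calc (R : ℝ) = 2 * (Vv w)⁻¹ * (Vv w * R / 2) := by field_simp
      _ ≤ _ := mul_le_mul_of_nonneg_left h (by positivity)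
  calc E * ((R : ℝ) * R) ≤ E * ((2 * (Vv w)⁻¹ * ((psn w R c).card : ℝ)) *
        (2 * (Vv w)⁻¹ * ((psn w R c).card : ℝ))) :=
        mul_le_mul_of_nonneg_left (mul_le_mul h3 h3 hRr.le (by positivity)) hE0
    _ = _ := by ring

theorem main : S_PD :=
  ⟨fun w => by
    filter_upwards [eventually_ge_atTop (2 * Wn w)] with R hR c
    exact psn_lower hR, part2, fun _ _ _ _ hw hR h => part3 hw hR h,
    fun _ _ _ hw hR h => part4 hw hR h⟩

end Pool.Agent.NH16.CD.PD
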