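import Pool.Agent.NH16.CD.Stm
import Pool.Agent.NH16.SM.DM

set_option autoImplicit false
set_option linter.unusedSectionVars false
set_option linter.unusedVariables false

/-!
# Project CD: weak regularity, version with a partition (helper80)
-/

namespace Pool.Agent.NH16.CD.RG

open Finset
open scoped BigOperators
open Pool.Agent.NH16.DL Pool.Agent.NH16.SM Pool.Agent.NH16.BT
open Pool.Agent.NH16.SM.DM (cut_of_sets sum_av pairs_bound card_small)

theorem main (h1 : S_EN) (h2 : S_WR) : S_RG := by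
  intro ρ κ _ _ _ _ _ f Y Ca t lam ηc σ T hCa ht hηc hσ hT hlam hf0 hY hpair hYt hdiag hT1 hT2
  classical
  have hR : (0 : ℝ) < Fintype.card ρ := by exact_mod_cast Fintype.card_pos
  have hcard : (Fintype.card (Fin T → Bool) : ℝ) = 2 ^ T := by
    simp
  have hEN : ∀ π : ρ → (Fin T → Bool), 𝔼 s, 𝔼 q, av π f s q ^ 2 ≤ Ca + 1 := by
    intro π
    have := h1 ρ κ (Fin T → Bool) f Y Ca lam t π hCa ht hY hpair hYt hdiag
    rw [hcard] at this
    linarith
  obtain ⟨π, hπ⟩ := h2 ρ κ f ηc (Ca + 1) T hT hηc hT2 hEN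
  have hav0 : ∀ s q, 0 ≤ av π f s q := fun s q =>
    div_nonneg (sum_nonneg fun t _ => hf0 t q) (Nat.cast_nonneg _)
  refine ⟨π, fun b hb => ?_⟩
  -- the small classes
  obtain ⟨S, hS⟩ : ∃ S : Finset ρ, S = univ.filter
    (fun s => ¬ (σ * (Fintype.card ρ : ℝ) ≤ cell π s)) := ⟨_, rfl⟩
  have hSc : (S.card : ℝ) ≤ 2 ^ T * (σ * (Fintype.card ρ : ℝ)) := by
    have := card_small π S (c := σ * (Fintype.card ρ : ℝ)) (by positivity) (by
      intro s hs
      rw [hS] at hs
      have := (mem_filter.mp hs).2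
      push Not at this
      exact this.le)
    rwa [hcard] at this
  have hSu : ∀ s t, π t = π s → s ∈ S → t ∈ S := by
    intro s t hts hs
    rw [hS, mem_filter] at hs ⊢
    refine ⟨mem_univ _, ?_⟩
    have : cell π t = cell π s := by unfold cell; rw [hts]
    rw [this]
    exact hs.2
  have hSR : (S.card : ℝ) / Fintype.card ρ ≤ 2 ^ T * σ := by
    rw [div_le_iff₀ hR]
    linarith
  have hSR2 : ((S.card : ℝ) / Fintype.card ρ) ^ 2 ≤ (2 ^ T * σ) ^ 2 :=
    pow_le_pow_left₀ (by positivity) hSR 2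
  have hcut := cut_of_sets (fun s q => f s q - av π f s q) hπ b hb
  have hpb := pairs_bound f Y S hCa ht hlam hY hpair hYt hdiag
  have h7 := mul_le_mul_of_nonneg_left hSR2 hCa
  -- pointwise
  have hpt : ∀ q, (𝔼 s, b s * (f s q - (if σ * (Fintype.card ρ : ℝ) ≤ cell π s then av π f s q
      else 1))) ^ 2 ≤ 2 * (𝔼 s, b s * (f s q - av π f s q)) ^ 2 +
        4 * (𝔼 s, (if s ∈ S then (1 : ℝ) else 0) * f s q) ^ 2 +
        4 * ((S.card : ℝ) / Fintype.card ρ) ^ 2 := by
    intro q
    have e : 𝔼 s, b s * (f s q - (if σ * (Fintype.card ρ : ℝ) ≤ cell π s then av π f s q else 1)) =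
        𝔼 s, b s * (f s q - av π f s q) +
        𝔼 s, b s * ((if s ∈ S then (1 : ℝ) else 0) * (av π f s q - 1)) := by
      rw [← expect_add_distrib]
      refine expect_congr rfl fun s _ => ?_
      by_cases hs : s ∈ S
      · have h5 : ¬ (σ * (Fintype.card ρ : ℝ) ≤ cell π s) := by
          rw [hS] at hs
          exact (mem_filter.mp hs).2
        rw [if_neg h5, if_pos hs]
        ring
      · have h5 : σ * (Fintype.card ρ : ℝ) ≤ cell π s := by
          by_contra hcon
          exact hs (by rw [hS]; exact mem_filter.mpr ⟨mem_univ _, hcon⟩)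
        rw [if_pos h5, if_neg hs]
        ring
    have e1 : 𝔼 s, (if s ∈ S then (1 : ℝ) else 0) * f s q =
        𝔼 s, (if s ∈ S then (1 : ℝ) else 0) * av π f s q := by
      rw [expect_eq_sum_div_card, expect_eq_sum_div_card]
      congr 1
      simp only [ite_mul, one_mul, zero_mul]
      rw [sum_ite_mem, sum_ite_mem, univ_inter]
      exact (sum_av π f S hSu q).symm
    have e0 : 𝔼 s : ρ, (if s ∈ S then (1 : ℝ) else 0) = (S.card : ℝ) / Fintype.card ρ := by
      rw [expect_eq_sum_div_card, card_univ, Finset.sum_boole]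
      simp
    have hy : |𝔼 s, b s * ((if s ∈ S then (1 : ℝ) else 0) * (av π f s q - 1))| ≤
        𝔼 s, (if s ∈ S then (1 : ℝ) else 0) * f s q + (S.card : ℝ) / Fintype.card ρ := by
      rw [e1, ← e0, ← expect_add_distrib]
      have hpw : ∀ s, |b s * ((if s ∈ S then (1 : ℝ) else 0) * (av π f s q - 1))| ≤
          (if s ∈ S then (1 : ℝ) else 0) * av π f s q + (if s ∈ S then (1 : ℝ) else 0) := by
        intro s
        rw [abs_mul, abs_mul]
        have g1 := hb s
        have g2 := hav0 s q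
        by_cases hs : s ∈ S
        · rw [if_pos hs, abs_one, one_mul, one_mul]
          have g3 : |av π f s q - 1| ≤ av π f s q + 1 := by
            rw [abs_le]
            constructor <;> linarith
          calc |b s| * |av π f s q - 1| ≤ 1 * (av π f s q + 1) :=
                mul_le_mul g1 g3 (abs_nonneg _) zero_le_one
            _ = _ := one_mul _
        · rw [if_neg hs]
          simp
      rw [abs_le, ← expect_neg_distrib]
      exact ⟨expect_le_expect fun s _ => (abs_le.1 (hpw s)).1,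
        expect_le_expect fun s _ => (abs_le.1 (hpw s)).2⟩
    rw [e]
    obtain ⟨x, hx⟩ : ∃ x, x = 𝔼 s, b s * (f s q - av π f s q) := ⟨_, rfl⟩
    obtain ⟨y, hy'⟩ : ∃ y, y = 𝔼 s, b s * ((if s ∈ S then (1 : ℝ) else 0) * (av π f s q - 1)) :=
      ⟨_, rfl⟩
    obtain ⟨u, hu⟩ : ∃ u, u = 𝔼 s, (if s ∈ S then (1 : ℝ) else 0) * f s q := ⟨_, rfl⟩
    obtain ⟨v, hv⟩ : ∃ v, v = (S.card : ℝ) / Fintype.card ρ := ⟨_, rfl⟩
    rw [← hx, ← hy', ← hu, ← hv]
    rw [← hy', ← hu, ← hv] at hy
    have g1 : y ^ 2 ≤ (u + v) ^ 2 := by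
      rw [← sq_abs]
      exact pow_le_pow_left₀ (abs_nonneg _) hy 2
    nlinarith [sq_nonneg (x - y), sq_nonneg (u - v)]
  refine (expect_le_expect fun q _ => hpt q).trans ?_
  rw [expect_add_distrib, expect_add_distrib, ← mul_expect, ← mul_expect, Fintype.expect_const]
  linarith

end Pool.Agent.NH16.CD.RG
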