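import Pool.Agent.NH16.CD.Stm

set_option autoImplicit false

/-!
# Task CD6: the singular series (helper13)
-/

namespace Pool.Agent.NH16.CD.SGD

open Finset
open scoped BigOperators
open Pool.Agent.NH16.DL
open Pool.Agent.W218.MU (wD SD)

/-- chinese remainder counting (copy of `Pool.Agent.H373R2.BH.crt_count`) -/
lemma crt_count (s : Finset ℕ) (hs : ∀ p ∈ s, p.Prime) (Q : ℕ → ℕ → Prop) [∀ p, DecidablePred (Q p)] :
    #{r ∈ range (∏ p ∈ s, p) | ∀ p ∈ s, Q p (r % p)} = ∏ p ∈ s, #{r ∈ range p | Q p r} := by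
  classical
  induction s using Finset.induction_on with
  | empty => simp
  | insert p s hp ih =>
    have hpp := hs p (mem_insert_self _ _)
    have hs' : ∀ q ∈ s, q.Prime := fun q hq => hs q (mem_insert_of_mem hq)
    rw [prod_insert hp, prod_insert hp, ← ih hs']
    set N := ∏ q ∈ s, q with hN
    have hNpos : 0 < N := prod_pos (fun q hq => (hs' q hq).pos)
    have hcop : Nat.Coprime p N := by
      rw [hN]
      exact Nat.Coprime.prod_right fun q hq => (Nat.coprime_primes hpp (hs' q hq)).2 (by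
        rintro rfl; exact hp hq)
    have hinj : Set.InjOn (fun r => (r % p, r % N)) (range (p * N) : Set ℕ) := by
      intro a ha b hb hab
      simp only [coe_range, Set.mem_Iio] at ha hb
      simp only [Prod.mk.injEq] at hab
      have h1 : a ≡ b [MOD p * N] := (Nat.modEq_and_modEq_iff_modEq_mul hcop).1 ⟨hab.1, hab.2⟩
      exact Nat.ModEq.eq_of_lt_of_lt h1 ha hb
    have himg : (range (p * N)).image (fun r => (r % p, r % N)) = range p ×ˢ range N := by
      apply eq_of_subset_of_card_le
      · intro x hx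
        rw [mem_image] at hx
        obtain ⟨r, _, rfl⟩ := hx
        rw [mem_product, mem_range, mem_range]
        exact ⟨Nat.mod_lt _ hpp.pos, Nat.mod_lt _ hNpos⟩
      · rw [card_image_of_injOn hinj]; simp
    rw [← card_product]
    have h2 : ({r ∈ range p | Q p r} ×ˢ {r ∈ range N | ∀ q ∈ s, Q q (r % q)}) =
        ((range (p * N)).filter (fun r => ∀ q ∈ insert p s, Q q (r % q))).image (fun r => (r % p, r % N)) := by
      ext x
      simp only [mem_product, mem_filter, mem_image, mem_range]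
      constructor
      · rintro ⟨⟨h1, h2⟩, h3, h4⟩
        have hx : x ∈ range p ×ˢ range N := by rw [mem_product, mem_range, mem_range]; exact ⟨h1, h3⟩
        rw [← himg, mem_image] at hx
        obtain ⟨r, hr, rfl⟩ := hx
        refine ⟨r, ⟨mem_range.1 hr, ?_⟩, rfl⟩
        intro q hq
        rcases mem_insert.1 hq with rfl | hq
        · exact h2
        · have := h4 q hq
          rwa [Nat.mod_mod_of_dvd _ (dvd_prod_of_mem _ hq)] at this
      · rintro ⟨r, ⟨h1, h2⟩, rfl⟩
        refine ⟨⟨Nat.mod_lt _ hpp.pos, h2 p (mem_insert_self _ _)⟩, Nat.mod_lt _ hNpos, ?_⟩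
        intro q hq
        rw [Nat.mod_mod_of_dvd _ (dvd_prod_of_mem _ hq)]
        exact h2 q (mem_insert_of_mem hq)
    rw [h2, card_image_of_injOn]
    intro a ha b hb hab
    exact hinj (by simpa using (mem_filter.1 ha).1) (by simpa using (mem_filter.1 hb).1) hab

lemma SV_eq {m : ℕ} {h : Fin m → ℕ} (hinj : Function.Injective h) : SV h = SD (univ.image h) := by
  unfold SV SD
  rw [card_image_inj hinj]
  refine tprod_congr fun p => ?_
  have : wV h (p : ℕ) = wD (univ.image h) (p : ℕ) := by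
    unfold wV wD
    congr 1
    apply filter_congr
    intro q _
    rw [prod_image hinj.injOn]
  rw [this]

lemma adm_iff {w r : ℕ} (h : Fin r → ℕ) (c : ℕ) :
    (∀ i, ∀ p ∈ PP w, ¬ p ∣ c * h i + 1) ↔ ∀ p ∈ PP w, ¬ Rl w w (ff r) h p (c % p) := by
  constructor
  · intro H p hp hR
    rw [Rl_mod] at hR
    obtain ⟨i, _, hi⟩ := hR
    exact H i p hp hi
  · intro H i p hp hd
    refine H p hp ((Rl_mod _ _ _ _ _ _).2 ⟨i, ?_, hd⟩)
    rw [mem_PP] at hp
    have : lv w w (ff r i) = w := ite_self w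
    rw [this]
    exact hp.2

lemma card_eq (w : ℕ) {r : ℕ} (h : Fin r → ℕ) :
    ((admd w h).card / Wn w : ℝ) = ∏ p ∈ PP w, (1 - (zz w w (ff r) h p : ℝ) / p) := by
  classical
  have h1 : (admd w h).card = ∏ p ∈ PP w, #{t ∈ range p | ¬ Rl w w (ff r) h p t} := by
    rw [← crt_count (PP w) (fun p hp => (mem_PP.1 hp).1) (fun p t => ¬ Rl w w (ff r) h p t)]
    unfold admd Wn
    congr 1
    apply filter_congr
    intro c _
    exact adm_iff h c
  have h2 : ∀ p ∈ PP w, (#{t ∈ range p | ¬ Rl w w (ff r) h p t} : ℝ) =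
      p * (1 - (zz w w (ff r) h p : ℝ) / p) := by
    intro p hp
    have hp0 : (p : ℝ) ≠ 0 := by exact_mod_cast (mem_PP.1 hp).1.ne_zero
    have h3 := card_filter_add_card_filter_not (s := range p) (fun t => Rl w w (ff r) h p t)
    rw [card_range] at h3
    have h4 : zz w w (ff r) h p = #{t ∈ range p | Rl w w (ff r) h p t} := by
      unfold zz
      congr 1
    rw [h4]
    have h5 : ((#{t ∈ range p | Rl w w (ff r) h p t} : ℕ) : ℝ) +
        ((#{t ∈ range p | ¬ Rl w w (ff r) h p t} : ℕ) : ℝ) = p := by exact_mod_cast h3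
    field_simp
    linarith
  rw [h1, Nat.cast_prod, prod_congr rfl h2, prod_mul_distrib]
  unfold Wn
  have h3 : (∏ p ∈ PP w, (p : ℝ)) ≠ 0 := prod_ne_zero_iff.2 fun p hp => by
    exact_mod_cast (mem_PP.1 hp).1.ne_zero
  rw [Nat.cast_prod]
  field_simp

theorem main : S_SGD := by
  intro w r h hrw hinj h1
  have hw : 1 ≤ w := by omega
  have hc := SD_close (w := w) (y := w) le_rfl hw hrw hinj (fun i => by have := h1 i; omega)
  have e : Lc w w (ff (r + 1)) h = (Vv w)⁻¹ ^ (r + 1) * ((admd w h).card / Wn w : ℝ) := by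
    unfold Lc
    rw [card_eq]
    congr 1
    have : ∀ i : Fin (r + 1), (Vv (lv w w (ff (r + 1) i)))⁻¹ = (Vv w)⁻¹ := by
      intro i
      rw [show lv w w (ff (r + 1) i) = w from ite_self w]
    rw [prod_congr rfl (fun i _ => this i), prod_const, card_univ, Fintype.card_fin]
  rw [e, ← SV_eq hinj] at hc
  push_cast at hc
  exact hc

end Pool.Agent.NH16.CD.SGD
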