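import Pool.Agent.NH16.CD.Stm
import Pool.Agent.NH16.DL.B9

set_option autoImplicit false

/-!
# CD4: the theorem of Siegel and Walfisz in the residue classes (S_SWD)
-/

namespace Pool.Agent.NH16.CD.SWD

open Finset Filter Topology
open scoped BigOperators
open Pool.Agent.NH16.DL Pool.Agent.NH16.SM Pool.Agent.NH16.BT Pool.Agent.NH16.CD

/-- the number of primes in one class -/
noncomputable def Sc (w x r z : ℕ) : ℝ :=
  (((Ico x (2 * x)).filter (fun q => q % Wn w = z ∧ (q * r + 1).Prime)).card : ℝ)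

/-- the local factor -/
noncomputable def kp (w r : ℕ) : ℝ :=
  ∏ p ∈ r.primeFactors.filter (fun p => w < p), (1 - 1 / (p : ℝ))⁻¹

/-- one class -/
lemma cls (w : ℕ) {C : ℝ} (hC : 0 ≤ C) {δ : ℝ} (hδ : 0 < δ) (hδ1 : δ ≤ 1) :
    ∀ᶠ x : ℕ in atTop, ∀ r : ℕ, 1 ≤ r → (r : ℝ) ≤ Real.log x ^ C → ∀ z < Wn w,
      (∀ p ∈ PP w, ¬ p ∣ z * r + 1) →
      |Real.log x * Sc w x r z / x - (Vv w)⁻¹ * kp w r / Wn w| ≤
        δ * ((Vv w)⁻¹ * kp w r / Wn w) + 3 / Real.log x := by
  classical
  set W := Wn w with hWd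
  have hW : 0 < W := Wn_pos w
  have hWp : (0 : ℝ) < W := by exact_mod_cast hW
  obtain ⟨k, hk⟩ := exists_nat_ge C
  obtain ⟨x0, hx0⟩ := Pool.Agent.W218.MU.sw (k + 1) (k + 2)
  have hlog : Tendsto (fun x : ℕ => Real.log (x : ℝ)) atTop atTop :=
    Real.tendsto_log_atTop.comp tendsto_natCast_atTop_atTop
  filter_upwards [pi_range hC hδ hδ1, eventually_ge_atTop (max x0 (w + 2)),
    hlog.eventually_ge_atTop (W : ℝ), hlog.eventually_ge_atTop 1]
    with x hpi hxx hLW hL1 r hr hrC z hz hcop
  have hxx0 : x0 ≤ x := (le_max_left _ _).trans hxx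
  have hxw : w + 2 ≤ x := (le_max_right _ _).trans hxx
  have hx1 : 1 ≤ x := by omega
  have hxp : (0 : ℝ) < x := by exact_mod_cast hx1
  have hrp : (1 : ℝ) ≤ r := by exact_mod_cast hr
  set L := Real.log x with hL
  have hLp : 0 < L := by linarith
  have hVp : 0 < (Vv w)⁻¹ := inv_pos.2 (Vv_pos w)
  set φt : ℝ := (Nat.totient (r * W) : ℝ) with hφ
  have hφp : 0 < φt := by
    rw [hφ]
    exact_mod_cast Nat.totient_pos.2 (Nat.mul_pos hr hW)
  set κ : ℝ := kp w r with hκ
  have hphi : (W : ℝ) * r / φt = (Vv w)⁻¹ * κ := phi_eq hr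
  have hc := cop_iff.1 hcop
  have hc2 : Nat.Coprime (z * r + 1) (r * W) := by
    refine Nat.Coprime.mul_right ?_ hc
    rw [mul_comm]
    exact (Nat.coprime_mul_left_add_left 1 r z).2 (Nat.coprime_one_left r)
  set a := (z * r + 1) % (r * W) with ha
  have hrW : 0 < r * W := Nat.mul_pos hr hW
  have halt : a < r * W := Nat.mod_lt _ hrW
  have hac : a.Coprime (r * W) := by
    rw [ha]
    have := Nat.ModEq.gcd_eq (Nat.mod_modEq (z * r + 1) (r * W))
    unfold Nat.Coprime
    rw [this]
    exact hc2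
  have hrWL : ((r * W : ℕ) : ℝ) ≤ L ^ (k + 1) := by
    push_cast
    rw [pow_succ]
    refine mul_le_mul ?_ hLW hWp.le (by positivity)
    refine hrC.trans ?_
    rw [← Real.rpow_natCast]
    exact Real.rpow_le_rpow_of_exponent_le hL1 hk
  have one : ∀ X : ℕ, x ≤ X → |H343E.piAP X (r * W) a - H343E.pi1 X / φt| ≤ X / L ^ (k + 2) := by
    intro X hX
    have hLX : L ≤ Real.log X := Real.log_le_log hxp (by exact_mod_cast hX)
    have := hx0 X (hxx0.trans hX) (r * W) hrW
      (hrWL.trans (pow_le_pow_left₀ hLp.le hLX _)) a halt hac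
    refine this.trans ?_
    exact div_le_div_of_nonneg_left (Nat.cast_nonneg _) (by positivity)
      (pow_le_pow_left₀ hLp.le hLX _)
  have hA : x ≤ x * r := Nat.le_mul_of_pos_right x hr
  have hB : x ≤ (2 * x - 1) * r + 1 := by nlinarith [Nat.mul_le_mul_right r (by omega : x ≤ 2 * x - 1)]
  have t1 := one _ hB
  have t2 := one _ hA
  have t3 := hpi r hr hrC
  have hSz : Sc w x r z =
      H343E.piAP ((2 * x - 1) * r + 1) (r * W) a - H343E.piAP (x * r) (r * W) a :=
    cnt_class hr hW hx1 hz
  have hX1c : (((2 * x - 1) * r + 1 : ℕ) : ℝ) = (2 * x - 1) * r + 1 := by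
    push_cast [Nat.cast_sub (by omega : 1 ≤ 2 * x)]
    ring
  rw [hX1c] at t1
  push_cast at t2
  have k1 : |Sc w x r z - (x * r / L) / φt| ≤
      δ * (x * r / L) / φt + 3 * (x * r) / L ^ (k + 2) := by
    have e : Sc w x r z - (x * r / L) / φt =
        (H343E.piAP ((2 * x - 1) * r + 1) (r * W) a - H343E.pi1 ((2 * x - 1) * r + 1) / φt) -
        (H343E.piAP (x * r) (r * W) a - H343E.pi1 (x * r) / φt) +
        (H343E.pi1 ((2 * x - 1) * r + 1) - H343E.pi1 (x * r) - x * r / L) / φt := by
      rw [hSz]; ring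
    rw [e]
    refine (abs_add_le _ _).trans (le_trans (add_le_add ((abs_sub _ _).trans (add_le_add t1 t2))
      (le_of_eq (by rw [abs_div, abs_of_pos hφp]))) ?_)
    have f1 : |H343E.pi1 ((2 * x - 1) * r + 1) - H343E.pi1 (x * r) - x * r / L| / φt ≤
        δ * (x * r / L) / φt := div_le_div_of_nonneg_right t3 hφp.le
    have f2 : ((2 * (x : ℝ) - 1) * r + 1) / L ^ (k + 2) + x * r / L ^ (k + 2) ≤
        3 * (x * r) / L ^ (k + 2) := by
      rw [← add_div]
      exact div_le_div_of_nonneg_right (by nlinarith) (by positivity)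
    linarith
  have k2 : |L * Sc w x r z / x - r / φt| ≤ δ * (r / φt) + 3 / L := by
    have e : L * Sc w x r z / x - r / φt = L / x * (Sc w x r z - (x * r / L) / φt) := by
      field_simp
    rw [e, abs_mul, abs_of_pos (by positivity : 0 < L / x)]
    refine (mul_le_mul_of_nonneg_left k1 (by positivity)).trans ?_
    have e2 : L / x * (δ * (x * r / L) / φt + 3 * (x * r) / L ^ (k + 2)) =
        δ * (r / φt) + 3 * (r / L ^ (k + 1)) := by
      rw [show k + 2 = (k + 1) + 1 by ring, pow_succ L (k + 1)]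
      field_simp
    rw [e2]
    have : (r : ℝ) / L ^ (k + 1) ≤ 1 / L := by
      rw [div_le_div_iff₀ (by positivity) hLp, pow_succ, one_mul]
      refine mul_le_mul_of_nonneg_right (hrC.trans ?_) hLp.le
      rw [← Real.rpow_natCast]
      exact Real.rpow_le_rpow_of_exponent_le hL1 hk
    have e3 : (3 : ℝ) / L = 3 * (1 / L) := by ring
    rw [e3]
    linarith
  have hrφ : (r : ℝ) / φt = (Vv w)⁻¹ * κ / W := by
    rw [← hphi]; field_simp
  rw [hrφ] at k2
  exact k2

/-- comparison of the two counts -/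
lemma count_cmp {W x c r : ℕ} (hW : 0 < W) (hc : c < W) :
    (((range (x / W)).filter (fun t => (r * (c + W * (x / W + t)) + 1).Prime)).card ≤
      ((Ico x (2 * x)).filter (fun q => q % W = c ∧ (q * r + 1).Prime)).card + 1) ∧
    (((Ico x (2 * x)).filter (fun q => q % W = c ∧ (q * r + 1).Prime)).card ≤
      ((range (x / W)).filter (fun t => (r * (c + W * (x / W + t)) + 1).Prime)).card + 2) := by
  set T := x / W with hT
  have hTW : W * T ≤ x := Nat.mul_div_le x W
  have hTW2 : x < W * T + W := by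
    have := Nat.lt_mul_div_succ x hW
    rw [← hT] at this
    linarith [this, Nat.mul_succ W T]
  constructor
  · have h1 : ((range T).filter (fun t => (r * (c + W * (T + t)) + 1).Prime)).card ≤
        (insert (c + W * T) ((Ico x (2 * x)).filter
          (fun q => q % W = c ∧ (q * r + 1).Prime))).card := by
      refine card_le_card_of_injOn (fun t => c + W * (T + t)) ?_ ?_
      · intro t ht
        rw [mem_coe, mem_filter, mem_range] at ht
        rw [mem_coe, mem_insert]
        by_cases h0 : t = 0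
        · left
          simp only
          rw [h0, add_zero]
        · right
          rw [mem_filter, mem_Ico]
          have h2 : 1 ≤ t := Nat.pos_of_ne_zero h0
          have h3 : W * (T + 1) ≤ W * (T + t) := Nat.mul_le_mul_left W (by omega)
          have h4 : W * (T + t + 1) ≤ W * (T + T) := Nat.mul_le_mul_left W (by omega)
          refine ⟨⟨?_, ?_⟩, ?_, ?_⟩
          · have : W * (T + 1) = W * T + W := by ring
            simp only
            omega
          · have e1 : W * (T + t + 1) = W * (T + t) + W := by ring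
            have e2 : W * (T + T) = W * T + W * T := by ring
            simp only
            omega
          · simp only
            rw [Nat.add_mul_mod_self_left, Nat.mod_eq_of_lt hc]
          · simp only
            rw [mul_comm]
            exact ht.2
      · intro t _ t' _ e
        simp only at e
        have : W * (T + t) = W * (T + t') := by omega
        have := Nat.eq_of_mul_eq_mul_left hW this
        omega
    exact h1.trans (card_insert_le _ _)
  · have h1 : ((Ico x (2 * x)).filter (fun q => q % W = c ∧ (q * r + 1).Prime)).card ≤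
        (insert T (insert (T + 1) ((range T).filter
          (fun t => (r * (c + W * (T + t)) + 1).Prime)))).card := by
      refine card_le_card_of_injOn (fun q => q / W - T) ?_ ?_
      · intro q hq
        rw [mem_coe, mem_filter, mem_Ico] at hq
        rw [mem_coe, mem_insert, mem_insert, mem_filter, mem_range]
        have h2 : T ≤ q / W := Nat.div_le_div_right hq.1.1
        have h3 : q / W < 2 * T + 2 := by
          rw [Nat.div_lt_iff_lt_mul hW]
          have : (2 * T + 2) * W = 2 * (W * T + W) := by ring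
          omega
        have h4 : q = c + W * (q / W) := by
          have := Nat.mod_add_div q W
          omega
        simp only
        rcases Nat.lt_or_ge (q / W - T) T with h5 | h5
        · right; right
          refine ⟨h5, ?_⟩
          rw [show T + (q / W - T) = q / W by omega, ← h4, mul_comm]
          exact hq.2.2
        · omega
      · intro q hq q' hq' e
        rw [mem_coe, mem_filter, mem_Ico] at hq hq'
        simp only at e
        have h2 : T ≤ q / W := Nat.div_le_div_right hq.1.1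
        have h2' : T ≤ q' / W := Nat.div_le_div_right hq'.1.1
        have h3 : q / W = q' / W := by omega
        have h4 := Nat.mod_add_div q W
        have h4' := Nat.mod_add_div q' W
        rw [h3] at h4
        omega
    refine h1.trans ((card_insert_le _ _).trans ?_)
    have := card_insert_le (T + 1) ((range T).filter
          (fun t => (r * (c + W * (T + t)) + 1).Prime))
    omega

lemma mean_eq (w x r c : ℕ) : 𝔼 t : Fin (x / Wn w), Fd w x r (c + Wn w * (x / Wn w + t)) =
    Vv w * Real.log x * (((range (x / Wn w)).filter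
      (fun t => (r * (c + Wn w * (x / Wn w + t)) + 1).Prime)).card : ℝ) / ((x / Wn w : ℕ) : ℝ) := by
  classical
  rw [Fintype.expect_eq_sum_div_card, Fintype.card_fin,
    Fin.sum_univ_eq_sum_range (fun t => Fd w x r (c + Wn w * (x / Wn w + t))) (x / Wn w)]
  congr 1
  unfold Fd
  rw [← sum_filter, sum_const, nsmul_eq_mul, mul_comm]

/-- the numerical part -/
lemma num {V W x T L a s κ d δ g : ℝ} (hWp : 0 < W) (hTW : W * T ≤ x) (hTW2 : x ≤ W * T + W)
    (hL1 : 6 * W / d ≤ L) (hL2 : 1 ≤ L) (hL3 : L / x < d / (4 * W)) (hx : 2 * W / d ≤ x)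
    (hV : 0 < V) (hV1 : V ≤ 1) (hκ1 : 1 ≤ κ) (hκ2 : κ ≤ g)
    (hcl : |L * s / x - V⁻¹ * κ / W| ≤ d * (V⁻¹ * κ / W) + 3 / L)
    (n1 : a ≤ s + 1) (n2 : s ≤ a + 2) (ha0 : 0 ≤ a) (hd0 : 0 < d) (hd1 : d ≤ 1 / 8)
    (hdδ : 8 * d ≤ δ) : 1 - δ ≤ V * L * a / T ∧ V * L * a / T ≤ (1 + δ) * g := by
  have hLp : 0 < L := by linarith
  have hxp : (0:ℝ) < x := lt_of_lt_of_le (by positivity) hx
  have hxW : 2 * W ≤ d * x := by
    rw [div_le_iff₀ hd0] at hx
    linarith
  have hTp : (0:ℝ) < W * T := by nlinarith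
  have hTp' : (0:ℝ) < T := by
    by_contra h
    push Not at h
    have := mul_nonpos_of_nonneg_of_nonpos hWp.le h
    linarith
  have hθ1 : 1 ≤ x / (W * T) := by rw [one_le_div hTp]; exact hTW
  have hθ2 : x / (W * T) ≤ 1 + d := by
    rw [div_le_iff₀ hTp]
    nlinarith
  have e1 : V * L * a / T = (V * W * (L * a / x)) * (x / (W * T)) := by
    field_simp
  have hε : 3 / L + 2 * L / x ≤ d / W := by
    have g1 : 3 / L ≤ d / (2 * W) := by
      rw [div_le_div_iff₀ hLp (by positivity)]
      rw [div_le_iff₀ hd0] at hL1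
      linarith
    have g2 : 2 * L / x ≤ d / (2 * W) := by
      have : 2 * L / x = 2 * (L / x) := by ring
      rw [this]
      calc 2 * (L / x) ≤ 2 * (d / (4 * W)) := by linarith
        _ = d / (2 * W) := by field_simp; norm_num
    calc 3 / L + 2 * L / x ≤ d / (2 * W) + d / (2 * W) := add_le_add g1 g2
      _ = d / W := by field_simp; norm_num
  obtain ⟨c1, c2⟩ := abs_le.1 hcl
  have b1 : L * a / x ≤ (1 + d) * (V⁻¹ * κ / W) + d / W := by
    have h1 : L * a / x ≤ L * s / x + 2 * L / x := by
      rw [← add_div]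
      refine div_le_div_of_nonneg_right ?_ hxp.le
      have h2 := mul_le_mul_of_nonneg_left n1 hLp.le
      linarith
    linarith
  have b2 : (1 - d) * (V⁻¹ * κ / W) - d / W ≤ L * a / x := by
    have h1 : L * s / x ≤ L * a / x + 2 * L / x := by
      rw [← add_div]
      refine div_le_div_of_nonneg_right ?_ hxp.le
      have h2 := mul_le_mul_of_nonneg_left n2 hLp.le
      linarith
    linarith
  have e2 : V * W * (V⁻¹ * κ / W) = κ := by
    field_simp
  have hVW : 0 < V * W := by positivity
  have h3 := mul_le_mul_of_nonneg_right hV1 hd0.le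
  have m1 : V * W * (L * a / x) ≤ (1 + d) * κ + d := by
    calc V * W * (L * a / x) ≤ V * W * ((1 + d) * (V⁻¹ * κ / W) + d / W) :=
          mul_le_mul_of_nonneg_left b1 hVW.le
      _ = (1 + d) * (V * W * (V⁻¹ * κ / W)) + V * (W * (d / W)) := by ring
      _ = (1 + d) * κ + V * d := by rw [e2, mul_div_cancel₀ _ hWp.ne']
      _ ≤ _ := by linarith
  have m2 : (1 - d) * κ - d ≤ V * W * (L * a / x) := by
    calc (1 - d) * κ - d ≤ (1 - d) * κ - V * d := by linarith
      _ = (1 - d) * (V * W * (V⁻¹ * κ / W)) - V * (W * (d / W)) := by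
          rw [e2, mul_div_cancel₀ _ hWp.ne']
      _ = V * W * ((1 - d) * (V⁻¹ * κ / W) - d / W) := by ring
      _ ≤ _ := mul_le_mul_of_nonneg_left b2 hVW.le
  rw [e1]
  have ha0' : 0 ≤ V * W * (L * a / x) := by positivity
  constructor
  · have h1 : 1 - δ ≤ (1 - d) * κ - d := by
      have h3 := mul_le_mul_of_nonneg_left hκ1 (by linarith : (0:ℝ) ≤ 1 - d)
      linarith
    have h2 : V * W * (L * a / x) ≤ V * W * (L * a / x) * (x / (W * T)) :=
      le_mul_of_one_le_right ha0' hθ1
    linarith
  · have h4 : 0 ≤ (1 + d) * κ + d := by positivity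
    calc V * W * (L * a / x) * (x / (W * T)) ≤ ((1 + d) * κ + d) * (1 + d) :=
          mul_le_mul m1 hθ2 (by linarith) h4
      _ ≤ ((1 + d) * κ + d * κ) * (1 + d) := by
          have h5 : d ≤ d * κ := le_mul_of_one_le_right hd0.le hκ1
          exact mul_le_mul_of_nonneg_right (by linarith) (by linarith)
      _ = (1 + 3 * d + 2 * d ^ 2) * κ := by ring
      _ ≤ (1 + δ) * κ := by
          refine mul_le_mul_of_nonneg_right ?_ (by linarith)
          nlinarith
      _ ≤ (1 + δ) * g := mul_le_mul_of_nonneg_left hκ2 (by linarith)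

theorem main : S_SWD := by
  intro w A δ hA hδ
  have hW : 0 < Wn w := Wn_pos w
  have hWp : (0 : ℝ) < Wn w := by exact_mod_cast hW
  obtain ⟨d, hd0, hd1, hdδ⟩ : ∃ d : ℝ, 0 < d ∧ d ≤ 1 / 8 ∧ 8 * d ≤ δ := by
    refine ⟨min δ 1 / 8, ?_, ?_, ?_⟩
    · have : 0 < min δ 1 := lt_min hδ one_pos
      positivity
    · have : min δ 1 ≤ 1 := min_le_right _ _
      linarith
    · have : min δ 1 ≤ δ := min_le_left _ _
      linarith
  have hlog : Tendsto (fun x : ℕ => Real.log (x : ℝ)) atTop atTop :=
    Real.tendsto_log_atTop.comp tendsto_natCast_atTop_atTop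
  have hlx : Tendsto (fun x : ℕ => Real.log (x : ℝ) / x) atTop (𝓝 0) :=
    (Real.isLittleO_log_id_atTop.tendsto_div_nhds_zero).comp tendsto_natCast_atTop_atTop
  filter_upwards [cls w hA hd0 (by linarith : d ≤ 1), hlog.eventually_ge_atTop (6 * Wn w / d),
    hlog.eventually_ge_atTop 1, hlx.eventually (gt_mem_nhds (by positivity : 0 < d / (4 * Wn w))),
    (tendsto_natCast_atTop_atTop (R := ℝ)).eventually_ge_atTop (2 * Wn w / d)]
    with x hcls hL1 hL2 hL3 hx r c hr hrA hc hcop
  obtain ⟨hκ1, hκ2⟩ := kap_bounds w r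
  have hcl := hcls r hr hrA c hc hcop
  obtain ⟨n1, n2⟩ := count_cmp (x := x) (r := r) hW hc
  have hTW : (Wn w : ℝ) * ((x / Wn w : ℕ) : ℝ) ≤ x := by exact_mod_cast Nat.mul_div_le x (Wn w)
  have hTW2 : (x : ℝ) ≤ Wn w * ((x / Wn w : ℕ) : ℝ) + Wn w := by
    have h1 := Nat.lt_mul_div_succ x hW
    have h2 : x ≤ Wn w * (x / Wn w) + Wn w := by
      have : Wn w * (x / Wn w + 1) = Wn w * (x / Wn w) + Wn w := by ring
      omega
    exact_mod_cast h2
  rw [mean_eq]
  refine num hWp hTW hTW2 hL1 hL2 hL3 hx (Vv_pos w) (Vv_le_one w) hκ1 hκ2 hcl ?_ ?_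
    (Nat.cast_nonneg _) hd0 hd1 hdδ
  · unfold Sc
    exact_mod_cast n1
  · unfold Sc
    exact_mod_cast n2

end Pool.Agent.NH16.CD.SWD
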