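import Pool.Agent.NH16.CD.E6
import Pool.Agent.NH16.CD.FLD
import Pool.Agent.NH16.CD.PD
import Pool.Agent.NH16.CD.RG
import Pool.Agent.NH16.CD.SWD
import Pool.Agent.NH16.CD.CTD
import Pool.Agent.NH16.CD.SGD
import Pool.Agent.NH16.BT.Main

set_option autoImplicit false

/-!
# Boundedly many types of factors: assembly
-/

namespace Pool.Agent.NH16.CD.Main

open Finset Filter
open Pool.Agent.NH16.DL Pool.Agent.NH16.SM Pool.Agent.NH16.BT Pool.Agent.NH16.CD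

theorem main (Lm : ℕ) : ∃ Cs : ℝ, 0 ≤ Cs ∧ ∀ δ : ℝ, 0 < δ → ∃ (w K : ℕ) (b : ℝ),
      ∀ A : ℝ, 0 ≤ A → ∀ᶠ x : ℕ in atTop, ∀ R : ℕ, b * Real.log x ≤ R → (R : ℝ) ≤ Real.log x ^ A →
      ∃ (T' : ℕ) (τ : ℕ → Fin K) (X : Fin K → ℕ → Fin T' → ℝ), 1 ≤ T' ∧
        (∀ r r' : ℕ, τ r = τ r' → r % Wn w = r' % Wn w) ∧ (∀ k c t, 0 ≤ X k c t) ∧
        (∀ r ∈ Icc 1 R, |facd w τ X (fun _ : Fin 1 => r) - 1| ≤ δ) ∧
        ∀ n ≤ Lm, (∀ h : Fin (n + 1) → ℕ, (∀ i, h i ∈ Icc 1 R) → facd w τ X h ≤ Cs) ∧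
          (∀ h : Fin (n + 1) → ℕ, (∀ i, h i ∈ Icc 1 R) → (∀ i j, τ (h i) = τ (h j)) → 1 - δ ≤ facd w τ X h) ∧
          (((Fintype.piFinset (fun _ : Fin (n + 1) => Icc 1 R)).filter (fun h =>
            δ * (x / Real.log x ^ (n + 1)) < |(NV x h : ℝ) -
              facd w τ X h * SV h * (x / Real.log x ^ (n + 1))|)).card : ℝ) ≤
            δ * (R : ℝ) ^ (n + 1) := by
  obtain ⟨C, hC, hLD⟩ := LD_ev FLD.main CTD.main (2 * Lm + 6)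
  have hRG : S_RG := RG.main Pool.Agent.NH16.SM.EN.main Pool.Agent.NH16.SM.WR.main
  have hCore : CoreHypD Lm C := coreD hRG Pool.Agent.NH16.BT.PSG.main PD.main Pool.Agent.NH16.BT.MN.main2
    Pool.Agent.NH16.BT.MN.main3 SWD.main hC hLD
  exact finalD CTD.main SGD.main Pool.Agent.NH16.BT.MN.main2 PD.main hCore

end Pool.Agent.NH16.CD.Main
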