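import Pool.Agent.NH16.BT.Stm
import Pool.Agent.NH16.DL.B10

set_option autoImplicit false

/-!
# Project CD (helper16): boundedly many types of factors for the primes `q r + 1`.  Definitions and statements.
-/

namespace Pool.Agent.NH16.CD

open Finset Filter
open scoped BigOperators
open Pool.Agent.NH16.DL Pool.Agent.NH16.SM Pool.Agent.NH16.BT

/-- CD1: the correlations of the majorant at the forms `u i * q + 1`, `q = c + Wn w * t`, `t < x / Wn w` -/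
def S_FLD : Prop := ∀ M : ℕ, ∃ C : ℕ, 1 ≤ C ∧ ∀ b : ℕ, C ≤ b → ∀ η : ℝ, 0 < η → ∀ w : ℕ, 1 ≤ w →
  ∀ᶠ x : ℕ in atTop, ∀ m ≤ M, ∀ (a : Fin m → Bool) (u : Fin m → ℕ) (D c : ℕ), D ≠ 0 → (∀ i, 1 ≤ u i) →
    (∀ p : ℕ, p.Prime → w < p → ∀ i, p ∣ u i → p ∣ D) →
    (∀ p : ℕ, p.Prime → w < p → ∀ i j, i ≠ j → p ∣ Nat.dist (u i) (u j) → p ∣ D) →
    (1 - 4 * (1 / 2 : ℝ) ^ b) * (1 - (m : ℝ) ^ 2 / w) - η ≤
      𝔼 t : Fin (x / Wn w), ∏ i, (if a i = true then gy w (yx C b x) (u i * (c + Wn w * t) + 1) else 1) ∧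
    𝔼 t : Fin (x / Wn w), ∏ i, (if a i = true then gy w (yx C b x) (u i * (c + Wn w * t) + 1) else 1) ≤
      (1 + 4 * (1 / 2 : ℝ) ^ b) * sg w (3 ^ m) D + η

/-- the positions of the class `c` -/
def psn (w R c : ℕ) : Finset (Fin R) := univ.filter (fun s => ∀ p ∈ PP w, ¬ p ∣ c * vl s + 1)

/-- CD2: averages over the positions of a class -/
def S_PD : Prop := (∀ w : ℕ, ∀ᶠ R : ℕ in atTop, ∀ c : ℕ, Vv w * R / 2 ≤ ((psn w R c).card : ℝ)) ∧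
  (∀ m : ℕ, ∃ Cm : ℝ, 0 ≤ Cm ∧ ∀ w : ℕ, 1 ≤ w → ∀ᶠ R : ℕ in atTop,
    1 / (Wn w : ℝ) * ∑ c ∈ range (Wn w), ((psn w R c).card : ℝ) ^ m ≤ Cm * (Vv w) ^ m * (R : ℝ) ^ m) ∧
  (∀ (w R c m : ℕ), 1 ≤ w → 1 ≤ R → Vv w * R / 2 ≤ ((psn w R c).card : ℝ) →
    𝔼 r : Fin m → psn w R c, (sg w (3 ^ m) (disc (fun i => vl (r i).1)) - 1) ≤ (2 * (Vv w)⁻¹) ^ m * XA m w) ∧
  ∀ (w R c : ℕ), 1 ≤ w → 1 ≤ R → Vv w * R / 2 ≤ ((psn w R c).card : ℝ) →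
    𝔼 s : psn w R c, 𝔼 t : psn w R c, (sg w 9 (disc ![vl s.1, vl t.1]) - 1) ^ 2 ≤
      (2 * (Vv w)⁻¹) ^ 2 * (10 * (Real.exp (101 ^ 6 / w) - 1))

/-- CD3: weak regularity with a model that is constant on the classes of a partition -/
def S_RG : Prop := ∀ (ρ κ : Type) [Fintype ρ] [Nonempty ρ] [DecidableEq ρ] [Fintype κ] [Nonempty κ]
  (f : ρ → κ → ℝ) (Y : ρ → ρ → ℝ) (Ca t lam ηc σ : ℝ) (T : ℕ),
  0 ≤ Ca → 0 ≤ t → 0 < ηc → 0 < σ → 1 ≤ T → 0 ≤ lam → (∀ s q, 0 ≤ f s q) →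
  (∀ s s', 0 ≤ Y s s') → (∀ s s', s ≠ s' → 𝔼 q, f s q * f s' q ≤ Ca + Y s s') →
  𝔼 s, 𝔼 s', Y s s' ^ 2 ≤ t ^ 2 → (∀ s, 𝔼 q, f s q ^ 2 ≤ lam * (Fintype.card ρ : ℝ)) →
  Real.sqrt (2 ^ T) * t + 2 ^ T * lam ≤ 1 → Ca + 1 ≤ ηc * T →
  ∃ π : ρ → (Fin T → Bool), ∀ b : ρ → ℝ, (∀ s, |b s| ≤ 1) →
    𝔼 q, (𝔼 s, b s * (f s q - (if σ * (Fintype.card ρ : ℝ) ≤ cell π s then av π f s q else 1))) ^ 2 ≤
      8 * ηc + 4 * (Ca * (2 ^ T * σ) ^ 2 + t + lam) + 4 * (2 ^ T * σ) ^ 2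

/-- the normalised indicator function of the primes `r q + 1` -/
noncomputable def Fd (w x r q : ℕ) : ℝ := open Classical in if (r * q + 1).Prime then Vv w * Real.log x else 0

/-- CD4: the theorem of Siegel and Walfisz in the residue classes -/
def S_SWD : Prop := ∀ (w : ℕ) (A δ : ℝ), 0 ≤ A → 0 < δ → ∀ᶠ x : ℕ in atTop, ∀ r c : ℕ, 1 ≤ r →
  (r : ℝ) ≤ Real.log x ^ A → c < Wn w → (∀ p ∈ PP w, ¬ p ∣ c * r + 1) →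
  1 - δ ≤ 𝔼 t : Fin (x / Wn w), Fd w x r (c + Wn w * (x / Wn w + t)) ∧
  𝔼 t : Fin (x / Wn w), Fd w x r (c + Wn w * (x / Wn w + t)) ≤ (1 + δ) * sg w 3 r

/-- the quantities of the problem -/
def wV {ℓ : ℕ} (r : Fin ℓ → ℕ) (p : ℕ) : ℕ := ((range p).filter (fun q => p ∣ ∏ j, (q * r j + 1))).card

noncomputable def SV {ℓ : ℕ} (r : Fin ℓ → ℕ) : ℝ := ∏' p : Nat.Primes, (1 - (wV r p : ℝ) / ((p : ℕ) : ℝ)) / (1 - 1 / ((p : ℕ) : ℝ)) ^ ℓ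

def NV (x : ℕ) {ℓ : ℕ} (r : Fin ℓ → ℕ) : ℕ := ((Ico x (2 * x)).filter (fun q => ∀ j, (q * r j + 1).Prime)).card

/-- CD5: prime tuples and averages along the residue classes; the majorant -/
def S_CTD : Prop := (∀ (w x r : ℕ) (h : Fin (r + 1) → ℕ), 1 ≤ x →
  |∑ c ∈ range (Wn w), ∑ t ∈ range (x / Wn w), ∏ i, Fd w x (h i) (c + Wn w * (x / Wn w + t)) -
      (Vv w * Real.log x) ^ (r + 1) * NV x h| ≤
    (Vv w * Real.log x) ^ (r + 1) * (3 * Wn w)) ∧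
  ∀ (C b : ℕ), 1 ≤ C → 1 ≤ b → ∀ w : ℕ, ∀ᶠ x : ℕ in atTop, ∀ r q : ℕ, 1 ≤ r → x ≤ 2 * q →
    Fd w x r q ≤ 2 / ke C b * gy w (yx C b x) (r * q + 1)

/-- the residue classes `c` such that all `c * h i + 1` are prime to `Wn w` -/
def admd (w : ℕ) {r : ℕ} (h : Fin r → ℕ) : Finset ℕ := (range (Wn w)).filter (fun c => ∀ i, ∀ p ∈ PP w, ¬ p ∣ c * h i + 1)

/-- CD6: the singular series -/
def S_SGD : Prop := ∀ (w r : ℕ) (h : Fin (r + 1) → ℕ), r + 1 ≤ w → Function.Injective h → (∀ i, 1 ≤ h i) →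
  |SV h - (Vv w)⁻¹ ^ (r + 1) * ((admd w h).card / Wn w : ℝ)| ≤
    (Vv w)⁻¹ ^ (r + 1) * ((sg w (3 ^ (r + 1)) (disc h) - 1) + ((r : ℝ) + 1) ^ 2 / w)

end Pool.Agent.NH16.CD
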